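import Pool.Agent.Run7.h247.Dig.Moments

/-!
# Probability measures whose self convolution is large on `[0, 1]`
-/

set_option autoImplicit false

open MeasureTheory Set
open scoped ENNReal

namespace Pool.Agent.Run7.H247.Dig

variable (μ : Measure ℝ) [IsProbabilityMeasure μ] (hμ : μ (Icc (0 : ℝ) 1)ᶜ = 0)

include hμ in
omit [IsProbabilityMeasure μ] in
lemma ae_mem : ∀ᵐ x ∂μ, x ∈ Icc (0 : ℝ) 1 := by
  rw [ae_iff]
  exact hμ

include hμ in
lemma int1 {g : ℝ → ℝ} (hg : Continuous g) : Integrable g μ := by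
  have h : IntegrableOn g (Icc 0 1) μ := hg.continuousOn.integrableOn_compact isCompact_Icc
  unfold IntegrableOn at h
  rwa [Measure.restrict_eq_self_of_ae_mem (ae_mem μ hμ)] at h

include hμ in
lemma prod_eq : (μ.prod μ).restrict (Icc (0 : ℝ) 1 ×ˢ Icc (0 : ℝ) 1) = μ.prod μ := by
  rw [← Measure.prod_restrict, Measure.restrict_eq_self_of_ae_mem (ae_mem μ hμ)]

include hμ in
lemma int2 {g : ℝ × ℝ → ℝ} (hg : Continuous g) : Integrable g (μ.prod μ) := by
  have h : IntegrableOn g (Icc (0 : ℝ) 1 ×ˢ Icc (0 : ℝ) 1) (μ.prod μ) :=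
    hg.continuousOn.integrableOn_compact (isCompact_Icc.prod isCompact_Icc)
  unfold IntegrableOn at h
  rwa [prod_eq μ hμ] at h

include hμ in
lemma ae_prod : ∀ᵐ z ∂(μ.prod μ), z ∈ Icc (0 : ℝ) 1 ×ˢ Icc (0 : ℝ) 1 := by
  rw [← prod_eq μ hμ]
  exact ae_restrict_mem (measurableSet_Icc.prod measurableSet_Icc)

include hμ in
/-- positivity of the difference -/
lemma conv_pos {p : ℝ} (hp : 0 ≤ p)
    (h : ∀ B : Set ℝ, MeasurableSet B → B ⊆ Icc 0 1 →
      ENNReal.ofReal p * volume B ≤ (μ.conv μ) B)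
    {g : ℝ → ℝ} (hg : Continuous g) (hg0 : ∀ u, 0 ≤ u → u ≤ 2 → 0 ≤ g u) :
    p * ∫ u in (0 : ℝ)..1, g u ≤ ∫ z, g (z.1 + z.2) ∂(μ.prod μ) := by
  set G : ℝ → ℝ := fun u => max (g u) 0 with hG
  have hGc : Continuous G := hg.max continuous_const
  have hG0 : ∀ u, 0 ≤ G u := fun u => le_max_right _ _
  have hGe : ∀ u, 0 ≤ u → u ≤ 2 → G u = g u := fun u h1 h2 => max_eq_left (hg0 u h1 h2)
  have e1 : ∫ z, g (z.1 + z.2) ∂(μ.prod μ) = ∫ z, G (z.1 + z.2) ∂(μ.prod μ) := by
    apply integral_congr_ae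
    filter_upwards [ae_prod μ hμ] with z hz
    rw [hGe _ (by linarith [hz.1.1, hz.2.1]) (by linarith [hz.1.2, hz.2.2])]
  have hmeas : Measurable (fun z : ℝ × ℝ => z.1 + z.2) := by fun_prop
  have e2 : ∫ z, G (z.1 + z.2) ∂(μ.prod μ) = ∫ u, G u ∂(μ.conv μ) := by
    unfold Measure.conv
    rw [integral_map hmeas.aemeasurable hGc.aestronglyMeasurable]
  have hint : Integrable G (μ.conv μ) := by
    unfold Measure.conv
    rw [integrable_map_measure hGc.aestronglyMeasurable hmeas.aemeasurable]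
    exact int2 μ hμ (hGc.comp (by fun_prop))
  have hle : ENNReal.ofReal p • (volume.restrict (Icc (0 : ℝ) 1)) ≤ μ.conv μ := by
    rw [Measure.le_iff]
    intro s hs
    rw [Measure.smul_apply, Measure.restrict_apply hs, smul_eq_mul]
    exact (h _ (hs.inter measurableSet_Icc) inter_subset_right).trans
      (measure_mono inter_subset_left)
  have e3 := integral_mono_measure hle (Filter.Eventually.of_forall hG0) hint
  rw [integral_smul_measure, ENNReal.toReal_ofReal hp, smul_eq_mul] at e3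
  have e4 : ∫ u in (0 : ℝ)..1, g u = ∫ u in Icc (0 : ℝ) 1, G u := by
    rw [intervalIntegral.integral_of_le zero_le_one, ← integral_Icc_eq_integral_Ioc]
    apply setIntegral_congr_fun measurableSet_Icc
    intro u hu
    exact (hGe u hu.1 (by linarith [hu.2])).symm
  rw [e4, e1, e2]
  exact e3

include hμ in
/-- the limit object of a measure -/
theorem obj_of_measure {p : ℝ} (hp : 0 ≤ p)
    (h : ∀ B : Set ℝ, MeasurableSet B → B ⊆ Icc 0 1 →
      ENNReal.ofReal p * volume B ≤ (μ.conv μ) B) : Nonempty (Obj p) := by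
  have hc1 : ∀ f : C(ℝ, ℝ), Integrable (fun x => f (x - 1 / 4)) μ :=
    fun f => int1 μ hμ (by fun_prop)
  have hc2 : ∀ f : C(ℝ, ℝ), Integrable (fun z : ℝ × ℝ => f (z.1 + z.2 - 1 / 2)) (μ.prod μ) :=
    fun f => int2 μ hμ (by fun_prop)
  have hii : ∀ f : C(ℝ, ℝ), IntervalIntegrable (fun t => f t) volume (-(1 / 2) : ℝ) (1 / 2) :=
    fun f => f.continuous.intervalIntegrable _ _
  let E : C(ℝ, ℝ) →ₗ[ℝ] ℝ :=
    { toFun := fun f => ∫ x, f (x - 1 / 4) ∂μ
      map_add' := by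
        intro f g
        exact integral_add (hc1 f) (hc1 g)
      map_smul' := by
        intro c f
        exact integral_const_mul c _ }
  let D : C(ℝ, ℝ) →ₗ[ℝ] ℝ :=
    { toFun := fun f => (∫ z, f (z.1 + z.2 - 1 / 2) ∂(μ.prod μ)) -
        p * ∫ t in (-(1 / 2) : ℝ)..(1 / 2), f t
      map_add' := by
        intro f g
        have h1 : ∫ z, (f + g) (z.1 + z.2 - 1 / 2) ∂(μ.prod μ) =
            (∫ z, f (z.1 + z.2 - 1 / 2) ∂(μ.prod μ)) +
              ∫ z, g (z.1 + z.2 - 1 / 2) ∂(μ.prod μ) := integral_add (hc2 f) (hc2 g)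
        have h2 : ∫ t in (-(1 / 2) : ℝ)..(1 / 2), (f + g) t =
            (∫ t in (-(1 / 2) : ℝ)..(1 / 2), f t) + ∫ t in (-(1 / 2) : ℝ)..(1 / 2), g t :=
          intervalIntegral.integral_add (hii f) (hii g)
        rw [h1, h2]
        ring
      map_smul' := by
        intro c f
        have h1 : ∫ z, (c • f) (z.1 + z.2 - 1 / 2) ∂(μ.prod μ) =
            c * ∫ z, f (z.1 + z.2 - 1 / 2) ∂(μ.prod μ) := integral_const_mul c _
        have h2 : ∫ t in (-(1 / 2) : ℝ)..(1 / 2), (c • f) t =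
            c * ∫ t in (-(1 / 2) : ℝ)..(1 / 2), f t := intervalIntegral.integral_const_mul c _
        rw [h1, h2]
        simp only [RingHom.id_apply, smul_eq_mul]
        ring }
  have hw : ∀ w : ℝ, w ≠ 0 → (∫ t in (-(1 / 2) : ℝ)..(1 / 2), Real.cos (w * t)) =
      2 * Real.sin (w / 2) / w := by
    intro w hw
    rw [intervalIntegral.integral_comp_mul_left (fun t => Real.cos t) hw, integral_cos,
      smul_eq_mul]
    have e1 : w * (1 / 2) = w / 2 := by ring
    have e2 : w * -(1 / 2) = -(w / 2) := by ring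
    rw [e1, e2, Real.sin_neg]
    field_simp
    ring
  have hw2 : ∀ w : ℝ, w ≠ 0 → (∫ t in (-(1 / 2) : ℝ)..(1 / 2), Real.sin (w * t)) = 0 := by
    intro w hw
    rw [intervalIntegral.integral_comp_mul_left (fun t => Real.sin t) hw, integral_sin,
      smul_eq_mul]
    have e1 : w * (1 / 2) = w / 2 := by ring
    have e2 : w * -(1 / 2) = -(w / 2) := by ring
    rw [e1, e2, Real.cos_neg]
    simp
  refine ⟨⟨E, D, ?_, ?_, ?_, ?_, ?_, ?_⟩⟩
  · intro f hf
    change 0 ≤ ∫ x, f (x - 1 / 4) ∂μ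
    apply integral_nonneg_of_ae
    filter_upwards [ae_mem μ hμ] with x hx
    exact hf _ (by linarith [hx.1]) (by linarith [hx.2])
  · change ∫ x, (1 : C(ℝ, ℝ)) (x - 1 / 4) ∂μ = 1
    simp
  · intro f hf
    have h1 := conv_pos μ hμ hp h (g := fun u => f (u - 1 / 2)) (by fun_prop)
      (fun u h1 h2 => hf _ (by linarith) (by linarith))
    have h2 : ∫ u in (0 : ℝ)..1, f (u - 1 / 2) = ∫ t in (-(1 / 2) : ℝ)..(1 / 2), f t := by
      rw [intervalIntegral.integral_comp_sub_right (fun t => f t)]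
      norm_num
    rw [h2] at h1
    exact sub_nonneg.mpr h1
  · change (∫ z, (1 : C(ℝ, ℝ)) (z.1 + z.2 - 1 / 2) ∂(μ.prod μ)) -
        p * (∫ t in (-(1 / 2) : ℝ)..(1 / 2), (1 : C(ℝ, ℝ)) t) = 1 - p
    simp only [ContinuousMap.one_apply, integral_const, intervalIntegral.integral_const,
      smul_eq_mul]
    rw [probReal_univ]
    ring
  · intro w hw0
    change (∫ z, Real.cos (w * (z.1 + z.2 - 1 / 2)) ∂(μ.prod μ)) -
        p * (∫ t in (-(1 / 2) : ℝ)..(1 / 2), Real.cos (w * t)) =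
        (∫ x, Real.cos (w * (x - 1 / 4)) ∂μ) ^ 2 - (∫ x, Real.sin (w * (x - 1 / 4)) ∂μ) ^ 2 -
          p * (2 * Real.sin (w / 2) / w)
    rw [hw w hw0]
    congr 1
    have e1 : ∀ z : ℝ × ℝ, Real.cos (w * (z.1 + z.2 - 1 / 2)) =
        Real.cos (w * (z.1 - 1 / 4)) * Real.cos (w * (z.2 - 1 / 4)) -
        Real.sin (w * (z.1 - 1 / 4)) * Real.sin (w * (z.2 - 1 / 4)) := by
      intro z
      rw [← Real.cos_add]
      congr 1
      ring
    simp only [e1]
    rw [integral_sub (int2 μ hμ (by fun_prop)) (int2 μ hμ (by fun_prop)),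
      integral_prod_mul (fun x => Real.cos (w * (x - 1 / 4)))
        (fun x => Real.cos (w * (x - 1 / 4))),
      integral_prod_mul (fun x => Real.sin (w * (x - 1 / 4)))
        (fun x => Real.sin (w * (x - 1 / 4)))]
    ring
  · intro w hw0
    change (∫ z, Real.sin (w * (z.1 + z.2 - 1 / 2)) ∂(μ.prod μ)) -
        p * (∫ t in (-(1 / 2) : ℝ)..(1 / 2), Real.sin (w * t)) =
        2 * (∫ x, Real.cos (w * (x - 1 / 4)) ∂μ) * (∫ x, Real.sin (w * (x - 1 / 4)) ∂μ)
    rw [hw2 w hw0, mul_zero, sub_zero]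
    have e1 : ∀ z : ℝ × ℝ, Real.sin (w * (z.1 + z.2 - 1 / 2)) =
        Real.sin (w * (z.1 - 1 / 4)) * Real.cos (w * (z.2 - 1 / 4)) +
        Real.cos (w * (z.1 - 1 / 4)) * Real.sin (w * (z.2 - 1 / 4)) := by
      intro z
      rw [← Real.sin_add]
      congr 1
      ring
    simp only [e1]
    rw [integral_add (int2 μ hμ (by fun_prop)) (int2 μ hμ (by fun_prop)),
      integral_prod_mul (fun x => Real.sin (w * (x - 1 / 4)))
        (fun x => Real.cos (w * (x - 1 / 4))),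
      integral_prod_mul (fun x => Real.cos (w * (x - 1 / 4)))
        (fun x => Real.sin (w * (x - 1 / 4)))]
    ring

/-- **The self convolution of a probability measure on `[0, 1]`.** -/
theorem measure_bound (μ : Measure ℝ) [IsProbabilityMeasure μ] (hμ : μ (Icc (0 : ℝ) 1)ᶜ = 0)
    (t : ℝ) (h : ∀ B : Set ℝ, MeasurableSet B → B ⊆ Icc 0 1 →
      ENNReal.ofReal t * volume B ≤ (μ.conv μ) B) : t < 625 / 722 := by
  by_contra hcon
  push Not at hcon
  obtain ⟨O⟩ := obj_of_measure μ hμ (p := 625 / 722) (by norm_num) (fun B h1 h2 =>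
    le_trans (by gcongr) (h B h1 h2))
  exact noObj152 O

end Pool.Agent.Run7.H247.Dig
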