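import Pool.Agent.Run7.h247.Dig.Vals

/-!
# Certificate, case P
-/

set_option autoImplicit false
set_option maxRecDepth 100000

open Set

namespace Pool.Agent.Run7.H247.Dig

namespace CaseP

/-- trigonometric polynomial on `[-1/4, 3/4]` -/
def LH : List (ℕ × ℤ × ℤ) := [(7, -269789480000, -189262860000), (13, 23745160000, 230878820000), (17, 126173680000, -68076660000), (24, -119762320000, -130804560000), (26, 57433940000, 102571140000)]

/-- trigonometric polynomial on `[-1/2, 3/2]` -/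
def LF : List (ℕ × ℤ × ℤ) := [(7, 220416687662, 153092617094), (13, -180132342864, 42430516864), (14, -12408740400, -10838050300), (17, 79502493312, 189051799936), (24, 214784075404, 135845435540), (26, -93970087522, -139638233958), (34, 13398579600, 12062315300), (48, -24905367200, -13742956500), (52, 7591374000, 18350847900)]

lemma testH : test 100 400 182749000000 LH = true := by decide +kernel

lemma testF : test 100 400 372537689473 (dbl LF) = true := by decide +kernel

/-- the weights -/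
noncomputable def H : C(ℝ, ℝ) :=
  (((-6744737 / 25000000) : ℝ) • cosm (Real.pi * (7 : ℕ) / 5) +
    ((-9463143 / 50000000) : ℝ) • sinm (Real.pi * (7 : ℕ) / 5)) +
  (((593629 / 25000000) : ℝ) • cosm (Real.pi * (13 : ℕ) / 5) +
    ((11543941 / 50000000) : ℝ) • sinm (Real.pi * (13 : ℕ) / 5)) +
  (((1577171 / 12500000) : ℝ) • cosm (Real.pi * (17 : ℕ) / 5) +
    ((-3403833 / 50000000) : ℝ) • sinm (Real.pi * (17 : ℕ) / 5)) +
  (((-1497029 / 12500000) : ℝ) • cosm (Real.pi * (24 : ℕ) / 5) +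
    ((-1635057 / 12500000) : ℝ) • sinm (Real.pi * (24 : ℕ) / 5)) +
  (((2871697 / 50000000) : ℝ) • cosm (Real.pi * (26 : ℕ) / 5) +
    ((5128557 / 50000000) : ℝ) • sinm (Real.pi * (26 : ℕ) / 5))

/-- the test function -/
noncomputable def G : C(ℝ, ℝ) :=
  Ff (9069 / 10000) (Real.pi * (7 : ℕ) / 5) (-703 / 2500) (-1759 / 10000) (557 / 1000) (209 / 1000) (-58607 / 100000) +
  Ff (9069 / 10000) (Real.pi * (13 : ℕ) / 5) (3891 / 10000) (-11 / 200) (133 / 125) (-8 / 125) (105477 / 100000) +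
  Ff (9069 / 10000) (Real.pi * (17 : ℕ) / 5) (-263 / 2500) (-1221 / 10000) (223 / 1000) (-581 / 1000) (-1934 / 3125) +
  Ff (9069 / 10000) (Real.pi * (24 : ℕ) / 5) (-811 / 5000) (-1223 / 10000) (757 / 1000) (39 / 200) (18653 / 50000) +
  Ff (9069 / 10000) (Real.pi * (26 : ℕ) / 5) (607 / 10000) (293 / 2500) (363 / 1000) (-543 / 1000) (28463 / 100000)

lemma H_ge (y : ℝ) (h0 : -(1 / 4) ≤ y) (h1 : y ≤ 3 / 4) : -(182749 / 1000000) ≤ H y := by
  have h := test_spec testH y (by norm_num; linarith) (by norm_num; linarith)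
  simp only [LH, P] at h
  simp only [H, ContinuousMap.coe_add, ContinuousMap.coe_smul, Pi.add_apply, Pi.smul_apply,
    smul_eq_mul, cosm_apply, sinm_apply]
  push_cast at h ⊢
  linarith

lemma G_le (t : ℝ) (h0 : -(1 / 2) ≤ t) (h1 : t ≤ 3 / 2) : G t ≤ (699949 / 1000000) := by
  have h := test_dbl testF t (by norm_num; linarith) (by norm_num; linarith)
  simp only [LF, P] at h
  simp only [G, ContinuousMap.coe_add, Pi.add_apply, Ff_apply]
  push_cast at h ⊢
  have e7 := Ff_val (9069 / 10000) (Real.pi * 7 / 5) t (-703 / 2500) (-1759 / 10000) (557 / 1000) (209 / 1000) (-58607 / 100000)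
  rw [show 2 * (Real.pi * 7 / 5) = Real.pi * 14 / 5 by ring] at e7
  have e13 := Ff_val (9069 / 10000) (Real.pi * 13 / 5) t (3891 / 10000) (-11 / 200) (133 / 125) (-8 / 125) (105477 / 100000)
  rw [show 2 * (Real.pi * 13 / 5) = Real.pi * 26 / 5 by ring] at e13
  have e17 := Ff_val (9069 / 10000) (Real.pi * 17 / 5) t (-263 / 2500) (-1221 / 10000) (223 / 1000) (-581 / 1000) (-1934 / 3125)
  rw [show 2 * (Real.pi * 17 / 5) = Real.pi * 34 / 5 by ring] at e17
  have e24 := Ff_val (9069 / 10000) (Real.pi * 24 / 5) t (-811 / 5000) (-1223 / 10000) (757 / 1000) (39 / 200) (18653 / 50000)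
  rw [show 2 * (Real.pi * 24 / 5) = Real.pi * 48 / 5 by ring] at e24
  have e26 := Ff_val (9069 / 10000) (Real.pi * 26 / 5) t (607 / 10000) (293 / 2500) (363 / 1000) (-543 / 1000) (28463 / 100000)
  rw [show 2 * (Real.pi * 26 / 5) = Real.pi * 52 / 5 by ring] at e26
  rw [e7, e13, e17, e24, e26]
  norm_num at h ⊢
  linarith

theorem contra (O : Obj (9069 / 10000))
    (h7 : 0 < O.X (Real.pi * (7 : ℕ) / 5)) (h13 : O.Y (Real.pi * (13 : ℕ) / 5) < 0)
    (h17 : O.Y (Real.pi * (17 : ℕ) / 5) < 0) (h24 : 0 < O.X (Real.pi * (24 : ℕ) / 5))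
    (h26 : 0 < O.X (Real.pi * (26 : ℕ) / 5)) : False := by
  have hpi := Real.pi_pos
  have w7 : Real.pi * (7 : ℕ) / 5 ≠ 0 := by positivity
  obtain ⟨σ7, hσ7⟩ : ∃ σ, σ = sg (9069 / 10000) (Real.pi * (7 : ℕ) / 5) := ⟨_, rfl⟩
  have b7 := sg7
  rw [← hσ7] at b7
  have k7 := step O (by norm_num) w7 (σ := σ7) (A := (-703 / 2500)) (B := (-1759 / 10000)) (x0 := (4961 / 10000))
    (y0 := (-131 / 5000)) (α := (557 / 1000)) (β := (209 / 1000)) (r := (-58607 / 100000))
    (N := (117393 / 1000000)) (l := (2731 / 100000)) (e := 1 / 1000000) hσ7 (by norm_num) (by norm_num)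
    (brP O (by norm_num) (lo := (3336331017 / 10000000000)) w7 h7 (by rw [← hσ7]; exact b7.1) (by norm_num)
      (abs_lt.mpr ⟨by norm_num, by norm_num⟩) (by norm_num))
    (by linarith [b7.1, b7.2]) (abs_le.mpr ⟨by linarith [b7.1, b7.2], by linarith [b7.1, b7.2]⟩)
    (by norm_num) (by norm_num)
  have w13 : Real.pi * (13 : ℕ) / 5 ≠ 0 := by positivity
  obtain ⟨σ13, hσ13⟩ : ∃ σ, σ = sg (9069 / 10000) (Real.pi * (13 : ℕ) / 5) := ⟨_, rfl⟩
  have b13 := sg13
  rw [← hσ13] at b13
  have k13 := step O (by norm_num) w13 (σ := σ13) (A := (3891 / 10000)) (B := (-11 / 200)) (x0 := (-7 / 625))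
    (y0 := (-2951 / 10000)) (α := (133 / 125)) (β := (-8 / 125)) (r := (105477 / 100000))
    (N := (55811 / 125000)) (l := (19329 / 500000)) (e := 1 / 1000000) hσ13 (by norm_num) (by norm_num)
    (brm O (by norm_num) (hi := (-179648593 / 1000000000)) w13 h13 (by rw [← hσ13]; exact b13.2) (by norm_num)
      (abs_lt.mpr ⟨by norm_num, by norm_num⟩) (by norm_num))
    (by linarith [b13.1, b13.2]) (abs_le.mpr ⟨by linarith [b13.1, b13.2], by linarith [b13.1, b13.2]⟩)
    (by norm_num) (by norm_num)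
  have w17 : Real.pi * (17 : ℕ) / 5 ≠ 0 := by positivity
  obtain ⟨σ17, hσ17⟩ : ∃ σ, σ = sg (9069 / 10000) (Real.pi * (17 : ℕ) / 5) := ⟨_, rfl⟩
  have b17 := sg17
  rw [← hσ17] at b17
  have k17 := step O (by norm_num) w17 (σ := σ17) (A := (-263 / 2500)) (B := (-1221 / 10000)) (x0 := (-191 / 2000))
    (y0 := (-543 / 1250)) (α := (223 / 1000)) (β := (-581 / 1000)) (r := (-1934 / 3125))
    (N := (3121 / 50000)) (l := (2897 / 500000)) (e := 1 / 1000000) hσ17 (by norm_num) (by norm_num)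
    (brm O (by norm_num) (hi := (-1373783357 / 10000000000)) w17 h17 (by rw [← hσ17]; exact b17.2) (by norm_num)
      (abs_lt.mpr ⟨by norm_num, by norm_num⟩) (by norm_num))
    (by linarith [b17.1, b17.2]) (abs_le.mpr ⟨by linarith [b17.1, b17.2], by linarith [b17.1, b17.2]⟩)
    (by norm_num) (by norm_num)
  have w24 : Real.pi * (24 : ℕ) / 5 ≠ 0 := by positivity
  obtain ⟨σ24, hσ24⟩ : ∃ σ, σ = sg (9069 / 10000) (Real.pi * (24 : ℕ) / 5) := ⟨_, rfl⟩
  have b24 := sg24
  rw [← hσ24] at b24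
  have k24 := step O (by norm_num) w24 (σ := σ24) (A := (-811 / 5000)) (B := (-1223 / 10000)) (x0 := (1073 / 2500))
    (y0 := (-199 / 2500)) (α := (757 / 1000)) (β := (39 / 200)) (r := (18653 / 50000))
    (N := (62067 / 500000)) (l := (7893 / 1000000)) (e := 1 / 1000000) hσ24 (by norm_num) (by norm_num)
    (brP O (by norm_num) (lo := (228788719 / 2000000000)) w24 h24 (by rw [← hσ24]; exact b24.1) (by norm_num)
      (abs_lt.mpr ⟨by norm_num, by norm_num⟩) (by norm_num))
    (by linarith [b24.1, b24.2]) (abs_le.mpr ⟨by linarith [b24.1, b24.2], by linarith [b24.1, b24.2]⟩)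
    (by norm_num) (by norm_num)
  have w26 : Real.pi * (26 : ℕ) / 5 ≠ 0 := by positivity
  obtain ⟨σ26, hσ26⟩ : ∃ σ, σ = sg (9069 / 10000) (Real.pi * (26 : ℕ) / 5) := ⟨_, rfl⟩
  have b26 := sg26
  rw [← hσ26] at b26
  have k26 := step O (by norm_num) w26 (σ := σ26) (A := (607 / 10000)) (B := (293 / 2500)) (x0 := (4451 / 10000))
    (y0 := (29 / 2000)) (α := (363 / 1000)) (β := (-543 / 1000)) (r := (28463 / 100000))
    (N := (14077 / 250000)) (l := (559 / 200000)) (e := 1 / 1000000) hσ26 (by norm_num) (by norm_num)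
    (brP O (by norm_num) (lo := (1055947933 / 10000000000)) w26 h26 (by rw [← hσ26]; exact b26.1) (by norm_num)
      (abs_lt.mpr ⟨by norm_num, by norm_num⟩) (by norm_num))
    (by linarith [b26.1, b26.2]) (abs_le.mpr ⟨by linarith [b26.1, b26.2], by linarith [b26.1, b26.2]⟩)
    (by norm_num) (by norm_num)
  have hE : -(182749 / 1000000) ≤ O.E H := by
    have := E_mono O (f := (-(182749 / 1000000) : ℝ) • (1 : C(ℝ, ℝ))) (g := H) (fun y h0 h1 => by
      simpa using H_ge y h0 h1)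
    rw [map_smul, O.E_one, smul_eq_mul, mul_one] at this
    exact this
  have hD : O.D G ≤ (699949 / 1000000) * (1 - 9069 / 10000) := by
    have := D_mono O (f := G) (g := ((699949 / 1000000) : ℝ) • (1 : C(ℝ, ℝ))) (fun t h0 h1 => by
      simpa using G_le t h0 h1)
    rw [map_smul, O.D_one, smul_eq_mul] at this
    exact this
  unfold H at hE
  unfold G at hD
  simp only [map_add, map_smul, smul_eq_mul] at hE hD
  unfold Obj.X Obj.Y at *
  linarith [b7.1, b7.2, b13.1, b13.2, b17.1, b17.2, b24.1, b24.2, b26.1, b26.2]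

end CaseP

end Pool.Agent.Run7.H247.Dig
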