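import Pool.Agent.Run7.h247.Dig.Vals

/-!
# Certificate, case Q
-/

set_option autoImplicit false
set_option maxRecDepth 100000

open Set

namespace Pool.Agent.Run7.H247.Dig

namespace CaseQ

/-- trigonometric polynomial on `[-1/4, 3/4]` -/
def LH : List (ℕ × ℤ × ℤ) := [(5, -296063780000, 216233060000), (8, 71356820000, -266290760000), (12, 96583720000, 96855820000), (17, -76011420000, 15828600000), (24, 64713000000, -58146660000), (26, -39432160000, 40220800000)]

/-- trigonometric polynomial on `[-1/2, 3/2]` -/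
def LF : List (ℕ × ℤ × ℤ) := [(5, 194773604334, -133739535468), (8, -121715803890, 279038157860), (10, -5193723150, 3036735800), (12, -34698138000, 128264288460), (16, -11950548750, -29122983400), (17, -38726652364, -81414866488), (24, 49206283944, -124715898942), (26, -38360782178, 58452843148), (34, -7842185400, -6748632800), (48, -2865990400, 15984059700), (52, 6617315250, -6590921400)]

lemma testH : test 100 400 179769000000 LH = true := by decide +kernel

lemma testF : test 100 400 420929491735 (dbl LF) = true := by decide +kernel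

/-- the weights -/
noncomputable def H : C(ℝ, ℝ) :=
  (((-14803189 / 50000000) : ℝ) • cosm (Real.pi * (5 : ℕ) / 5) +
    ((10811653 / 50000000) : ℝ) • sinm (Real.pi * (5 : ℕ) / 5)) +
  (((3567841 / 50000000) : ℝ) • cosm (Real.pi * (8 : ℕ) / 5) +
    ((-6657269 / 25000000) : ℝ) • sinm (Real.pi * (8 : ℕ) / 5)) +
  (((2414593 / 25000000) : ℝ) • cosm (Real.pi * (12 : ℕ) / 5) +
    ((4842791 / 50000000) : ℝ) • sinm (Real.pi * (12 : ℕ) / 5)) +
  (((-3800571 / 50000000) : ℝ) • cosm (Real.pi * (17 : ℕ) / 5) +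
    ((79143 / 5000000) : ℝ) • sinm (Real.pi * (17 : ℕ) / 5)) +
  (((64713 / 1000000) : ℝ) • cosm (Real.pi * (24 : ℕ) / 5) +
    ((-2907333 / 50000000) : ℝ) • sinm (Real.pi * (24 : ℕ) / 5)) +
  (((-246451 / 6250000) : ℝ) • cosm (Real.pi * (26 : ℕ) / 5) +
    ((12569 / 312500) : ℝ) • sinm (Real.pi * (26 : ℕ) / 5))

/-- the test function -/
noncomputable def G : C(ℝ, ℝ) :=
  Ff (9069 / 10000) (Real.pi * (5 : ℕ) / 5) (-2153 / 10000) (1393 / 10000) (347 / 1000) (-47 / 500) (-31769 / 100000) +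
  Ff (9069 / 10000) (Real.pi * (8 : ℕ) / 5) (29 / 1250) (-3451 / 10000) (683 / 1000) (229 / 500) (-15493 / 20000) +
  Ff (9069 / 10000) (Real.pi * (12 : ℕ) / 5) (2209 / 10000) (-147 / 1250) (11 / 10) (63 / 1000) (9091 / 10000) +
  Ff (9069 / 10000) (Real.pi * (17 : ℕ) / 5) (23 / 625) (807 / 10000) (221 / 500) (41 / 250) (-2341 / 100000) +
  Ff (9069 / 10000) (Real.pi * (24 : ℕ) / 5) (-313 / 5000) (33 / 400) (453 / 1000) (-379 / 1000) (50679 / 100000) +
  Ff (9069 / 10000) (Real.pi * (26 : ℕ) / 5) (11 / 250) (-28 / 625) (171 / 1000) (207 / 500) (17711 / 100000)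

lemma H_ge (y : ℝ) (h0 : -(1 / 4) ≤ y) (h1 : y ≤ 3 / 4) : -(179769 / 1000000) ≤ H y := by
  have h := test_spec testH y (by norm_num; linarith) (by norm_num; linarith)
  simp only [LH, P] at h
  simp only [H, ContinuousMap.coe_add, ContinuousMap.coe_smul, Pi.add_apply, Pi.smul_apply,
    smul_eq_mul, cosm_apply, sinm_apply]
  push_cast at h ⊢
  linarith

lemma G_le (t : ℝ) (h0 : -(1 / 2) ≤ t) (h1 : t ≤ 3 / 2) : G t ≤ (719951 / 1000000) := by
  have h := test_dbl testF t (by norm_num; linarith) (by norm_num; linarith)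
  simp only [LF, P] at h
  simp only [G, ContinuousMap.coe_add, Pi.add_apply, Ff_apply]
  push_cast at h ⊢
  have e5 := Ff_val (9069 / 10000) (Real.pi * 5 / 5) t (-2153 / 10000) (1393 / 10000) (347 / 1000) (-47 / 500) (-31769 / 100000)
  rw [show 2 * (Real.pi * 5 / 5) = Real.pi * 10 / 5 by ring] at e5
  have e8 := Ff_val (9069 / 10000) (Real.pi * 8 / 5) t (29 / 1250) (-3451 / 10000) (683 / 1000) (229 / 500) (-15493 / 20000)
  rw [show 2 * (Real.pi * 8 / 5) = Real.pi * 16 / 5 by ring] at e8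
  have e12 := Ff_val (9069 / 10000) (Real.pi * 12 / 5) t (2209 / 10000) (-147 / 1250) (11 / 10) (63 / 1000) (9091 / 10000)
  rw [show 2 * (Real.pi * 12 / 5) = Real.pi * 24 / 5 by ring] at e12
  have e17 := Ff_val (9069 / 10000) (Real.pi * 17 / 5) t (23 / 625) (807 / 10000) (221 / 500) (41 / 250) (-2341 / 100000)
  rw [show 2 * (Real.pi * 17 / 5) = Real.pi * 34 / 5 by ring] at e17
  have e24 := Ff_val (9069 / 10000) (Real.pi * 24 / 5) t (-313 / 5000) (33 / 400) (453 / 1000) (-379 / 1000) (50679 / 100000)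
  rw [show 2 * (Real.pi * 24 / 5) = Real.pi * 48 / 5 by ring] at e24
  have e26 := Ff_val (9069 / 10000) (Real.pi * 26 / 5) t (11 / 250) (-28 / 625) (171 / 1000) (207 / 500) (17711 / 100000)
  rw [show 2 * (Real.pi * 26 / 5) = Real.pi * 52 / 5 by ring] at e26
  rw [e5, e8, e12, e17, e24, e26]
  norm_num at h ⊢
  linarith

theorem contra (O : Obj (9069 / 10000))
    (h5 : 0 < O.X (Real.pi * (5 : ℕ) / 5)) (h8 : 0 < O.X (Real.pi * (8 : ℕ) / 5))
    (h12 : O.Y (Real.pi * (12 : ℕ) / 5) < 0)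
    (h17 : O.Y (Real.pi * (17 : ℕ) / 5) < 0) (h24 : O.X (Real.pi * (24 : ℕ) / 5) < 0)
    (h26 : O.X (Real.pi * (26 : ℕ) / 5) < 0) : False := by
  have hpi := Real.pi_pos
  have w5 : Real.pi * (5 : ℕ) / 5 ≠ 0 := by positivity
  obtain ⟨σ5, hσ5⟩ : ∃ σ, σ = sg (9069 / 10000) (Real.pi * (5 : ℕ) / 5) := ⟨_, rfl⟩
  have b5 := sg5
  rw [← hσ5] at b5
  have k5 := step O (by norm_num) w5 (σ := σ5) (A := (-2153 / 10000)) (B := (1393 / 10000)) (x0 := (7137 / 10000))
    (y0 := (101 / 2500)) (α := (347 / 1000)) (β := (-47 / 500)) (r := (-31769 / 100000))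
    (N := (33143 / 1000000)) (l := (4121 / 250000)) (e := 1 / 1000000) hσ5 (by norm_num) (by norm_num)
    (brP O (by norm_num) (lo := (577350471 / 1000000000)) w5 h5 (by rw [← hσ5]; exact b5.1) (by norm_num)
      (abs_lt.mpr ⟨by norm_num, by norm_num⟩) (by norm_num))
    (by linarith [b5.1, b5.2]) (abs_le.mpr ⟨by linarith [b5.1, b5.2], by linarith [b5.1, b5.2]⟩)
    (by norm_num) (by norm_num)
  have w8 : Real.pi * (8 : ℕ) / 5 ≠ 0 := by positivity
  obtain ⟨σ8, hσ8⟩ : ∃ σ, σ = sg (9069 / 10000) (Real.pi * (8 : ℕ) / 5) := ⟨_, rfl⟩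
  have b8 := sg8
  rw [← hσ8] at b8
  have k8 := step O (by norm_num) w8 (σ := σ8) (A := (29 / 1250)) (B := (-3451 / 10000)) (x0 := (391 / 1000))
    (y0 := (-771 / 10000)) (α := (683 / 1000)) (β := (229 / 500)) (r := (-15493 / 20000))
    (N := (116951 / 500000)) (l := (7481 / 250000)) (e := 1 / 1000000) hσ8 (by norm_num) (by norm_num)
    (brP O (by norm_num) (lo := (2120988073 / 10000000000)) w8 h8 (by rw [← hσ8]; exact b8.1) (by norm_num)
      (abs_lt.mpr ⟨by norm_num, by norm_num⟩) (by norm_num))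
    (by linarith [b8.1, b8.2]) (abs_le.mpr ⟨by linarith [b8.1, b8.2], by linarith [b8.1, b8.2]⟩)
    (by norm_num) (by norm_num)
  have w12 : Real.pi * (12 : ℕ) / 5 ≠ 0 := by positivity
  obtain ⟨σ12, hσ12⟩ : ∃ σ, σ = sg (9069 / 10000) (Real.pi * (12 : ℕ) / 5) := ⟨_, rfl⟩
  have b12 := sg12
  rw [← hσ12] at b12
  have k12 := step O (by norm_num) w12 (σ := σ12) (A := (2209 / 10000)) (B := (-147 / 1250)) (x0 := (397 / 5000))
    (y0 := (-523 / 2000)) (α := (11 / 10)) (β := (63 / 1000)) (r := (9091 / 10000))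
    (N := (1519 / 5000)) (l := (8237 / 500000)) (e := 1 / 1000000) hσ12 (by norm_num) (by norm_num)
    (brm O (by norm_num) (hi := (-1413992047 / 10000000000)) w12 h12 (by rw [← hσ12]; exact b12.2) (by norm_num)
      (abs_lt.mpr ⟨by norm_num, by norm_num⟩) (by norm_num))
    (by linarith [b12.1, b12.2]) (abs_le.mpr ⟨by linarith [b12.1, b12.2], by linarith [b12.1, b12.2]⟩)
    (by norm_num) (by norm_num)
  have w17 : Real.pi * (17 : ℕ) / 5 ≠ 0 := by positivity
  obtain ⟨σ17, hσ17⟩ : ∃ σ, σ = sg (9069 / 10000) (Real.pi * (17 : ℕ) / 5) := ⟨_, rfl⟩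
  have b17 := sg17
  rw [← hσ17] at b17
  have k17 := step O (by norm_num) w17 (σ := σ17) (A := (23 / 625)) (B := (807 / 10000)) (x0 := (-483 / 5000))
    (y0 := (-4269 / 10000)) (α := (221 / 500)) (β := (41 / 250)) (r := (-2341 / 100000))
    (N := (9857 / 500000)) (l := (347 / 200000)) (e := 1 / 1000000) hσ17 (by norm_num) (by norm_num)
    (brm O (by norm_num) (hi := (-1373783357 / 10000000000)) w17 h17 (by rw [← hσ17]; exact b17.2) (by norm_num)
      (abs_lt.mpr ⟨by norm_num, by norm_num⟩) (by norm_num))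
    (by linarith [b17.1, b17.2]) (abs_le.mpr ⟨by linarith [b17.1, b17.2], by linarith [b17.1, b17.2]⟩)
    (by norm_num) (by norm_num)
  have w24 : Real.pi * (24 : ℕ) / 5 ≠ 0 := by positivity
  obtain ⟨σ24, hσ24⟩ : ∃ σ, σ = sg (9069 / 10000) (Real.pi * (24 : ℕ) / 5) := ⟨_, rfl⟩
  have b24 := sg24
  rw [← hσ24] at b24
  have k24 := step O (by norm_num) w24 (σ := σ24) (A := (-313 / 5000)) (B := (33 / 400)) (x0 := (-33 / 80))
    (y0 := (99 / 1250)) (α := (453 / 1000)) (β := (-379 / 1000)) (r := (50679 / 100000))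
    (N := (1129 / 31250)) (l := (407 / 200000)) (e := 1 / 1000000) hσ24 (by norm_num) (by norm_num)
    (brQ O (by norm_num) (lo := (228788719 / 2000000000)) w24 h24 (by rw [← hσ24]; exact b24.1) (by norm_num)
      (abs_lt.mpr ⟨by norm_num, by norm_num⟩) (by norm_num))
    (by linarith [b24.1, b24.2]) (abs_le.mpr ⟨by linarith [b24.1, b24.2], by linarith [b24.1, b24.2]⟩)
    (by norm_num) (by norm_num)
  have w26 : Real.pi * (26 : ℕ) / 5 ≠ 0 := by positivity
  obtain ⟨σ26, hσ26⟩ : ∃ σ, σ = sg (9069 / 10000) (Real.pi * (26 : ℕ) / 5) := ⟨_, rfl⟩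
  have b26 := sg26
  rw [← hσ26] at b26
  have k26 := step O (by norm_num) w26 (σ := σ26) (A := (11 / 250)) (B := (-28 / 625)) (x0 := (-897 / 2000))
    (y0 := (-1 / 2500)) (α := (171 / 1000)) (β := (207 / 500)) (r := (17711 / 100000))
    (N := (12599 / 1000000)) (l := (631 / 1000000)) (e := 1 / 1000000) hσ26 (by norm_num) (by norm_num)
    (brQ O (by norm_num) (lo := (1055947933 / 10000000000)) w26 h26 (by rw [← hσ26]; exact b26.1) (by norm_num)
      (abs_lt.mpr ⟨by norm_num, by norm_num⟩) (by norm_num))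
    (by linarith [b26.1, b26.2]) (abs_le.mpr ⟨by linarith [b26.1, b26.2], by linarith [b26.1, b26.2]⟩)
    (by norm_num) (by norm_num)
  have hE : -(179769 / 1000000) ≤ O.E H := by
    have := E_mono O (f := (-(179769 / 1000000) : ℝ) • (1 : C(ℝ, ℝ))) (g := H) (fun y h0 h1 => by
      simpa using H_ge y h0 h1)
    rw [map_smul, O.E_one, smul_eq_mul, mul_one] at this
    exact this
  have hD : O.D G ≤ (719951 / 1000000) * (1 - 9069 / 10000) := by
    have := D_mono O (f := G) (g := ((719951 / 1000000) : ℝ) • (1 : C(ℝ, ℝ))) (fun t h0 h1 => by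
      simpa using G_le t h0 h1)
    rw [map_smul, O.D_one, smul_eq_mul] at this
    exact this
  unfold H at hE
  unfold G at hD
  simp only [map_add, map_smul, smul_eq_mul] at hE hD
  unfold Obj.X Obj.Y at *
  linarith [b5.1, b5.2, b8.1, b8.2, b12.1, b12.2, b17.1, b17.2, b24.1, b24.2, b26.1, b26.2]

end CaseQ

end Pool.Agent.Run7.H247.Dig
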