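import Pool.Agent.Run7.h247.Dig.CaseM
import Pool.Agent.Run7.h247.Dig.CaseP
import Pool.Agent.Run7.h247.Dig.CaseQ

/-!
# There is no limit object for `p = 0.9069`
-/

set_option autoImplicit false

namespace Pool.Agent.Run7.H247.Dig

theorem noObj (O : Obj (9069 / 10000)) : False := by
  have hpi := Real.pi_pos
  have e12 : Real.pi * (12 : ℕ) / 5 = 12 / 5 * Real.pi := by push_cast; ring
  have e24 : Real.pi * (24 : ℕ) / 5 = 24 / 5 * Real.pi := by push_cast; ring
  rcases lt_or_gt_of_ne (Y_ne2 O le_rfl (by linarith : 12 / 5 * Real.pi ≤ 17 / 5 * Real.pi))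
    with h | h
  · have h12 : O.Y (Real.pi * (12 : ℕ) / 5) < 0 := by rw [e12]; exact h
    have h13 : O.Y (Real.pi * (13 : ℕ) / 5) < 0 :=
      Y_neg2 O h (by push_cast; linarith) (by push_cast; linarith)
    have h17 : O.Y (Real.pi * (17 : ℕ) / 5) < 0 :=
      Y_neg2 O h (by push_cast; linarith) (by push_cast; linarith)
    rcases lt_or_gt_of_ne (X_ne3 O le_rfl (by linarith : 24 / 5 * Real.pi ≤ 26 / 5 * Real.pi))
      with h' | h'
    · exact CaseQ.contra O
        (X_pos1 O (by positivity) (by push_cast; linarith))
        (X_pos1 O (by positivity) (by push_cast; linarith)) h12 h17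
        (by rw [e24]; exact h') (X_neg3 O h' (by push_cast; linarith) (by push_cast; linarith))
    · exact CaseP.contra O
        (X_pos1 O (by positivity) (by push_cast; linarith)) h13 h17
        (by rw [e24]; exact h') (X_pos3 O h' (by push_cast; linarith) (by push_cast; linarith))
  · exact CaseM.contra O (X_pos1 O (by positivity) (by push_cast; linarith))
      (by rw [e12]; exact h)

end Pool.Agent.Run7.H247.Dig
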