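import Pool.Agent.Run7.h247.Dig.Riem
import Pool.Agent.Run7.h247.Dig.NoObj

/-!
# Finite additive bases of order two
-/

set_option autoImplicit false

open Finset Filter

namespace Pool.Agent.Run7.H247.Dig

/-- representations against a weight -/
lemma basis_conv {n : ℕ} {A : Finset ℕ} (hA : ∀ m, m ≤ n → ∃ a ∈ A, ∃ c ∈ A, a + c = m)
    {G : ℕ → ℝ} {M : ℝ} (hG : ∀ m, m ≤ 2 * n → 0 ≤ G m ∧ G m ≤ M) :
    2 * ∑ m ∈ range n, G m - M * (∑ i ∈ range (n + 1), (if i ∈ A then (1 : ℝ) else 0)) ≤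
      ∑ i ∈ range (n + 1), ∑ j ∈ range (n + 1),
        (if i ∈ A then (1 : ℝ) else 0) * (if j ∈ A then (1 : ℝ) else 0) * G (i + j) := by
  set χ : ℕ → ℝ := fun i => if i ∈ A then (1 : ℝ) else 0 with hχ
  have hχ0 : ∀ i, 0 ≤ χ i := fun i => by simp only [hχ]; split_ifs <;> norm_num
  have hχ1 : ∀ i ∈ A, χ i = 1 := fun i hi => by simp only [hχ]; rw [if_pos hi]
  -- the pairs with sum less than `n`
  have h1 : ∑ m ∈ range n, ∑ p ∈ antidiagonal m, χ p.1 * χ p.2 * G m ≤
      ∑ i ∈ range (n + 1), ∑ j ∈ range (n + 1), χ i * χ j * G (i + j) := by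
    rw [← sum_product' (range (n + 1)) (range (n + 1)) (fun i j => χ i * χ j * G (i + j)),
      sum_sigma']
    have hinj : Set.InjOn (fun s : (_ : ℕ) × (ℕ × ℕ) => s.2)
        ((range n).sigma fun m => antidiagonal m : Finset ((_ : ℕ) × (ℕ × ℕ))) := by
      intro s hs t ht hst
      simp only [Finset.coe_sigma, Set.mem_sigma_iff, Finset.mem_coe, mem_range,
        HasAntidiagonal.mem_antidiagonal] at hs ht
      obtain ⟨s1, s2⟩ := s
      obtain ⟨t1, t2⟩ := t
      simp only at hst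
      subst hst
      simp only at hs ht
      have : s1 = t1 := by rw [← hs.2, ht.2]
      subst this
      rfl
    have h2 : ∑ s ∈ (range n).sigma fun m => antidiagonal m, χ s.2.1 * χ s.2.2 * G s.1 =
        ∑ p ∈ ((range n).sigma fun m => antidiagonal m).image (fun s => s.2),
          χ p.1 * χ p.2 * G (p.1 + p.2) := by
      rw [sum_image hinj]
      refine sum_congr rfl fun s hs => ?_
      simp only [mem_sigma, mem_range, HasAntidiagonal.mem_antidiagonal] at hs
      rw [hs.2]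
    rw [h2]
    apply sum_le_sum_of_subset_of_nonneg
    · intro p hp
      simp only [mem_image, mem_sigma, mem_range, HasAntidiagonal.mem_antidiagonal] at hp
      obtain ⟨s, ⟨h3, h4⟩, rfl⟩ := hp
      simp only [mem_product, mem_range]
      omega
    · intro p hp _
      simp only [mem_product, mem_range] at hp
      exact mul_nonneg (mul_nonneg (hχ0 _) (hχ0 _)) (hG _ (by omega)).1
  refine le_trans ?_ h1
  have h2 : ∀ m ∈ range n, 2 * G m - (if m % 2 = 0 then M * χ (m / 2) else 0) ≤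
      ∑ p ∈ antidiagonal m, χ p.1 * χ p.2 * G m := by
    intro m hm
    have hmn := mem_range.mp hm
    obtain ⟨g0, g1⟩ := hG m (by omega)
    obtain ⟨a, ha, c, hc, hac⟩ := hA m hmn.le
    have hnn : ∀ p ∈ antidiagonal m, 0 ≤ χ p.1 * χ p.2 * G m := fun p _ =>
      mul_nonneg (mul_nonneg (hχ0 _) (hχ0 _)) g0
    by_cases hne : a = c
    · subst hne
      have h3 : m / 2 = a := by omega
      rw [if_pos (by omega), h3, hχ1 a ha]
      have h4 := single_le_sum hnn (a := (a, a)) (by
        rw [HasAntidiagonal.mem_antidiagonal]; exact hac)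
      simp only [hχ1 a ha] at h4
      linarith
    · have h5 : ({(a, c), (c, a)} : Finset (ℕ × ℕ)) ⊆ antidiagonal m := by
        intro p hp
        simp only [mem_insert, mem_singleton] at hp
        rw [HasAntidiagonal.mem_antidiagonal]
        rcases hp with rfl | rfl
        · exact hac
        · simpa [add_comm] using hac
      have h6 := sum_le_sum_of_subset_of_nonneg h5 (fun p hp _ => hnn p hp)
      rw [sum_pair (by intro h; exact hne (congrArg Prod.fst h))] at h6
      simp only [hχ1 a ha, hχ1 c hc] at h6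
      have h7 : 0 ≤ (if m % 2 = 0 then M * χ (m / 2) else 0) := by
        split_ifs
        · exact mul_nonneg (g0.trans g1) (hχ0 _)
        · exact le_rfl
      linarith
  have h3 := sum_le_sum h2
  refine le_trans ?_ h3
  rw [sum_sub_distrib, ← mul_sum]
  have h4 : ∑ m ∈ range n, (if m % 2 = 0 then M * χ (m / 2) else 0) ≤
      M * ∑ i ∈ range (n + 1), χ i := by
    rcases Nat.eq_zero_or_pos n with hn | hn
    · subst hn
      have hM : 0 ≤ M := (hG 0 (by omega)).1.trans (hG 0 (by omega)).2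
      simp only [range_zero, sum_empty]
      exact mul_nonneg hM (sum_nonneg fun i _ => hχ0 i)
    have hM : 0 ≤ M := (hG 0 (by omega)).1.trans (hG 0 (by omega)).2
    rw [← sum_filter, mul_sum]
    have hinj : Set.InjOn (fun m : ℕ => m / 2)
        ((range n).filter fun m => m % 2 = 0 : Finset ℕ) := by
      intro s hs t ht hst
      simp only [coe_filter, mem_range, Set.mem_ofPred_eq] at hs ht
      simp only at hst
      omega
    have h5 : ∑ m ∈ (range n).filter (fun m => m % 2 = 0), M * χ (m / 2) =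
        ∑ i ∈ ((range n).filter (fun m => m % 2 = 0)).image (fun m => m / 2), M * χ i := by
      rw [sum_image hinj]
    rw [h5]
    apply sum_le_sum_of_subset_of_nonneg
    · intro p hp
      simp only [mem_image, mem_filter, mem_range] at hp ⊢
      omega
    · intro p _ _
      exact mul_nonneg hM (hχ0 _)
  linarith

/-- finite additive bases of order two -/
theorem bases_main : ∃ n0 : ℕ, ∀ n : ℕ, n0 ≤ n → ∀ A : Finset ℕ,
    (∀ m, m ≤ n → ∃ a ∈ A, ∃ c ∈ A, a + c = m) →
      (n : ℝ) ≤ 9069 / 20000 * (A.card : ℝ) ^ 2 := by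
  classical
  by_contra hcon
  push Not at hcon
  set bad : Set ℕ := {n | ∃ A : Finset ℕ, (∀ m, m ≤ n → ∃ a ∈ A, ∃ c ∈ A, a + c = m) ∧
    9069 / 20000 * (A.card : ℝ) ^ 2 < n} with hbad
  have hfreq : ∃ᶠ n in atTop, n ∈ bad := by
    rw [frequently_atTop]
    intro a
    obtain ⟨n, h1, A, h2, h3⟩ := hcon a
    exact ⟨n, h1, A, h2, h3⟩
  have hne : NeBot (atTop ⊓ 𝓟 bad) := frequently_mem_iff_neBot.mp hfreq
  set U : Ultrafilter ℕ := Ultrafilter.of (atTop ⊓ 𝓟 bad) with hUdef
  have hUle : (U : Filter ℕ) ≤ atTop ⊓ 𝓟 bad := Ultrafilter.of_le _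
  have hU : (U : Filter ℕ) ≤ atTop := hUle.trans inf_le_left
  have hUbad : ∀ᶠ n in (U : Filter ℕ), n ∈ bad :=
    hUle.trans inf_le_right (mem_principal_self bad)
  set S : ℕ → Finset ℕ := fun n => if h : n ∈ bad then h.choose else ∅ with hS
  have hS1 : ∀ n ∈ bad, (∀ m, m ≤ n → ∃ a ∈ S n, ∃ c ∈ S n, a + c = m) ∧
      9069 / 20000 * ((S n).card : ℝ) ^ 2 < n := by
    intro n hn
    simp only [hS]
    rw [dif_pos hn]
    exact hn.choose_spec
  have hKc : ∀ n, Kw (fun n i => if i ∈ S n then (1 : ℝ) else 0) n =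
      (((range (n + 1)).filter (fun i => i ∈ S n)).card : ℝ) := by
    intro n
    unfold Kw
    rw [sum_boole]
  have hKle : ∀ n, Kw (fun n i => if i ∈ S n then (1 : ℝ) else 0) n ≤ (S n).card := by
    intro n
    rw [hKc]
    exact_mod_cast card_le_card (fun i hi => (mem_filter.mp hi).2)
  have hK0 : ∀ n, 0 ≤ Kw (fun n i => if i ∈ S n then (1 : ℝ) else 0) n := by
    intro n; rw [hKc]; positivity
  have hKgrow : ∀ n ∈ bad, (n : ℝ) ≤ Kw (fun n i => if i ∈ S n then (1 : ℝ) else 0) n ^ 2 := by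
    intro n hn
    obtain ⟨h1, _⟩ := hS1 n hn
    rw [hKc]
    set F := (range (n + 1)).filter (fun i => i ∈ S n) with hF
    have h2 : range (n + 1) ⊆ (F ×ˢ F).image (fun p => p.1 + p.2) := by
      intro m hm
      obtain ⟨a, ha, c, hc, hac⟩ := h1 m (by have := mem_range.mp hm; omega)
      rw [mem_image]
      refine ⟨(a, c), ?_, hac⟩
      have hm' := mem_range.mp hm
      rw [mem_product]
      simp only [hF, mem_filter, mem_range]
      exact ⟨⟨by omega, ha⟩, ⟨by omega, hc⟩⟩
    have h3 := (card_le_card h2).trans card_image_le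
    rw [card_range, card_product] at h3
    have h4 : ((n + 1 : ℕ) : ℝ) ≤ ((F.card * F.card : ℕ) : ℝ) := by exact_mod_cast h3
    push_cast at h4
    nlinarith
  have hKtop : Tendsto (fun n => Kw (fun n i => if i ∈ S n then (1 : ℝ) else 0) n)
      (U : Filter ℕ) atTop := by
    rw [tendsto_atTop]
    intro c
    have h1 : ∀ᶠ n : ℕ in (U : Filter ℕ), c ^ 2 ≤ (n : ℝ) :=
      hU (tendsto_natCast_atTop_atTop.eventually_ge_atTop (c ^ 2))
    filter_upwards [h1, hUbad] with n hn hnb
    have h2 := hKgrow n hnb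
    have h3 : c ^ 2 ≤ Kw (fun n i => if i ∈ S n then (1 : ℝ) else 0) n ^ 2 := hn.trans h2
    exact (le_abs_self c).trans ((abs_le_abs_of_sq_le_sq h3).trans
      (le_of_eq (abs_of_nonneg (hK0 n))))
  refine (obj_of_conv (p := 9069 / 10000) (by norm_num) U hU
    (x := fun n i => if i ∈ S n then (1 : ℝ) else 0) (fun _ _ => by split_ifs <;> norm_num)
    (hKtop.eventually_gt_atTop 0) ?_).elim noObj
  intro M ε hM hε
  refine ⟨1, one_pos, ?_⟩
  filter_upwards [hUbad, hKtop.eventually_ge_atTop (M / ε), hU (eventually_gt_atTop 0)]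
    with n hnb hnK hn0
  intro G hG _
  obtain ⟨h1, h2⟩ := hS1 n hnb
  have hn' : (0 : ℝ) < n := by exact_mod_cast hn0
  have h3 := basis_conv h1 hG
  refine le_trans ?_ h3
  have h4 : ∑ i ∈ range (n + 1), (if i ∈ S n then (1 : ℝ) else 0) =
      Kw (fun n i => if i ∈ S n then (1 : ℝ) else 0) n := rfl
  rw [h4]
  have h5 := hKle n
  have h6 := hK0 n
  set k := Kw (fun n i => if i ∈ S n then (1 : ℝ) else 0) n with hk
  have hSG : 0 ≤ ∑ m ∈ range n, G m := sum_nonneg fun m hm =>
    (hG m (by have := mem_range.mp hm; omega)).1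
  have h7 : k ^ 2 ≤ ((S n).card : ℝ) ^ 2 := pow_le_pow_left₀ h6 h5 2
  have h8 : 9069 / 10000 * k ^ 2 ≤ 2 * n := by linarith
  have h9 : 9069 / 10000 * ((∑ m ∈ range n, G m) / n) * k ^ 2 ≤ 2 * ∑ m ∈ range n, G m := by
    have e1 : 9069 / 10000 * ((∑ m ∈ range n, G m) / n) * k ^ 2 =
        (9069 / 10000 * k ^ 2) * ((∑ m ∈ range n, G m) / n) := by ring
    have e2 : 2 * ∑ m ∈ range n, G m = 2 * n * ((∑ m ∈ range n, G m) / n) := by field_simp
    rw [e1, e2]
    exact mul_le_mul_of_nonneg_right h8 (div_nonneg hSG hn'.le)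
  have h10 : M * k ≤ ε * k ^ 2 := by
    rw [div_le_iff₀ hε] at hnK
    have := mul_le_mul_of_nonneg_right hnK h6
    calc M * k ≤ k * ε * k := this
      _ = ε * k ^ 2 := by ring
  rw [sub_mul]
  linarith
where
  abs_le_abs_of_sq_le_sq {a b : ℝ} (h : a ^ 2 ≤ b ^ 2) : |a| ≤ |b| := sq_le_sq.mp h

end Pool.Agent.Run7.H247.Dig
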