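import Pool.Agent.Run7.h247.Dig.Trig2

/-!
# Verified sign of trigonometric polynomials, part 3: the test
-/

set_option autoImplicit false

open Complex

namespace Pool.Agent.Run7.H247.Dig

/-- the trigonometric polynomial of a list of frequencies and coefficients -/
noncomputable def P : List (ℕ × ℤ × ℤ) → ℝ → ℝ
  | [], _ => 0
  | q :: L, t => q.2.1 * Real.cos (Real.pi * q.1 / 5 * t) +
      q.2.2 * Real.sin (Real.pi * q.1 / 5 * t) + P L t

/-- sum of the moduli of the coefficients -/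
def W1 : List (ℕ × ℤ × ℤ) → ℤ
  | [] => 0
  | q :: L => |q.2.1| + |q.2.2| + W1 L

/-- bound for the second derivative -/
def W2 : List (ℕ × ℤ × ℤ) → ℤ
  | [] => 0
  | q :: L => (|q.2.1| + |q.2.2|) * (q.1 * q.1) + W2 L

/-- the rotation by `π m / 2000` -/
def wm (m : ℕ) : ℤ × ℤ := itv w1 m (R, 0)

/-- the starting vector -/
def zk (m k : ℕ) : ℤ × ℤ := let z := itv (wm m) k (R, 0); (z.1, -z.2)

/-- initial state -/
def st (k : ℕ) (L : List (ℕ × ℤ × ℤ)) : List ((ℤ × ℤ) × (ℤ × ℤ) × ℤ × ℤ) :=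
  L.map fun q => (wm q.1, zk q.1 k, q.2.1, q.2.2)

/-- next state -/
def stp (L : List ((ℤ × ℤ) × (ℤ × ℤ) × ℤ × ℤ)) : List ((ℤ × ℤ) × (ℤ × ℤ) × ℤ × ℤ) :=
  L.map fun q => (q.1, mulv q.2.1 q.1, q.2.2.1, q.2.2.2)

/-- value of a state -/
def vl : List ((ℤ × ℤ) × (ℤ × ℤ) × ℤ × ℤ) → ℤ
  | [] => 0
  | q :: L => q.2.2.1 * q.2.1.1 + q.2.2.2 * q.2.1.2 + vl L

/-- the test -/
def chk (s : ℤ) : ℕ → List ((ℤ × ℤ) × (ℤ × ℤ) × ℤ × ℤ) → Bool
  | 0, L => decide (s ≤ vl L)
  | (n + 1), L => decide (s ≤ vl L) && chk s n (stp L)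

/-- the full test -/
def test (k n : ℕ) (c : ℤ) (L : List (ℕ × ℤ × ℤ)) : Bool :=
  L.all (fun q => decide (q.1 ≤ 120)) && decide (k ≤ 1000) && decide (n ≤ 1000) &&
    chk (-c * R + W1 L * 1000000000 + W2 L * 312500000000) n (st k L)

/-- state after `i` steps -/
def sti (k i : ℕ) (L : List (ℕ × ℤ × ℤ)) : List ((ℤ × ℤ) × (ℤ × ℤ) × ℤ × ℤ) :=
  L.map fun q => (wm q.1, itv (wm q.1) i (zk q.1 k), q.2.1, q.2.2)

lemma itv_succ' (w : ℤ × ℤ) : ∀ (n : ℕ) (z : ℤ × ℤ), itv w (n + 1) z = mulv (itv w n z) w := by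
  intro n
  induction n with
  | zero => intro z; rfl
  | succ n ih => intro z; exact ih (mulv z w)

lemma stp_sti (k i : ℕ) (L : List (ℕ × ℤ × ℤ)) : stp (sti k i L) = sti k (i + 1) L := by
  unfold stp sti
  rw [List.map_map]
  apply List.map_congr_left
  intro q _
  simp only [Function.comp_apply, itv_succ']

lemma chk_sti (s : ℤ) (k : ℕ) (L : List (ℕ × ℤ × ℤ)) :
    ∀ (n i : ℕ), chk s n (sti k i L) = true → ∀ j, j ≤ n → s ≤ vl (sti k (i + j) L) := by
  intro n
  induction n with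
  | zero =>
    intro i h j hj
    obtain rfl : j = 0 := by omega
    unfold chk at h
    simpa using h
  | succ n ih =>
    intro i h j hj
    unfold chk at h
    rw [Bool.and_eq_true, decide_eq_true_eq, stp_sti] at h
    rcases Nat.eq_zero_or_pos j with rfl | hj0
    · exact h.1
    · obtain ⟨j', rfl⟩ : ∃ j', j = j' + 1 := ⟨j - 1, by omega⟩
      have := ih (i + 1) h.2 j' (by omega)
      rwa [show i + 1 + j' = i + (j' + 1) by ring] at this

lemma App_wm {m : ℕ} (hm : m ≤ 120) : App (wm m) (Real.pi * m / 2000)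
    (1 / 1000000000000000) := by
  have hm' : (m : ℝ) ≤ 120 := by exact_mod_cast hm
  have h := App_w1.itv (by norm_num) m (R, 0) 0 0 App_one le_rfl (by
    nlinarith)
  unfold wm
  have e : (0 : ℝ) + m * (Real.pi / 2000) = Real.pi * m / 2000 := by ring
  rw [e] at h
  refine h.mono ?_
  nlinarith

lemma App_zk {m k : ℕ} (hm : m ≤ 120) (hk : k ≤ 1000) :
    App (zk m k) (-(k * (Real.pi * m / 2000))) (1 / 100000000000) := by
  have hk' : (k : ℝ) ≤ 1000 := by exact_mod_cast hk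
  have h := (App_wm hm).itv (by norm_num) k (R, 0) 0 0 App_one le_rfl (by
    nlinarith)
  have h2 := h.conj
  unfold zk
  have e : -((0 : ℝ) + k * (Real.pi * m / 2000)) = -(k * (Real.pi * m / 2000)) := by ring
  rw [e] at h2
  refine h2.mono ?_
  nlinarith

lemma App_zi {m k i : ℕ} (hm : m ≤ 120) (hk : k ≤ 1000) (hi : i ≤ 1000) :
    App (itv (wm m) i (zk m k)) (Real.pi * m / 5 * (((i : ℝ) - k) / 400)) (1 / 1000000000) := by
  have hi' : (i : ℝ) ≤ 1000 := by exact_mod_cast hi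
  have h := (App_wm hm).itv (by norm_num) i (zk m k) _ _ (App_zk hm hk) (by norm_num) (by
    nlinarith)
  have e : -((k : ℝ) * (Real.pi * m / 2000)) + i * (Real.pi * m / 2000) =
      Real.pi * m / 5 * (((i : ℝ) - k) / 400) := by ring
  rw [e] at h
  refine h.mono ?_
  nlinarith

lemma App.re {z : ℤ × ℤ} {x e : ℝ} (h : App z x e) :
    |(z.1 : ℝ) - 1000000000000000000 * Real.cos x| ≤ 1000000000000000000 * e := by
  have h1 : |(cx z - exp (x * I)).re| ≤ e := (abs_re_le_norm _).trans h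
  rw [sub_re, exp_ofReal_mul_I_re] at h1
  have h2 : (cx z).re = z.1 / 1000000000000000000 := by
    have : cx z = (((z.1 : ℝ) / 1000000000000000000 : ℝ) : ℂ) +
        (((z.2 : ℝ) / 1000000000000000000 : ℝ) : ℂ) * I := by
      unfold cx; rw [R_cast]; push_cast; ring
    rw [this]
    simp
  rw [h2] at h1
  have h3 : (z.1 : ℝ) - 1000000000000000000 * Real.cos x =
      1000000000000000000 * (z.1 / 1000000000000000000 - Real.cos x) := by ring
  rw [h3, abs_mul, abs_of_nonneg (by norm_num : (0 : ℝ) ≤ 1000000000000000000)]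
  exact mul_le_mul_of_nonneg_left h1 (by norm_num)

lemma App.im {z : ℤ × ℤ} {x e : ℝ} (h : App z x e) :
    |(z.2 : ℝ) - 1000000000000000000 * Real.sin x| ≤ 1000000000000000000 * e := by
  have h1 : |(cx z - exp (x * I)).im| ≤ e := (abs_im_le_norm _).trans h
  rw [sub_im, exp_ofReal_mul_I_im] at h1
  have h2 : (cx z).im = z.2 / 1000000000000000000 := by
    have : cx z = (((z.1 : ℝ) / 1000000000000000000 : ℝ) : ℂ) +
        (((z.2 : ℝ) / 1000000000000000000 : ℝ) : ℂ) * I := by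
      unfold cx; rw [R_cast]; push_cast; ring
    rw [this]
    simp
  rw [h2] at h1
  have h3 : (z.2 : ℝ) - 1000000000000000000 * Real.sin x =
      1000000000000000000 * (z.2 / 1000000000000000000 - Real.sin x) := by ring
  rw [h3, abs_mul, abs_of_nonneg (by norm_num : (0 : ℝ) ≤ 1000000000000000000)]
  exact mul_le_mul_of_nonneg_left h1 (by norm_num)

lemma vl_le {k i : ℕ} (hk : k ≤ 1000) (hi : i ≤ 1000) (L : List (ℕ × ℤ × ℤ))
    (hL : ∀ q ∈ L, q.1 ≤ 120) :
    (vl (sti k i L) : ℝ) ≤ 1000000000000000000 * P L (((i : ℝ) - k) / 400) +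
      1000000000 * W1 L := by
  induction L with
  | nil => simp [vl, sti, P, W1]
  | cons q L ih =>
    have ih' := ih (fun q' hq' => hL q' (List.mem_cons_of_mem _ hq'))
    have hq := hL q List.mem_cons_self
    have hA := App_zi (k := k) (i := i) hq hk hi
    have h1 := hA.re
    have h2 := hA.im
    have e : vl (sti k i (q :: L)) = q.2.1 * (itv (wm q.1) i (zk q.1 k)).1 +
        q.2.2 * (itv (wm q.1) i (zk q.1 k)).2 + vl (sti k i L) := rfl
    rw [e]
    unfold P W1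
    push_cast
    set c := Real.cos (Real.pi * q.1 / 5 * (((i : ℝ) - k) / 400))
    set s := Real.sin (Real.pi * q.1 / 5 * (((i : ℝ) - k) / 400))
    set z := itv (wm q.1) i (zk q.1 k)
    have h3 : (q.2.1 : ℝ) * z.1 - (q.2.1 : ℝ) * (1000000000000000000 * c) ≤
        |(q.2.1 : ℝ)| * 1000000000 := by
      rw [← mul_sub]
      refine (le_abs_self _).trans ?_
      rw [abs_mul]
      apply mul_le_mul_of_nonneg_left _ (abs_nonneg _)
      refine h1.trans (by norm_num)
    have h4 : (q.2.2 : ℝ) * z.2 - (q.2.2 : ℝ) * (1000000000000000000 * s) ≤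
        |(q.2.2 : ℝ)| * 1000000000 := by
      rw [← mul_sub]
      refine (le_abs_self _).trans ?_
      rw [abs_mul]
      apply mul_le_mul_of_nonneg_left _ (abs_nonneg _)
      refine h2.trans (by norm_num)
    nlinarith

lemma pi_sq_le : Real.pi ^ 2 ≤ 10 := by
  have h1 := Real.pi_lt_d2
  have h2 := Real.pi_pos
  nlinarith

lemma P_interp (L : List (ℕ × ℤ × ℤ)) (u v l : ℝ) (h0 : 0 ≤ l) (h1 : l ≤ 1) :
    l * P L u + (1 - l) * P L v - W2 L * (l * (1 - l) * (u - v) ^ 2 / 5) ≤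
      P L (l * u + (1 - l) * v) := by
  induction L with
  | nil => simp [P, W2]
  | cons q L ih =>
    unfold P W2
    push_cast
    set w : ℝ := Real.pi * q.1 / 5 with hw
    have hc := interp_abs 0 (w * u) (w * v) l h0 h1
    have hs := interp_abs (-(Real.pi / 2)) (w * u) (w * v) l h0 h1
    simp only [add_zero, ← sub_eq_add_neg, Real.cos_sub_pi_div_two] at hc hs
    have e1 : l * (w * u) + (1 - l) * (w * v) = w * (l * u + (1 - l) * v) := by ring
    rw [e1] at hc hs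
    have hl : 0 ≤ l * (1 - l) := mul_nonneg h0 (by linarith)
    have e2 : l * (1 - l) * (w * u - w * v) ^ 2 / 2 ≤
        (q.1 * q.1 : ℝ) * (l * (1 - l) * (u - v) ^ 2 / 5) := by
      have e3 : l * (1 - l) * (w * u - w * v) ^ 2 / 2 =
          (q.1 * q.1 : ℝ) * (l * (1 - l) * (u - v) ^ 2 / 5) * (Real.pi ^ 2 / 10) := by
        rw [hw]; ring
      rw [e3]
      have h5 : 0 ≤ (q.1 * q.1 : ℝ) * (l * (1 - l) * (u - v) ^ 2 / 5) := by positivity
      have h6 : Real.pi ^ 2 / 10 ≤ 1 := by have := pi_sq_le; linarith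
      nlinarith
    set B : ℝ := (q.1 * q.1 : ℝ) * (l * (1 - l) * (u - v) ^ 2 / 5) with hB
    have hc' := hc.trans e2
    have hs' := hs.trans e2
    have h7 : -(|(q.2.1 : ℝ)| * B) ≤ (q.2.1 : ℝ) * (Real.cos (w * (l * u + (1 - l) * v)) -
        (l * Real.cos (w * u) + (1 - l) * Real.cos (w * v))) := by
      refine le_trans ?_ (neg_abs_le _)
      rw [abs_mul, neg_le_neg_iff]
      exact mul_le_mul_of_nonneg_left hc' (abs_nonneg _)
    have h8 : -(|(q.2.2 : ℝ)| * B) ≤ (q.2.2 : ℝ) * (Real.sin (w * (l * u + (1 - l) * v)) -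
        (l * Real.sin (w * u) + (1 - l) * Real.sin (w * v))) := by
      refine le_trans ?_ (neg_abs_le _)
      rw [abs_mul, neg_le_neg_iff]
      exact mul_le_mul_of_nonneg_left hs' (abs_nonneg _)
    have e4 : ((|(q.2.1 : ℝ)| + |(q.2.2 : ℝ)|) * ((q.1 : ℝ) * q.1) + W2 L) *
        (l * (1 - l) * (u - v) ^ 2 / 5) = |(q.2.1 : ℝ)| * B + |(q.2.2 : ℝ)| * B +
        W2 L * (l * (1 - l) * (u - v) ^ 2 / 5) := by rw [hB]; ring
    rw [e4]
    nlinarith

lemma W2_nonneg (L : List (ℕ × ℤ × ℤ)) : 0 ≤ W2 L := by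
  induction L with
  | nil => simp [W2]
  | cons q L ih => unfold W2; positivity

/-- the test is correct -/
theorem test_spec {k n : ℕ} {c : ℤ} {L : List (ℕ × ℤ × ℤ)} (h : test k n c L = true) (t : ℝ)
    (h0 : -(k : ℝ) / 400 ≤ t) (h1 : t ≤ ((n : ℝ) - k) / 400) : 0 ≤ c + P L t := by
  unfold test at h
  simp only [Bool.and_eq_true, List.all_eq_true, decide_eq_true_eq] at h
  obtain ⟨⟨⟨hL, hk⟩, hn⟩, hc⟩ := h
  have hst : st k L = sti k 0 L := rfl
  rw [hst] at hc
  have hval := chk_sti _ k L n 0 hc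
  have hgrid : ∀ j : ℕ, j ≤ n → (W2 L : ℝ) / 3200000 ≤ c + P L (((j : ℝ) - k) / 400) := by
    intro j hj
    have h2 := hval j hj
    rw [zero_add] at h2
    have h3 := vl_le hk (by omega : j ≤ 1000) L hL
    have h4 : ((-c * R + W1 L * 1000000000 + W2 L * 312500000000 : ℤ) : ℝ) ≤
        (vl (sti k j L) : ℝ) := by exact_mod_cast h2
    have hR : ((R : ℤ) : ℝ) = 1000000000000000000 := by norm_num [R]
    push_cast at h4
    rw [hR] at h4
    linarith
  -- the grid cell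
  set s : ℝ := 400 * t + k with hs
  have hs0 : 0 ≤ s := by rw [hs]; linarith
  have hsn : s ≤ n := by rw [hs]; linarith
  set j : ℕ := ⌊s⌋₊ with hj
  have hj1 : (j : ℝ) ≤ s := Nat.floor_le hs0
  have hj2 : s < j + 1 := Nat.lt_floor_add_one s
  have hjn : j ≤ n := by
    have : (j : ℝ) ≤ n := hj1.trans hsn
    exact_mod_cast this
  have ht : t = (s - k) / 400 := by rw [hs]; ring
  have hW : (0 : ℝ) ≤ W2 L := by exact_mod_cast W2_nonneg L
  rcases Nat.lt_or_ge j n with hlt | hge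
  · have ga := hgrid j hjn
    have gb := hgrid (j + 1) hlt
    have hin := P_interp L (((j : ℝ) - k) / 400) ((((j + 1 : ℕ) : ℝ) - k) / 400) (j + 1 - s)
      (by linarith) (by linarith)
    have e1 : (j + 1 - s) * (((j : ℝ) - k) / 400) +
        (1 - (j + 1 - s)) * ((((j + 1 : ℕ) : ℝ) - k) / 400) = t := by
      rw [ht]; push_cast; ring
    rw [e1] at hin
    set l : ℝ := j + 1 - s with hl
    have hl0 : 0 ≤ l := by linarith
    have hl1 : l ≤ 1 := by linarith
    have e2 : (((j : ℝ) - k) / 400 - (((j + 1 : ℕ) : ℝ) - k) / 400) ^ 2 = 1 / 160000 := by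
      push_cast; ring
    rw [e2] at hin
    have h5 : l * (1 - l) * (1 / 160000) / 5 ≤ 1 / 3200000 := by nlinarith [sq_nonneg (2 * l - 1)]
    have h6 : (W2 L : ℝ) * (l * (1 - l) * (1 / 160000) / 5) ≤ W2 L * (1 / 3200000) :=
      mul_le_mul_of_nonneg_left h5 hW
    nlinarith
  · have hjn' : j = n := le_antisymm hjn hge
    have hsj : s = j := le_antisymm (by rw [hjn']; exact hsn) hj1
    have := hgrid j hjn
    rw [← hsj, ← ht] at this
    have h7 : (0 : ℝ) ≤ (W2 L : ℝ) / 3200000 := by positivity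
    linarith

/-- doubled frequencies -/
def dbl (L : List (ℕ × ℤ × ℤ)) : List (ℕ × ℤ × ℤ) := L.map fun q => (2 * q.1, q.2.1, q.2.2)

lemma P_dbl (L : List (ℕ × ℤ × ℤ)) (t : ℝ) : P (dbl L) t = P L (2 * t) := by
  induction L with
  | nil => rfl
  | cons q L ih =>
    have e : dbl (q :: L) = (2 * q.1, q.2.1, q.2.2) :: dbl L := rfl
    rw [e]
    unfold P
    rw [ih]
    push_cast
    rw [show Real.pi * (2 * (q.1 : ℝ)) / 5 * t = Real.pi * q.1 / 5 * (2 * t) by ring]

/-- the test with the double step is correct -/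
theorem test_dbl {k n : ℕ} {c : ℤ} {L : List (ℕ × ℤ × ℤ)} (h : test k n c (dbl L) = true) (t : ℝ)
    (h0 : -(k : ℝ) / 200 ≤ t) (h1 : t ≤ ((n : ℝ) - k) / 200) : 0 ≤ c + P L t := by
  have := test_spec h (t / 2) (by linarith) (by linarith)
  rw [P_dbl, mul_div_cancel₀ _ (by norm_num : (2 : ℝ) ≠ 0)] at this
  exact this

end Pool.Agent.Run7.H247.Dig
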