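import Pool.Agent.Run7.h247.Dig.Step
import Pool.Agent.Run7.h247.Dig.Trig3

/-!
# Branches of the square root
-/

set_option autoImplicit false

open Set

namespace Pool.Agent.Run7.H247.Dig

section
variable {p : ℝ} (O : Obj p)

/-- `p` times the Fourier transform of the uniform measure -/
noncomputable def sg (p w : ℝ) : ℝ := p * (2 * Real.sin (w / 2) / w)

lemma disc' (hp : p < 1) {w : ℝ} (hw : w ≠ 0) :
    |O.X w ^ 2 - O.Y w ^ 2 - sg p w| ≤ 1 - p := by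
  have hd := disc O hp hw
  exact abs_le_of_sq_le_sq (by unfold sg; linarith [sq_nonneg (2 * O.X w * O.Y w)])
    (by linarith)

lemma X_ne (hp : p < 1) {w : ℝ} (hw : w ≠ 0) (h : 1 - p < sg p w) : O.X w ≠ 0 := by
  intro h0
  have := (abs_le.mp (disc' O hp hw)).1
  rw [h0] at this
  linarith [sq_nonneg (O.Y w)]

lemma Y_ne (hp : p < 1) {w : ℝ} (hw : w ≠ 0) (h : sg p w < -(1 - p)) : O.Y w ≠ 0 := by
  intro h0
  have := (abs_le.mp (disc' O hp hw)).2
  rw [h0] at this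
  linarith [sq_nonneg (O.X w)]

lemma brP (hp : p < 1) {w lo c1 c2 l : ℝ} (hw : w ≠ 0) (hX : 0 < O.X w) (hlo : lo ≤ sg p w)
    (h0 : 0 ≤ lo - (1 - p)) (hc : |c2| < c1) (hl : l ^ 2 ≤ (lo - (1 - p)) * (c1 ^ 2 - c2 ^ 2)) :
    l ≤ c1 * O.X w + c2 * O.Y w := by
  have := (abs_le.mp (disc' O hp hw)).1
  exact hyper hX h0 (by linarith) hc hl

lemma brQ (hp : p < 1) {w lo c1 c2 l : ℝ} (hw : w ≠ 0) (hX : O.X w < 0) (hlo : lo ≤ sg p w)
    (h0 : 0 ≤ lo - (1 - p)) (hc : |c2| < -c1) (hl : l ^ 2 ≤ (lo - (1 - p)) * (c1 ^ 2 - c2 ^ 2)) :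
    l ≤ c1 * O.X w + c2 * O.Y w := by
  have := (abs_le.mp (disc' O hp hw)).1
  have h := hyper (X := -O.X w) (Y := -O.Y w) (c1 := -c1) (c2 := -c2) (l := l) (by linarith) h0
    (by rw [neg_sq, neg_sq]; linarith) (by rw [abs_neg]; exact hc) (by rw [neg_sq, neg_sq]; exact hl)
  linarith

lemma brM (hp : p < 1) {w hi c1 c2 l : ℝ} (hw : w ≠ 0) (hY : 0 < O.Y w) (hhi : sg p w ≤ hi)
    (h0 : 0 ≤ -hi - (1 - p)) (hc : |c1| < c2)
    (hl : l ^ 2 ≤ (-hi - (1 - p)) * (c2 ^ 2 - c1 ^ 2)) :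
    l ≤ c1 * O.X w + c2 * O.Y w := by
  have := (abs_le.mp (disc' O hp hw)).2
  have h := hyper (X := O.Y w) (Y := O.X w) (c1 := c2) (c2 := c1) (l := l) hY h0
    (by linarith) hc hl
  linarith

lemma brm (hp : p < 1) {w hi c1 c2 l : ℝ} (hw : w ≠ 0) (hY : O.Y w < 0) (hhi : sg p w ≤ hi)
    (h0 : 0 ≤ -hi - (1 - p)) (hc : |c1| < -c2)
    (hl : l ^ 2 ≤ (-hi - (1 - p)) * (c2 ^ 2 - c1 ^ 2)) :
    l ≤ c1 * O.X w + c2 * O.Y w := by
  have := (abs_le.mp (disc' O hp hw)).2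
  have h := hyper (X := -O.Y w) (Y := -O.X w) (c1 := -c2) (c2 := -c1) (l := l) (by linarith) h0
    (by rw [neg_sq, neg_sq]; linarith) (by rw [abs_neg]; exact hc) (by rw [neg_sq, neg_sq]; exact hl)
  linarith

end

/-! ### windows -/

section
variable (O : Obj (9069 / 10000))

lemma win1 {u : ℝ} (h0 : 0 < u) (h1 : u ≤ 4 / 5 * Real.pi) : 931 / 9069 * u < Real.sin u := by
  have hpi := Real.pi_pos
  have hp3 := Real.pi_gt_d2
  have hp4 := Real.pi_lt_d2
  rcases le_total u (Real.pi / 2) with h | h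
  · have h2 := Real.mul_le_sin h0.le h
    refine lt_of_lt_of_le ?_ h2
    apply mul_lt_mul_of_pos_right _ h0
    rw [lt_div_iff₀ hpi]
    linarith
  · have h2 := Real.mul_le_sin (x := Real.pi - u) (by linarith) (by linarith)
    rw [Real.sin_pi_sub] at h2
    refine lt_of_lt_of_le ?_ h2
    have h3 : 2 / Real.pi * (1 / 5 * Real.pi) ≤ 2 / Real.pi * (Real.pi - u) :=
      mul_le_mul_of_nonneg_left (by linarith) (by positivity)
    refine lt_of_lt_of_le ?_ h3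
    have h4 : 2 / Real.pi * (1 / 5 * Real.pi) = 2 / 5 := by field_simp
    rw [h4]
    linarith

lemma win2 {u : ℝ} (h0 : 6 / 5 * Real.pi ≤ u) (h1 : u ≤ 17 / 10 * Real.pi) :
    931 / 9069 * u < -Real.sin u := by
  have hpi := Real.pi_pos
  have hp3 := Real.pi_gt_d2
  have hp4 := Real.pi_lt_d2
  have e : -Real.sin u = Real.sin (u - Real.pi) := by rw [Real.sin_sub_pi]
  rw [e]
  rcases le_total (u - Real.pi) (Real.pi / 2) with h | h
  · have h2 : Real.sin (Real.pi / 5) ≤ Real.sin (u - Real.pi) :=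
      Real.sin_le_sin_of_le_of_le_pi_div_two (by linarith) h (by linarith)
    have h3 : Real.pi / 5 - (Real.pi / 5) ^ 3 / 6 < Real.sin (Real.pi / 5) :=
      Real.sin_gt_sub_cube (by positivity)
    have h4 : (Real.pi / 5) ^ 3 ≤ (63 / 100) ^ 3 := by
      apply pow_le_pow_left₀ (by positivity)
      linarith
    norm_num at h4
    linarith
  · have h2 := Real.mul_le_sin (x := Real.pi - (u - Real.pi)) (by linarith) (by linarith)
    rw [Real.sin_pi_sub] at h2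
    refine lt_of_lt_of_le ?_ h2
    have h3 : 2 / Real.pi * (3 / 10 * Real.pi) ≤ 2 / Real.pi * (Real.pi - (u - Real.pi)) :=
      mul_le_mul_of_nonneg_left (by linarith) (by positivity)
    refine lt_of_lt_of_le ?_ h3
    have h4 : 2 / Real.pi * (3 / 10 * Real.pi) = 3 / 5 := by field_simp; norm_num
    rw [h4]
    linarith

lemma win3 {u : ℝ} (h0 : 12 / 5 * Real.pi ≤ u) (h1 : u ≤ 13 / 5 * Real.pi) :
    931 / 9069 * u < Real.sin u := by
  have hpi := Real.pi_pos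
  have hp3 := Real.pi_gt_d2
  have hp4 := Real.pi_lt_d2
  have e : Real.sin u = Real.cos (u - 5 / 2 * Real.pi) := by
    have h5 : u - 5 / 2 * Real.pi = (u - Real.pi / 2) - 2 * Real.pi := by ring
    rw [h5, Real.cos_sub_two_pi, Real.cos_sub_pi_div_two]
  rw [e]
  have h2 := Real.one_sub_sq_div_two_le_cos (x := u - 5 / 2 * Real.pi)
  have h3 : (u - 5 / 2 * Real.pi) ^ 2 ≤ (32 / 100) ^ 2 := by
    apply sq_le_sq'
    · linarith
    · linarith
  norm_num at h3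
  linarith

lemma sg_gt {w : ℝ} (hw : 0 < w) (h : 931 / 9069 * (w / 2) < Real.sin (w / 2)) :
    1 - 9069 / 10000 < sg (9069 / 10000) w := by
  unfold sg
  rw [← mul_div_assoc, lt_div_iff₀ hw]
  linarith

lemma sg_lt {w : ℝ} (hw : 0 < w) (h : 931 / 9069 * (w / 2) < -Real.sin (w / 2)) :
    sg (9069 / 10000) w < -(1 - 9069 / 10000) := by
  unfold sg
  rw [← mul_div_assoc, div_lt_iff₀ hw]
  linarith

lemma X_pos1 {w : ℝ} (h0 : 0 ≤ w) (h1 : w ≤ 8 / 5 * Real.pi) : 0 < O.X w := by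
  apply pos_of_ne (X_lip O).continuous h0 (by rw [X_zero O]; norm_num)
  intro z hz0 hz1
  rcases hz0.eq_or_lt with h | h
  · rw [← h, X_zero O]; norm_num
  · exact X_ne O (by norm_num) h.ne' (sg_gt h (win1 (by linarith) (by linarith)))

lemma Y_ne2 {z : ℝ} (h0 : 12 / 5 * Real.pi ≤ z) (h1 : z ≤ 17 / 5 * Real.pi) : O.Y z ≠ 0 := by
  have hpi := Real.pi_pos
  have hz : 0 < z := by linarith
  exact Y_ne O (by norm_num) hz.ne' (sg_lt hz (win2 (by linarith) (by linarith)))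

lemma X_ne3 {z : ℝ} (h0 : 24 / 5 * Real.pi ≤ z) (h1 : z ≤ 26 / 5 * Real.pi) : O.X z ≠ 0 := by
  have hpi := Real.pi_pos
  have hz : 0 < z := by linarith
  exact X_ne O (by norm_num) hz.ne' (sg_gt hz (win3 (by linarith) (by linarith)))

lemma Y_neg2 (h : O.Y (12 / 5 * Real.pi) < 0) {w : ℝ} (h0 : 12 / 5 * Real.pi ≤ w)
    (h1 : w ≤ 17 / 5 * Real.pi) : O.Y w < 0 := by
  have h2 := pos_of_ne (f := fun z => -O.Y z) (Y_lip O).continuous.neg h0 (by simpa using h)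
    (fun z hz0 hz1 => neg_ne_zero.mpr (Y_ne2 O hz0 (hz1.trans h1)))
  simpa using h2

lemma X_pos3 (h : 0 < O.X (24 / 5 * Real.pi)) {w : ℝ} (h0 : 24 / 5 * Real.pi ≤ w)
    (h1 : w ≤ 26 / 5 * Real.pi) : 0 < O.X w :=
  pos_of_ne (X_lip O).continuous h0 h (fun z hz0 hz1 => X_ne3 O hz0 (hz1.trans h1))

lemma X_neg3 (h : O.X (24 / 5 * Real.pi) < 0) {w : ℝ} (h0 : 24 / 5 * Real.pi ≤ w)
    (h1 : w ≤ 26 / 5 * Real.pi) : O.X w < 0 := by
  have h2 := pos_of_ne (f := fun z => -O.X z) (X_lip O).continuous.neg h0 (by simpa using h)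
    (fun z hz0 hz1 => neg_ne_zero.mpr (X_ne3 O hz0 (hz1.trans h1)))
  simpa using h2

end

/-! ### values of the Fourier transform -/

lemma sin_val {m : ℕ} (hm : m ≤ 120) {z : ℤ} (hz : (itv (wm m) 200 (R, 0)).2 = z) :
    |Real.sin (Real.pi * m / 5 / 2) - z / 1000000000000000000| ≤ 1 / 1000000000000 := by
  have h := (App_wm hm).itv (by norm_num) 200 (R, 0) 0 0 App_one le_rfl (by norm_num)
  have e : (0 : ℝ) + (200 : ℕ) * (Real.pi * m / 2000) = Real.pi * m / 5 / 2 := by push_cast; ring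
  rw [e] at h
  have h2 := h.im
  rw [hz] at h2
  set s := Real.sin (Real.pi * m / 5 / 2)
  have e2 : s - z / 1000000000000000000 =
      -(((z : ℝ) - 1000000000000000000 * s) / 1000000000000000000) := by ring
  rw [e2, abs_neg, abs_div, abs_of_nonneg (by norm_num : (0 : ℝ) ≤ 1000000000000000000),
    div_le_iff₀ (by norm_num)]
  refine h2.trans ?_
  norm_num

lemma sg_bd {m : ℕ} (hm : m ≤ 120) (hm0 : 0 < m) {z : ℤ} (hz : (itv (wm m) 200 (R, 0)).2 = z)
    {lo hi : ℝ}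
    (h1 : lo * m * Real.pi ≤ 9069 / 1000 * (z / 1000000000000000000 - 1 / 1000000000000))
    (h2 : 9069 / 1000 * (z / 1000000000000000000 + 1 / 1000000000000) ≤ hi * m * Real.pi) :
    lo ≤ sg (9069 / 10000) (Real.pi * m / 5) ∧ sg (9069 / 10000) (Real.pi * m / 5) ≤ hi := by
  have h3 := abs_le.mp (sin_val hm hz)
  have hpi := Real.pi_pos
  have hm0' : (0 : ℝ) < m := by exact_mod_cast hm0
  have hw : 0 < Real.pi * m / 5 := by positivity
  unfold sg
  rw [← mul_div_assoc, le_div_iff₀ hw, div_le_iff₀ hw]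
  constructor <;> linarith

end Pool.Agent.Run7.H247.Dig
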