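import Pool.Agent.Run7.h247.Dig.Vals

/-!
# Certificate, case M
-/

set_option autoImplicit false
set_option maxRecDepth 100000

open Set

namespace Pool.Agent.Run7.H247.Dig

namespace CaseM

/-- trigonometric polynomial on `[-1/4, 3/4]` -/
def LH : List (ℕ × ℤ × ℤ) := [(6, -44551320000, 547340620000), (12, 118261960000, -435075300000)]

/-- trigonometric polynomial on `[-1/2, 3/2]` -/
def LF : List (ℕ × ℤ × ℤ) := [(6, 28028081880, -408145998092), (12, -198861734426, 11591584472), (24, -184586018400, -72501811200)]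

lemma testH : test 100 400 91842000000 LH = true := by decide +kernel

lemma testF : test 100 400 415635139735 (dbl LF) = true := by decide +kernel

/-- the weights -/
noncomputable def H : C(ℝ, ℝ) :=
  (((-1113783 / 25000000) : ℝ) • cosm (Real.pi * (6 : ℕ) / 5) +
    ((27367031 / 50000000) : ℝ) • sinm (Real.pi * (6 : ℕ) / 5)) +
  (((2956549 / 25000000) : ℝ) • cosm (Real.pi * (12 : ℕ) / 5) +
    ((-4350753 / 10000000) : ℝ) • sinm (Real.pi * (12 : ℕ) / 5))

/-- the test function -/
noncomputable def G : C(ℝ, ℝ) :=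
  Ff (9069 / 10000) (Real.pi * (6 : ℕ) / 5) (-17 / 500) (4193 / 10000) (31 / 100) (-579 / 1000) (-5173 / 50000) +
  Ff (9069 / 10000) (Real.pi * (12 : ℕ) / 5) (1077 / 1250) (257 / 2000) (507 / 250) (48 / 125) (172559 / 100000)

lemma H_ge (y : ℝ) (h0 : -(1 / 4) ≤ y) (h1 : y ≤ 3 / 4) : -(45921 / 500000) ≤ H y := by
  have h := test_spec testH y (by norm_num; linarith) (by norm_num; linarith)
  simp only [LH, P] at h
  simp only [H, ContinuousMap.coe_add, ContinuousMap.coe_smul, Pi.add_apply, Pi.smul_apply,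
    smul_eq_mul, cosm_apply, sinm_apply]
  push_cast at h ⊢
  linarith

lemma G_le (t : ℝ) (h0 : -(1 / 2) ≤ t) (h1 : t ≤ 3 / 2) : G t ≤ (182449 / 200000) := by
  have h := test_dbl testF t (by norm_num; linarith) (by norm_num; linarith)
  simp only [LF, P] at h
  simp only [G, ContinuousMap.coe_add, Pi.add_apply, Ff_apply]
  push_cast at h ⊢
  have e6 := Ff_val (9069 / 10000) (Real.pi * 6 / 5) t (-17 / 500) (4193 / 10000) (31 / 100) (-579 / 1000) (-5173 / 50000)
  rw [show 2 * (Real.pi * 6 / 5) = Real.pi * 12 / 5 by ring] at e6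
  have e12 := Ff_val (9069 / 10000) (Real.pi * 12 / 5) t (1077 / 1250) (257 / 2000) (507 / 250) (48 / 125) (172559 / 100000)
  rw [show 2 * (Real.pi * 12 / 5) = Real.pi * 24 / 5 by ring] at e12
  rw [e6, e12]
  norm_num at h ⊢
  linarith

theorem contra (O : Obj (9069 / 10000))
    (h6 : 0 < O.X (Real.pi * (6 : ℕ) / 5)) (h12 : 0 < O.Y (Real.pi * (12 : ℕ) / 5)) : False := by
  have hpi := Real.pi_pos
  have w6 : Real.pi * (6 : ℕ) / 5 ≠ 0 := by positivity
  obtain ⟨σ6, hσ6⟩ : ∃ σ, σ = sg (9069 / 10000) (Real.pi * (6 : ℕ) / 5) := ⟨_, rfl⟩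
  have b6 := sg6
  rw [← hσ6] at b6
  have k6 := step O (by norm_num) w6 (σ := σ6) (A := (-17 / 500)) (B := (4193 / 10000)) (x0 := (6527 / 10000))
    (y0 := (-1 / 5000)) (α := (31 / 100)) (β := (-579 / 1000)) (r := (-5173 / 50000))
    (N := (36291 / 200000)) (l := (689 / 20000)) (e := 1 / 1000000) hσ6 (by norm_num) (by norm_num)
    (brP O (by norm_num) (lo := (1143943599 / 2500000000)) w6 h6 (by rw [← hσ6]; exact b6.1) (by norm_num)
      (abs_lt.mpr ⟨by norm_num, by norm_num⟩) (by norm_num))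
    (by linarith [b6.1, b6.2]) (abs_le.mpr ⟨by linarith [b6.1, b6.2], by linarith [b6.1, b6.2]⟩)
    (by norm_num) (by norm_num)
  have w12 : Real.pi * (12 : ℕ) / 5 ≠ 0 := by positivity
  obtain ⟨σ12, hσ12⟩ : ∃ σ, σ = sg (9069 / 10000) (Real.pi * (12 : ℕ) / 5) := ⟨_, rfl⟩
  have b12 := sg12
  rw [← hσ12] at b12
  have k12 := step O (by norm_num) w12 (σ := σ12) (A := (1077 / 1250)) (B := (257 / 2000)) (x0 := (303 / 10000))
    (y0 := (257 / 1000)) (α := (507 / 250)) (β := (48 / 125)) (r := (172559 / 100000))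
    (N := (1855611 / 500000)) (l := (23197 / 125000)) (e := 1 / 1000000) hσ12 (by norm_num) (by norm_num)
    (brM O (by norm_num) (hi := (-1413992047 / 10000000000)) w12 h12 (by rw [← hσ12]; exact b12.2) (by norm_num)
      (abs_lt.mpr ⟨by norm_num, by norm_num⟩) (by norm_num))
    (by linarith [b12.1, b12.2]) (abs_le.mpr ⟨by linarith [b12.1, b12.2], by linarith [b12.1, b12.2]⟩)
    (by norm_num) (by norm_num)
  have hE : -(45921 / 500000) ≤ O.E H := by
    have := E_mono O (f := (-(45921 / 500000) : ℝ) • (1 : C(ℝ, ℝ))) (g := H) (fun y h0 h1 => by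
      simpa using H_ge y h0 h1)
    rw [map_smul, O.E_one, smul_eq_mul, mul_one] at this
    exact this
  have hD : O.D G ≤ (182449 / 200000) * (1 - 9069 / 10000) := by
    have := D_mono O (f := G) (g := ((182449 / 200000) : ℝ) • (1 : C(ℝ, ℝ))) (fun t h0 h1 => by
      simpa using G_le t h0 h1)
    rw [map_smul, O.D_one, smul_eq_mul] at this
    exact this
  unfold H at hE
  unfold G at hD
  simp only [map_add, map_smul, smul_eq_mul] at hE hD
  unfold Obj.X Obj.Y at *
  linarith [b6.1, b6.2, b12.1, b12.2]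

end CaseM

end Pool.Agent.Run7.H247.Dig
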