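import Pool.Agent.Run7.h247.Dig.Obj
import Pool.Agent.Run7.h409.Dig.Core

/-!
# The moments of a limit object

The certificate of helper409 (`Run7.h409.Dig.D12`) excludes limit objects for `p = 625 / 722`.
-/

set_option autoImplicit false

open Finset

namespace Pool.Agent.Run7.H247.Dig

open Run7.h409.Dig

/-- `y ↦ cos (w (y + s))` -/
noncomputable def cs (w s : ℝ) : C(ℝ, ℝ) := Real.cos (w * s) • cosm w - Real.sin (w * s) • sinm w

/-- `y ↦ sin (w (y + s))` -/
noncomputable def sn (w s : ℝ) : C(ℝ, ℝ) := Real.sin (w * s) • cosm w + Real.cos (w * s) • sinm w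

lemma cs_apply (w s y : ℝ) : cs w s y = Real.cos (w * (y + s)) := by
  simp only [cs, ContinuousMap.coe_sub, ContinuousMap.coe_smul, Pi.sub_apply, Pi.smul_apply,
    cosm_apply, sinm_apply, smul_eq_mul]
  rw [mul_add, Real.cos_add]
  ring

lemma sn_apply (w s y : ℝ) : sn w s y = Real.sin (w * (y + s)) := by
  simp only [sn, ContinuousMap.coe_add, ContinuousMap.coe_smul, Pi.add_apply, Pi.smul_apply,
    cosm_apply, sinm_apply, smul_eq_mul]
  rw [mul_add, Real.sin_add]
  ring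

variable {p : ℝ} (O : Obj p)

/-- real part of the `k`-th moment -/
noncomputable def Obj.A (k : ℕ) : ℝ := O.E (cs (Real.pi * k) (1 / 4))

/-- imaginary part of the `k`-th moment -/
noncomputable def Obj.B (k : ℕ) : ℝ := O.E (sn (Real.pi * k) (1 / 4))

lemma D_cs {k : ℕ} (hk : 1 ≤ k) :
    O.D (cs (Real.pi * k) (1 / 2)) = O.A k ^ 2 - O.B k ^ 2 := by
  have hpi := Real.pi_pos
  have hk0 : (0 : ℝ) < k := by exact_mod_cast hk
  have hw : Real.pi * k ≠ 0 := by positivity
  set w := Real.pi * k with hwd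
  unfold Obj.A Obj.B
  rw [← hwd]
  unfold cs sn
  rw [map_sub, map_sub, map_add, map_smul, map_smul, map_smul, map_smul, map_smul, map_smul,
    O.D_cos w hw, O.D_sin w hw]
  simp only [smul_eq_mul]
  set X := O.E (cosm w)
  set Y := O.E (sinm w)
  have e1 : w * (1 / 2) = 2 * (w * (1 / 4)) := by ring
  have e2 : w / 2 = 2 * (w * (1 / 4)) := by ring
  have e3 : Real.cos (2 * (w * (1 / 4))) * Real.sin (2 * (w * (1 / 4))) = 0 := by
    have h1 := Real.sin_two_mul (2 * (w * (1 / 4)))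
    have h2 : Real.sin (2 * (2 * (w * (1 / 4)))) = 0 := by
      have : 2 * (2 * (w * (1 / 4))) = k * Real.pi := by rw [hwd]; ring
      rw [this]
      exact Real.sin_nat_mul_pi k
    linarith
  rw [e1, e2]
  have e4 : Real.cos (2 * (w * (1 / 4))) * (X ^ 2 - Y ^ 2 -
      p * (2 * Real.sin (2 * (w * (1 / 4))) / w)) = Real.cos (2 * (w * (1 / 4))) * (X ^ 2 - Y ^ 2)
      - p * 2 / w * (Real.cos (2 * (w * (1 / 4))) * Real.sin (2 * (w * (1 / 4)))) := by ring
  rw [e4, e3, Real.cos_two_mul, Real.sin_two_mul]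
  have h := Real.sin_sq_add_cos_sq (w * (1 / 4))
  set c := Real.cos (w * (1 / 4))
  set s := Real.sin (w * (1 / 4))
  have hs : s ^ 2 = 1 - c ^ 2 := by linarith
  have : (2 * c ^ 2 - 1) * (X ^ 2 - Y ^ 2) - p * 2 / w * 0 - 2 * s * c * (2 * X * Y) -
      ((c * X - s * Y) ^ 2 - (s * X + c * Y) ^ 2) = (s ^ 2 - (1 - c ^ 2)) * (X ^ 2 - Y ^ 2) := by
    ring
  rw [hs] at this
  linarith

lemma lam_eq {k : ℕ} (hk : 1 ≤ k) :
    2 * Real.sin (Real.pi * k / 2) ^ 2 / (Real.pi * k) = lam k := by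
  have h1 : 2 * Real.sin (Real.pi * k / 2) ^ 2 = 1 - Real.cos (Real.pi * k) := by
    have := Real.cos_two_mul (Real.pi * k / 2)
    have e : 2 * (Real.pi * k / 2) = Real.pi * k := by ring
    rw [e] at this
    have h2 := Real.sin_sq_add_cos_sq (Real.pi * k / 2)
    linarith
  rw [h1]
  unfold lam
  rcases Nat.even_or_odd k with h | h
  · rw [if_neg (by rw [Nat.even_iff] at h; omega)]
    have : Real.cos (Real.pi * k) = 1 := by
      rw [mul_comm, Real.cos_nat_mul_pi, h.neg_one_pow]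
    rw [this]
    simp
  · rw [if_pos (by rw [Nat.odd_iff] at h; omega)]
    have : Real.cos (Real.pi * k) = -1 := by
      rw [mul_comm, Real.cos_nat_mul_pi, h.neg_one_pow]
    rw [this]
    norm_num

lemma D_sn {k : ℕ} (hk : 1 ≤ k) :
    O.D (sn (Real.pi * k) (1 / 2)) = 2 * O.A k * O.B k - p * lam k := by
  have hpi := Real.pi_pos
  have hk0 : (0 : ℝ) < k := by exact_mod_cast hk
  have hw : Real.pi * k ≠ 0 := by positivity
  rw [← lam_eq hk]
  set w := Real.pi * k with hwd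
  unfold Obj.A Obj.B
  rw [← hwd]
  unfold cs sn
  rw [map_add, map_sub, map_add, map_smul, map_smul, map_smul, map_smul, map_smul, map_smul,
    O.D_cos w hw, O.D_sin w hw]
  simp only [smul_eq_mul]
  set X := O.E (cosm w)
  set Y := O.E (sinm w)
  have e1 : w * (1 / 2) = 2 * (w * (1 / 4)) := by ring
  have e2 : w / 2 = 2 * (w * (1 / 4)) := by ring
  rw [e1, e2]
  have e4 : Real.sin (2 * (w * (1 / 4))) * (X ^ 2 - Y ^ 2 -
      p * (2 * Real.sin (2 * (w * (1 / 4))) / w)) = Real.sin (2 * (w * (1 / 4))) * (X ^ 2 - Y ^ 2)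
      - p * (2 * Real.sin (2 * (w * (1 / 4))) ^ 2 / w) := by ring
  rw [e4, Real.cos_two_mul]
  have h := Real.sin_sq_add_cos_sq (w * (1 / 4))
  have h5 := Real.sin_two_mul (w * (1 / 4))
  set S := Real.sin (2 * (w * (1 / 4)))
  set c := Real.cos (w * (1 / 4))
  set s := Real.sin (w * (1 / 4))
  have hs : s ^ 2 = 1 - c ^ 2 := by linarith
  have : 2 * s * c * (X ^ 2 - Y ^ 2) + (2 * c ^ 2 - 1) * (2 * X * Y) -
      2 * (c * X - s * Y) * (s * X + c * Y) = (s ^ 2 - (1 - c ^ 2)) * (2 * X * Y) := by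
    ring
  rw [hs] at this
  have h6 : S * (X ^ 2 - Y ^ 2) = 2 * s * c * (X ^ 2 - Y ^ 2) := by rw [h5]
  linarith

/-- a trigonometric polynomial -/
noncomputable def pol (s : ℝ) (J : ℕ) (c : ℝ) (α β : ℕ → ℝ) : C(ℝ, ℝ) :=
  c • (1 : C(ℝ, ℝ)) + ∑ i ∈ range J, (α i • cs (Real.pi * (i + 1 : ℕ)) s +
    β i • sn (Real.pi * (i + 1 : ℕ)) s)

/-- `e^{i π x}` -/
noncomputable def zz (x : ℝ) : ℂ := Complex.exp ((Real.pi * x : ℝ) * Complex.I)

lemma zz_normSq (x : ℝ) : Complex.normSq (zz x) = 1 := by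
  rw [Complex.normSq_eq_norm_sq]
  unfold zz
  rw [Complex.norm_exp_ofReal_mul_I, one_pow]

lemma zz_pow (x : ℝ) (k : ℕ) :
    zz x ^ k = Complex.exp (((Real.pi * k * x : ℝ) : ℂ) * Complex.I) := by
  unfold zz
  rw [← Complex.exp_nat_mul]
  congr 1
  push_cast
  ring

lemma zz_pow_re (x : ℝ) (k : ℕ) : (zz x ^ k).re = Real.cos (Real.pi * k * x) := by
  rw [zz_pow, Complex.exp_ofReal_mul_I_re]

lemma zz_pow_im (x : ℝ) (k : ℕ) : (zz x ^ k).im = Real.sin (Real.pi * k * x) := by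
  rw [zz_pow, Complex.exp_ofReal_mul_I_im]

lemma pol_apply (s : ℝ) (J : ℕ) (c : ℝ) (α β : ℕ → ℝ) (y : ℝ) :
    pol s J c α β y = c + ∑ i ∈ range J, (α i * (zz (y + s) ^ (i + 1)).re +
      β i * (zz (y + s) ^ (i + 1)).im) := by
  unfold pol
  simp only [ContinuousMap.coe_add, ContinuousMap.coe_smul, ContinuousMap.coe_sum,
    Pi.add_apply, Pi.smul_apply, ContinuousMap.coe_one, Pi.one_apply, smul_eq_mul, mul_one,
    Finset.sum_apply, cs_apply, sn_apply, zz_pow_re, zz_pow_im]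

lemma E_pol (J : ℕ) (c : ℝ) (α β : ℕ → ℝ) :
    O.E (pol (1 / 4) J c α β) = c + ∑ i ∈ range J, (α i * O.A (i + 1) + β i * O.B (i + 1)) := by
  unfold pol
  rw [map_add, map_smul, map_sum, O.E_one, smul_eq_mul, mul_one]
  congr 1
  refine sum_congr rfl fun i _ => ?_
  rw [map_add, map_smul, map_smul, smul_eq_mul, smul_eq_mul]
  rfl

lemma D_pol (J : ℕ) (c : ℝ) (α β : ℕ → ℝ) :
    O.D (pol (1 / 2) J c α β) = c * (1 - p) + ∑ i ∈ range J,
      (α i * (O.A (i + 1) ^ 2 - O.B (i + 1) ^ 2) +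
        β i * (2 * O.A (i + 1) * O.B (i + 1) - p * lam (i + 1))) := by
  unfold pol
  rw [map_add, map_smul, map_sum, O.D_one, smul_eq_mul]
  congr 1
  refine sum_congr rfl fun i _ => ?_
  rw [map_add, map_smul, map_smul, smul_eq_mul, smul_eq_mul, D_cs O (by omega), D_sn O (by omega)]

/-- the disc for the moments -/
lemma disc2 (hp : p < 1) {k : ℕ} (hk : 1 ≤ k) :
    (O.A k ^ 2 - O.B k ^ 2) ^ 2 + (2 * O.A k * O.B k - p * lam k) ^ 2 ≤ (1 - p) ^ 2 := by
  have h1 := D_sq O hp (cs (Real.pi * k) (1 / 2))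
  have h2 := D_sq O hp (sn (Real.pi * k) (1 / 2))
  have h3 : O.D (cs (Real.pi * k) (1 / 2) * cs (Real.pi * k) (1 / 2)) +
      O.D (sn (Real.pi * k) (1 / 2) * sn (Real.pi * k) (1 / 2)) = 1 - p := by
    rw [← map_add, ← O.D_one]
    congr 1
    ext y
    simp only [ContinuousMap.coe_mul, ContinuousMap.coe_add, Pi.mul_apply, Pi.add_apply,
      cs_apply, sn_apply, ContinuousMap.coe_one, Pi.one_apply]
    have := Real.sin_sq_add_cos_sq (Real.pi * k * (y + 1 / 2))
    nlinarith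
  rw [D_cs O hk] at h1
  rw [D_sn O hk] at h2
  have e : ∀ a b : ℝ, a + b = 1 - p → (1 - p) * a + (1 - p) * b = (1 - p) ^ 2 := by
    intro a b h; rw [← mul_add, h]; ring
  have h4 := e _ _ h3
  linarith

theorem feas_obj (O : Obj (625 / 722)) : Feas D12.par O.A O.B := by
  have hD6 : ((D : ℤ) : ℝ) = 1000000 := by norm_num [D]
  have hS : (D12.par.S : ℝ) = 134438 := by norm_num [D12.par]
  have hJ : D12.par.J = 12 := rfl
  have hnum : ∀ k, 1 ≤ k → k ≤ 12 →
      |(D12.par.t k : ℝ) - 1000000 * (625 / 722 * lam k)| ≤ 52 / 100 := by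
    intro k h1 h2
    have := num k h1 h2
    unfold t0 at this
    exact this
  refine ⟨?_, ?_, ?_, ?_⟩
  · -- f0
    unfold Obj.B
    apply O.E_pos
    intro y h1 h2
    rw [sn_apply]
    have hpi := Real.pi_pos
    push_cast
    rw [mul_one]
    apply Real.sin_nonneg_of_nonneg_of_le_pi
    · apply mul_nonneg hpi.le; linarith
    · nlinarith
  · -- f1
    intro h g hh hg
    rw [hJ] at hh hg ⊢
    have e1 : ∀ y : ℝ, pol (1 / 4) 12 ((cr h 0 - ci g 1 : ℤ) : ℝ)
        (fun i => ((2 * cr h (i + 1) + ci g i - ci g (i + 2) : ℤ) : ℝ))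
        (fun i => ((-2 * ci h (i + 1) + cr g i - cr g (i + 2) : ℤ) : ℝ)) y =
        Complex.normSq (hv (zz (y + 1 / 4)) h) +
        (zz (y + 1 / 4)).im * Complex.normSq (hv (zz (y + 1 / 4)) g) := by
      intro y
      rw [ac _ (zz_normSq _) h 12 hh, ac_sin _ (zz_normSq _) g 12 hg, pol_apply]
      have e2 : ∀ k : ℕ, ((2 * cr h (k + 1) + ci g k - ci g (k + 2) : ℤ) : ℝ) *
          (zz (y + 1 / 4) ^ (k + 1)).re + ((-2 * ci h (k + 1) + cr g k - cr g (k + 2) : ℤ) : ℝ) *
          (zz (y + 1 / 4) ^ (k + 1)).im = (2 * (cr h (k + 1) : ℝ) * (zz (y + 1 / 4) ^ (k + 1)).re -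
          2 * (ci h (k + 1) : ℝ) * (zz (y + 1 / 4) ^ (k + 1)).im) +
          (((ci g k - ci g (k + 2) : ℤ) : ℝ) * (zz (y + 1 / 4) ^ (k + 1)).re +
          ((cr g k - cr g (k + 2) : ℤ) : ℝ) * (zz (y + 1 / 4) ^ (k + 1)).im) := by
        intro k
        push_cast
        ring
      rw [sum_congr rfl fun k _ => e2 k, sum_add_distrib]
      push_cast
      ring
    have e3 := E_pol O 12 ((cr h 0 - ci g 1 : ℤ) : ℝ)
        (fun i => ((2 * cr h (i + 1) + ci g i - ci g (i + 2) : ℤ) : ℝ))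
        (fun i => ((-2 * ci h (i + 1) + cr g i - cr g (i + 2) : ℤ) : ℝ))
    rw [← e3]
    apply O.E_pos
    intro y h1 h2
    rw [e1]
    have hpi := Real.pi_pos
    have h3 : 0 ≤ (zz (y + 1 / 4)).im := by
      have := zz_pow_im (y + 1 / 4) 1
      rw [pow_one] at this
      rw [this]
      push_cast
      rw [mul_one]
      apply Real.sin_nonneg_of_nonneg_of_le_pi
      · apply mul_nonneg hpi.le; linarith
      · nlinarith
    have h4 := Complex.normSq_nonneg (hv (zz (y + 1 / 4)) h)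
    have h5 := mul_nonneg h3 (Complex.normSq_nonneg (hv (zz (y + 1 / 4)) g))
    linarith
  · -- f2
    intro q hq
    rw [hJ] at hq ⊢
    set c : ℝ := (cr q 0 : ℝ) with hc
    have hc0 : 0 ≤ c := by
      have := (abs_nonneg _).trans (cr_abs q 0)
      rw [hc]
      exact_mod_cast this
    have h1 : 0 ≤ O.D (pol (1 / 2) 12 c (fun k => 2 * (cr q (k + 1) : ℝ))
        (fun k => -(2 * (ci q (k + 1) : ℝ)))) := by
      apply O.D_pos
      intro y _ _
      have e : pol (1 / 2) 12 c (fun k => 2 * (cr q (k + 1) : ℝ))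
          (fun k => -(2 * (ci q (k + 1) : ℝ))) y = Complex.normSq (hv (zz (y + 1 / 2)) q) := by
        rw [ac _ (zz_normSq _) q 12 hq, pol_apply]
        congr 1
        refine sum_congr rfl fun k _ => ?_
        ring
      rw [e]
      exact Complex.normSq_nonneg _
    rw [D_pol] at h1
    have h2 : ∀ k ∈ range 12, 1000000 * (2 * (cr q (k + 1) : ℝ) *
          (O.A (k + 1) ^ 2 - O.B (k + 1) ^ 2) + -(2 * (ci q (k + 1) : ℝ)) *
          (2 * O.A (k + 1) * O.B (k + 1) - 625 / 722 * lam (k + 1))) - 104 / 100 * c ≤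
        2 * (cr q (k + 1) : ℝ) * (D * (O.A (k + 1) ^ 2 - O.B (k + 1) ^ 2)) -
        2 * (ci q (k + 1) : ℝ) * (D * (2 * O.A (k + 1) * O.B (k + 1)) -
          D12.par.t (k + 1)) := by
      intro k hk
      have hk' := mem_range.mp hk
      have e1 := hnum (k + 1) (by omega) (by omega)
      have e2 : |(ci q (k + 1) : ℝ)| ≤ c := by rw [hc]; exact_mod_cast ci_abs q (k + 1)
      have e3 : |(ci q (k + 1) : ℝ) * ((D12.par.t (k + 1) : ℝ) -
          1000000 * (625 / 722 * lam (k + 1)))| ≤ c * (52 / 100) := by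
        rw [abs_mul]
        exact mul_le_mul e2 e1 (abs_nonneg _) hc0
      have e4 := (abs_le.mp e3).1
      rw [hD6]
      linarith
    have h3 := sum_le_sum h2
    rw [sum_sub_distrib, ← mul_sum, sum_const, card_range, nsmul_eq_mul] at h3
    push_cast at h3 ⊢
    rw [hS]
    have h4 : 1000000 * (c * (1 - 625 / 722)) + 12 * (104 / 100 * c) ≤ c * 134438 := by
      nlinarith
    linarith
  · -- f3
    intro k hk1 hk2
    rw [hJ] at hk2
    rw [hD6, hS]
    have h1 := disc2 O (by norm_num) hk1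
    have h2 := hnum k hk1 hk2
    set A := O.A k with hA
    set B := O.B k with hB
    set X : ℝ := A ^ 2 - B ^ 2 with hXd
    set Y : ℝ := 2 * A * B - 625 / 722 * lam k with hYd
    have h3 : |Y| ≤ 1 - 625 / 722 := by
      apply abs_le_of_sq_le_sq' _ (by norm_num) |> abs_le.mpr
      nlinarith [sq_nonneg X]
    set e : ℝ := (D12.par.t k : ℝ) - 1000000 * (625 / 722 * lam k) with he
    have h4 : 1000000 * (2 * A * B) - D12.par.t k = 1000000 * Y - e := by
      rw [he, hYd]; ring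
    have h5 : (1000000 * X) ^ 2 + (1000000 * Y - e) ^ 2 ≤ 134438 ^ 2 := by
      have h6 : |Y * e| ≤ (1 - 625 / 722) * (52 / 100) := by
        rw [abs_mul]
        exact mul_le_mul h3 h2 (abs_nonneg _) (by norm_num)
      have h7 := (abs_le.mp h6).1
      have h8 : e ^ 2 ≤ (52 / 100) ^ 2 := by
        rw [← sq_abs]
        exact pow_le_pow_left₀ (abs_nonneg _) h2 2
      nlinarith
    rw [← h4] at h5
    nlinarith

/-- there is no limit object for `p = 625 / 722` -/
theorem noObj152 (O : Obj (625 / 722)) : False := sound (feas_obj O) D12.tree D12.tree_ok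

end Pool.Agent.Run7.H247.Dig
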