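import Pool.Agent.Run7.h247.Dig.Riem
import Pool.Agent.Run7.h247.Dig.Moments

/-!
# Sets of integers with many sums: the growth
-/

set_option autoImplicit false

open Finset Filter

namespace Pool.Agent.Run7.H247.Dig

/-- the number of ordered representations -/
def rS (S : Finset ℕ) (m : ℕ) : ℕ := ((S ×ˢ S).filter fun q => q.1 + q.2 = m).card

/-- parity of the number of representations -/
lemma rS_parity (S : Finset ℕ) (m : ℕ) (h : (rS S m) % 2 = 1) : m % 2 = 0 ∧ m / 2 ∈ S := by
  classical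
  by_contra hcon
  have h1 : ∀ q ∈ (S ×ˢ S).filter (fun q => q.1 + q.2 = m), q.1 ≠ q.2 := by
    intro q hq hne
    rw [mem_filter, mem_product] at hq
    apply hcon
    refine ⟨by omega, ?_⟩
    have : m / 2 = q.1 := by omega
    rw [this]
    exact hq.1.1
  set T := (S ×ˢ S).filter (fun q => q.1 + q.2 = m) with hT
  have h2 : T.card = (T.filter fun q => q.1 < q.2).card + (T.filter fun q => ¬ q.1 < q.2).card :=
    (card_filter_add_card_filter_not _).symm
  have h3 : (T.filter fun q => q.1 < q.2).card = (T.filter fun q => ¬ q.1 < q.2).card := by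
    have k1 : ∀ q ∈ T.filter (fun q => q.1 < q.2), (q.2, q.1) ∈ T.filter (fun q => ¬ q.1 < q.2) := by
      intro q hq
      rw [mem_filter] at hq ⊢
      have := hq.1
      rw [hT, mem_filter, mem_product] at this ⊢
      exact ⟨⟨⟨this.1.2, this.1.1⟩, by simp only; omega⟩, by simp only; omega⟩
    have k2 : ∀ q ∈ T.filter (fun q => ¬ q.1 < q.2), (q.2, q.1) ∈ T.filter (fun q => q.1 < q.2) := by
      intro q hq
      rw [mem_filter] at hq ⊢
      have h4 := h1 q hq.1
      have := hq.1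
      rw [hT, mem_filter, mem_product] at this ⊢
      refine ⟨⟨⟨this.1.2, this.1.1⟩, by simp only; omega⟩, ?_⟩
      have h5 := hq.2
      simp only
      omega
    exact card_bij' (fun q _ => (q.2, q.1)) (fun q _ => (q.2, q.1)) k1 k2 (fun _ _ => rfl)
      (fun _ _ => rfl)
  unfold rS at h
  rw [← hT] at h
  omega

lemma conv2 {n h : ℕ} {S : Finset ℕ} (hS : S ⊆ range (n + 1)) {G : ℕ → ℝ} {M : ℝ}
    (hG : ∀ m, m ≤ 2 * n → 0 ≤ G m ∧ G m ≤ M) :
    2 * (h : ℝ) * ∑ m ∈ range n, G m - 2 * h * M *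
      ((((range n).filter fun m => rS S m < 2 * h - 1).card : ℝ) + S.card) ≤
      ∑ i ∈ range (n + 1), ∑ j ∈ range (n + 1),
        (if i ∈ S then (1 : ℝ) else 0) * (if j ∈ S then (1 : ℝ) else 0) * G (i + j) := by
  classical
  have hM : 0 ≤ M := (hG 0 (by omega)).1.trans (hG 0 (by omega)).2
  have h0 : ∑ i ∈ range (n + 1), ∑ j ∈ range (n + 1),
        (if i ∈ S then (1 : ℝ) else 0) * (if j ∈ S then (1 : ℝ) else 0) * G (i + j) =
      ∑ q ∈ S ×ˢ S, G (q.1 + q.2) := by
    rw [sum_product' S S (fun i j => G (i + j))]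
    rw [← sum_subset hS (f := fun i => ∑ j ∈ range (n + 1),
      (if i ∈ S then (1 : ℝ) else 0) * (if j ∈ S then (1 : ℝ) else 0) * G (i + j))]
    · refine sum_congr rfl fun i hi => ?_
      rw [← sum_subset hS (f := fun j => (if i ∈ S then (1 : ℝ) else 0) *
        (if j ∈ S then (1 : ℝ) else 0) * G (i + j))]
      · refine sum_congr rfl fun j hj => ?_
        rw [if_pos hi, if_pos hj]
        ring
      · intro j _ hj
        rw [if_neg hj]
        ring
    · intro i _ hi
      apply sum_eq_zero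
      intro j _
      rw [if_neg hi]
      ring
  rw [h0]
  have h1 : ∑ m ∈ range n, (rS S m : ℝ) * G m ≤ ∑ q ∈ S ×ˢ S, G (q.1 + q.2) := by
    have e1 : ∑ m ∈ range n, (rS S m : ℝ) * G m =
        ∑ q ∈ (S ×ˢ S).filter (fun q => q.1 + q.2 < n), G (q.1 + q.2) := by
      rw [← sum_fiberwise_of_maps_to (g := fun q : ℕ × ℕ => q.1 + q.2) (t := range n)
        (fun q hq => by rw [mem_filter] at hq; exact mem_range.mpr hq.2)]
      refine sum_congr rfl fun m hm => ?_
      have hm' := mem_range.mp hm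
      have e2 : ((S ×ˢ S).filter (fun q => q.1 + q.2 < n)).filter (fun q => q.1 + q.2 = m) =
          (S ×ˢ S).filter (fun q => q.1 + q.2 = m) := by
        ext q
        simp only [mem_filter]
        constructor
        · rintro ⟨⟨h2, _⟩, h3⟩; exact ⟨h2, h3⟩
        · rintro ⟨h2, h3⟩; exact ⟨⟨h2, by omega⟩, h3⟩
      rw [e2]
      have e3 : ∀ q ∈ (S ×ˢ S).filter (fun q => q.1 + q.2 = m), G (q.1 + q.2) = G m := by
        intro q hq
        rw [(mem_filter.mp hq).2]
      rw [sum_congr rfl e3, sum_const, nsmul_eq_mul]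
      rfl
    rw [e1]
    apply sum_le_sum_of_subset_of_nonneg (filter_subset _ _)
    intro q hq _
    rw [mem_product] at hq
    have h2 := mem_range.mp (hS hq.1)
    have h3 := mem_range.mp (hS hq.2)
    exact (hG _ (by omega)).1
  refine le_trans ?_ h1
  have h2 : ∀ m ∈ range n, 2 * (h : ℝ) * G m - 2 * h * M *
      ((if rS S m < 2 * h - 1 then (1 : ℝ) else 0) +
        (if m % 2 = 0 ∧ m / 2 ∈ S then (1 : ℝ) else 0)) ≤ (rS S m : ℝ) * G m := by
    intro m hm
    have hm' := mem_range.mp hm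
    obtain ⟨g0, g1⟩ := hG m (by omega)
    have hh : (0 : ℝ) ≤ 2 * h := by positivity
    have hL : 0 ≤ (rS S m : ℝ) * G m := mul_nonneg (Nat.cast_nonneg _) g0
    have hle : 2 * (h : ℝ) * G m ≤ 2 * h * M := mul_le_mul_of_nonneg_left g1 hh
    have hM2 : 0 ≤ 2 * (h : ℝ) * M := mul_nonneg hh hM
    by_cases c1 : rS S m < 2 * h - 1
    · rw [if_pos c1]
      split_ifs
      · nlinarith
      · linarith
    · rw [if_neg c1]
      by_cases c2 : 2 * h ≤ rS S m
      · have : (2 * (h : ℝ)) * G m ≤ (rS S m : ℝ) * G m := by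
          apply mul_le_mul_of_nonneg_right _ g0
          exact_mod_cast c2
        split_ifs
        · linarith
        · linarith
      · have h3 := rS_parity S m (by omega)
        rw [if_pos h3]
        linarith
  have h3 := sum_le_sum h2
  refine le_trans ?_ h3
  rw [sum_sub_distrib, ← mul_sum, ← mul_sum, sum_add_distrib, sum_boole]
  have h4 : ∑ m ∈ range n, (if m % 2 = 0 ∧ m / 2 ∈ S then (1 : ℝ) else 0) ≤ S.card := by
    rw [sum_boole]
    have : ((range n).filter fun m => m % 2 = 0 ∧ m / 2 ∈ S).card ≤ S.card := by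
      apply card_le_card_of_injOn (fun m => m / 2)
      · intro m hm
        simp only [coe_filter, mem_range, Set.mem_ofPred_eq] at hm
        exact hm.2.2
      · intro a ha c hc hac
        simp only [coe_filter, mem_range, Set.mem_ofPred_eq] at ha hc
        simp only at hac
        omega
    exact_mod_cast this
  have h5 : 0 ≤ 2 * (h : ℝ) * M := by positivity
  have h6 := mul_le_mul_of_nonneg_left h4 h5
  linarith

/-- the counting bound -/
lemma count2 {n h : ℕ} (hh : 1 ≤ h) {S : Finset ℕ} :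
    (n : ℝ) - ((range n).filter fun m => rS S m < 2 * h - 1).card ≤ (S.card : ℝ) ^ 2 := by
  classical
  have h1 : (range n).filter (fun m => ¬ rS S m < 2 * h - 1) ⊆
      (S ×ˢ S).image (fun q => q.1 + q.2) := by
    intro m hm
    rw [mem_filter] at hm
    have h2 : 0 < rS S m := by omega
    obtain ⟨q, hq⟩ := card_pos.mp h2
    rw [mem_filter] at hq
    exact mem_image.mpr ⟨q, hq.1, hq.2⟩
  have h2 := (card_le_card h1).trans card_image_le
  rw [card_product] at h2
  have h3 := card_filter_add_card_filter_not (s := range n) (fun m => rS S m < 2 * h - 1)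
  rw [card_range] at h3
  have h4 : (n : ℝ) = (((range n).filter fun m => rS S m < 2 * h - 1).card : ℝ) +
      ((range n).filter fun m => ¬ rS S m < 2 * h - 1).card := by exact_mod_cast h3.symm
  have h5 : (((range n).filter fun m => ¬ rS S m < 2 * h - 1).card : ℝ) ≤ S.card * S.card := by
    exact_mod_cast h2
  nlinarith

theorem growth {h : ℕ} (hh : 1 ≤ h) : ∃ δ : ℝ, 0 < δ ∧ ∃ n0 : ℕ, ∀ n : ℕ, n0 ≤ n →
    ∀ S : Finset ℕ, S ⊆ range (n + 1) →
      (((range n).filter fun m => rS S m < 2 * h - 1).card : ℝ) ≤ δ * n →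
      1444 / 625 * (h : ℝ) * n ≤ (S.card : ℝ) ^ 2 := by
  classical
  by_contra hcon
  push Not at hcon
  have hex : ∀ k : ℕ, ∃ᶠ n : ℕ in atTop, ∃ S : Finset ℕ, S ⊆ range (n + 1) ∧
      (((range n).filter fun m => rS S m < 2 * h - 1).card : ℝ) ≤ 1 / ((k : ℝ) + 2) * n ∧
      (S.card : ℝ) ^ 2 < 1444 / 625 * (h : ℝ) * n := by
    intro k
    rw [frequently_atTop]
    intro a
    obtain ⟨n, h1, S, h2, h3, h4⟩ := hcon (1 / ((k : ℝ) + 2)) (by positivity) a
    exact ⟨n, h1, S, h2, h3, h4⟩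
  obtain ⟨φ, hφ, hT⟩ := extraction_forall_of_frequently hex
  choose T hT1 hT2 hT3 using hT
  set U : Ultrafilter ℕ := Ultrafilter.of (map φ atTop) with hUdef
  have hUle : (U : Filter ℕ) ≤ map φ atTop := Ultrafilter.of_le _
  have hU : (U : Filter ℕ) ≤ atTop := hUle.trans hφ.tendsto_atTop
  set S : ℕ → Finset ℕ := fun n => T (Function.invFun φ n) with hSdef
  have hinv : ∀ k, Function.invFun φ (φ k) = k := Function.leftInverse_invFun hφ.injective
  have hev : ∀ P : ℕ → Prop, (∀ᶠ k in atTop, P (φ k)) → ∀ᶠ n in (U : Filter ℕ), P n :=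
    fun P hP => hUle hP
  have hall : ∀ᶠ n in (U : Filter ℕ), S n ⊆ range (n + 1) ∧
      (S n).card ^ 2 < 1444 / 625 * (h : ℝ) * n ∧ (n : ℝ) / 2 ≤ ((S n).card : ℝ) ^ 2 := by
    apply hev
    refine Eventually.of_forall fun k => ?_
    have e : S (φ k) = T k := by simp only [hSdef, hinv]
    rw [e]
    refine ⟨hT1 k, hT3 k, ?_⟩
    have h1 := count2 (n := φ k) hh (S := T k)
    have h2 := hT2 k
    have h3 : 1 / ((k : ℝ) + 2) * (φ k : ℝ) ≤ 1 / 2 * (φ k : ℝ) := by
      apply mul_le_mul_of_nonneg_right _ (Nat.cast_nonneg _)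
      apply one_div_le_one_div_of_le (by norm_num)
      have : (0 : ℝ) ≤ k := Nat.cast_nonneg _
      linarith
    linarith
  have hdel : ∀ ε : ℝ, 0 < ε → ∀ᶠ n in (U : Filter ℕ),
      (((range n).filter fun m => rS (S n) m < 2 * h - 1).card : ℝ) ≤ ε * n := by
    intro ε hε
    apply hev
    obtain ⟨k0, hk0⟩ := exists_nat_ge (1 / ε)
    filter_upwards [eventually_ge_atTop k0] with k hk
    have e : S (φ k) = T k := by simp only [hSdef, hinv]
    rw [e]
    refine (hT2 k).trans ?_
    apply mul_le_mul_of_nonneg_right _ (Nat.cast_nonneg _)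
    rw [div_le_iff₀ (by positivity)]
    rw [div_le_iff₀ hε] at hk0
    have : (k0 : ℝ) ≤ k := by exact_mod_cast hk
    nlinarith
  have hKc : ∀ᶠ n in (U : Filter ℕ),
      Kw (fun n i => if i ∈ S n then (1 : ℝ) else 0) n = ((S n).card : ℝ) := by
    filter_upwards [hall] with n hn
    unfold Kw
    rw [sum_boole]
    congr 2
    ext i
    rw [mem_filter]
    exact ⟨fun h => h.2, fun h => ⟨hn.1 h, h⟩⟩
  have hKtop : ∀ c : ℝ, ∀ᶠ n in (U : Filter ℕ), c ≤ ((S n).card : ℝ) := by
    intro c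
    have h1 : ∀ᶠ n : ℕ in (U : Filter ℕ), 2 * c ^ 2 ≤ (n : ℝ) :=
      hU (tendsto_natCast_atTop_atTop.eventually_ge_atTop (2 * c ^ 2))
    filter_upwards [h1, hall] with n hn hn2
    have h3 : c ^ 2 ≤ ((S n).card : ℝ) ^ 2 := by linarith [hn2.2.2]
    exact (le_abs_self c).trans ((sq_le_sq.mp h3).trans
      (le_of_eq (abs_of_nonneg (Nat.cast_nonneg _))))
  refine (obj_of_conv (p := 625 / 722) (by norm_num) U hU
    (x := fun n i => if i ∈ S n then (1 : ℝ) else 0) (fun _ _ => by split_ifs <;> norm_num)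
    ?_ ?_).elim noObj152
  · filter_upwards [hKc, hKtop 1] with n h1 h2
    rw [h1]
    linarith
  intro M ε hM hε
  refine ⟨1, one_pos, ?_⟩
  have hhR : (0 : ℝ) < h := by exact_mod_cast hh
  filter_upwards [hall, hKc, hKtop (4 * h * M / ε), hdel (ε / (8 * h * M)) (by positivity),
    hU (eventually_gt_atTop 0)] with n hn hK hKb hde hn0
  intro G hG _
  rw [hK]
  have hn' : (0 : ℝ) < n := by exact_mod_cast hn0
  obtain ⟨a1, a2, a3⟩ := hn
  refine le_trans ?_ (conv2 (h := h) a1 hG)
  set K : ℝ := ((S n).card : ℝ) with hKd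
  set bd : ℝ := (((range n).filter fun m => rS (S n) m < 2 * h - 1).card : ℝ) with hbd
  have hsum : 0 ≤ ∑ m ∈ range n, G m := sum_nonneg fun m hm => by
    have := mem_range.mp hm
    exact (hG m (by omega)).1
  have b1 : 625 / 722 * ((∑ m ∈ range n, G m) / n) * K ^ 2 ≤ 2 * (h : ℝ) * ∑ m ∈ range n, G m := by
    have : 625 / 722 * ((∑ m ∈ range n, G m) / n) * K ^ 2 =
        (625 / 722 * K ^ 2 / n) * ∑ m ∈ range n, G m := by ring
    rw [this]
    apply mul_le_mul_of_nonneg_right _ hsum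
    rw [div_le_iff₀ hn']
    linarith
  have hKpos : 0 < K := by
    have : (0 : ℝ) < 4 * h * M / ε := by positivity
    linarith
  have b2 : 2 * (h : ℝ) * M * K ≤ ε / 2 * K ^ 2 := by
    rw [div_le_iff₀ hε] at hKb
    nlinarith
  have b3 : 2 * (h : ℝ) * M * bd ≤ ε / 2 * K ^ 2 := by
    have h1 : 2 * (h : ℝ) * M * bd ≤ 2 * (h : ℝ) * M * (ε / (8 * h * M) * n) :=
      mul_le_mul_of_nonneg_left hde (by positivity)
    have h2 : 2 * (h : ℝ) * M * (ε / (8 * h * M) * n) = ε / 4 * n := by field_simp; norm_num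
    rw [h2] at h1
    nlinarith
  have b4 : (625 / 722 * ((∑ m ∈ range n, G m) / n) - ε) * K ^ 2 =
      625 / 722 * ((∑ m ∈ range n, G m) / n) * K ^ 2 - ε * K ^ 2 := by ring
  rw [b4]
  linarith

end Pool.Agent.Run7.H247.Dig
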