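import Pool.Agent.Run7.h247.Dig.Riem
import Pool.Agent.Run7.h247.Dig.NoObj
import Pool.Agent.H820R3.DG.Quad

/-!
# Digit sums of quadratic irrationals
-/

set_option autoImplicit false
set_option linter.unusedSectionVars false

open Finset Filter

namespace Pool.Agent.Run7.H247.Dig

open Pool.Agent.H394R2.Ones Pool.Agent.H820R3.DG

section
variable {b : ℕ} {y : ℝ}

lemma rG_le (n : ℕ) {G : ℕ → ℝ} (hG : ∀ m, m ≤ 2 * n → 0 ≤ G m) :
    ∑ m ∈ range (n + 1), (r b y m : ℝ) * G m ≤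
      ∑ i ∈ range (n + 1), ∑ j ∈ range (n + 1), (x b y i : ℝ) * x b y j * G (i + j) := by
  rw [← sum_product', pair_sum n (fun i j => (x b y i : ℝ) * x b y j * G (i + j))]
  have h1 : ∀ m ∈ range (n + 1), ∑ p ∈ antidiagonal m,
      (x b y p.1 : ℝ) * x b y p.2 * G (p.1 + p.2) = (r b y m : ℝ) * G m := by
    intro m _
    unfold r
    push_cast
    rw [sum_mul]
    refine sum_congr rfl fun p hp => ?_
    rw [HasAntidiagonal.mem_antidiagonal.mp hp]
  rw [sum_congr rfl h1]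
  refine le_add_of_nonneg_right (sum_nonneg fun p hp => ?_)
  simp only [mem_filter, mem_product, mem_range] at hp
  exact mul_nonneg (by positivity) (hG _ (by omega))

lemma rG_eq (hb : 2 ≤ b) (hy0 : 0 < y) (hy1 : y < 1) (G : ℕ → ℝ) (n : ℕ) :
    ∑ m ∈ range (n + 1), (r b y m : ℝ) * G m =
      ∑ m ∈ range n, T b y m * (b * G (m + 1) - G m) + T b y 0 * G 0 - T b y n * G n := by
  induction n with
  | zero => simp [r_zero hy0 hy1]
  | succ n ih =>
    rw [sum_range_succ, ih, sum_range_succ _ n]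
    have h1 := T_succ hb hy0 hy1 (b := b) n
    have h2 : (r b y (n + 1) : ℝ) = b * T b y n - T b y (n + 1) := by linarith
    rw [h2]
    ring

lemma T_sum (hb : 2 ≤ b) (hy0 : 0 < y) (hy1 : y < 1) (hirr : Irrational y) (n : ℕ) :
    ∑ m ∈ range n, T b y m ≤ (K b y n : ℝ) ^ 2 + K b y n + 1 := by
  have hbR : (2 : ℝ) ≤ b := by exact_mod_cast hb
  have h1 := rG_eq hb hy0 hy1 (fun _ => 1) n
  have h2 := rG_le (b := b) (y := y) n (G := fun _ => 1) (fun _ _ => by norm_num)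
  have h3 : ∑ i ∈ range (n + 1), ∑ j ∈ range (n + 1), (x b y i : ℝ) * x b y j * 1 =
      (K b y n : ℝ) ^ 2 := by
    unfold K
    push_cast
    rw [pow_two, sum_mul_sum]
    simp only [mul_one]
  have h4 := T_le hb hy0 hy1 (b := b) n
  have h5 := T_pos hb hy0 hy1 hirr 0
  have h6 : ∑ m ∈ range n, T b y m * (b * 1 - 1) = ((b : ℝ) - 1) * ∑ m ∈ range n, T b y m := by
    rw [mul_sum]
    exact sum_congr rfl fun m _ => by ring
  have h7 : 0 ≤ ∑ m ∈ range n, T b y m := sum_nonneg fun m _ => (T_pos hb hy0 hy1 hirr m).le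
  rw [h6] at h1
  rw [h3] at h2
  nlinarith

/-- the weighted representation numbers against a slowly varying weight -/
lemma conv_lower (hb : 2 ≤ b) (hy0 : 0 < y) (hy1 : y < 1) (hirr : Irrational y) {τ D M e : ℝ}
    {d : ℕ → ℝ} {n : ℕ} (hd : ∀ m, 0 ≤ d m) (hT : ∀ m, τ - d m ≤ T b y m)
    (hD : ∑ m ∈ range n, d m ≤ D) (he : 0 ≤ e) {G : ℕ → ℝ}
    (hG : ∀ m, m ≤ 2 * n → 0 ≤ G m ∧ G m ≤ M) (hG' : ∀ m, m < n → |G (m + 1) - G m| ≤ e) :
    ((b : ℝ) - 1) * τ * ∑ m ∈ range n, G m - b * e * ((K b y n : ℝ) ^ 2 + K b y n + 1) -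
      ((b : ℝ) - 1) * M * D - M * (K b y n + 1) ≤
      ∑ i ∈ range (n + 1), ∑ j ∈ range (n + 1), (x b y i : ℝ) * x b y j * G (i + j) := by
  have hbR : (2 : ℝ) ≤ b := by exact_mod_cast hb
  refine le_trans ?_ (rG_le n (fun m hm => (hG m hm).1))
  rw [rG_eq hb hy0 hy1]
  have hM : 0 ≤ M := (hG 0 (by omega)).1.trans (hG 0 (by omega)).2
  have hterm : ∀ m ∈ range n, ((b : ℝ) - 1) * τ * G m - ((b : ℝ) - 1) * M * d m -
      b * e * T b y m ≤ T b y m * (b * G (m + 1) - G m) := by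
    intro m hm
    have hmn := Finset.mem_range.mp hm
    have hTp := (T_pos hb hy0 hy1 hirr m).le
    obtain ⟨g0, g1⟩ := hG m (by omega)
    have h1 := (abs_le.mp (hG' m hmn)).1
    have h2 : -(b * e * T b y m) ≤ b * T b y m * (G (m + 1) - G m) := by
      have h3 : 0 ≤ b * T b y m := by positivity
      nlinarith
    have h4 : (τ - d m) * G m ≤ T b y m * G m := mul_le_mul_of_nonneg_right (hT m) g0
    have h5 : d m * G m ≤ M * d m := by
      rw [mul_comm]; exact mul_le_mul_of_nonneg_right g1 (hd m)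
    have h6 : ((b : ℝ) - 1) * (τ * G m - M * d m) ≤ ((b : ℝ) - 1) * (T b y m * G m) := by
      apply mul_le_mul_of_nonneg_left _ (by linarith)
      linarith
    have e1 : T b y m * (b * G (m + 1) - G m) =
      ((b : ℝ) - 1) * (T b y m * G m) + b * T b y m * (G (m + 1) - G m) := by ring
    rw [e1]
    linarith
  have hs := sum_le_sum hterm
  rw [sum_sub_distrib, sum_sub_distrib, ← mul_sum, ← mul_sum, ← mul_sum] at hs
  have h1 := T_sum hb hy0 hy1 hirr n
  have h2 : b * e * ∑ m ∈ range n, T b y m ≤ b * e * ((K b y n : ℝ) ^ 2 + K b y n + 1) :=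
    mul_le_mul_of_nonneg_left h1 (by positivity)
  have h3 : ((b : ℝ) - 1) * M * ∑ m ∈ range n, d m ≤ ((b : ℝ) - 1) * M * D :=
    mul_le_mul_of_nonneg_left hD (mul_nonneg (by linarith) hM)
  have h4 : T b y n * G n ≤ M * (K b y n + 1) := by
    have h5 := T_le hb hy0 hy1 (b := b) n
    obtain ⟨g0, g1⟩ := hG n (by omega)
    have h6 := (T_pos hb hy0 hy1 hirr n).le
    calc T b y n * G n ≤ (K b y n + 1) * M :=
          mul_le_mul h5 g1 g0 (by positivity)
      _ = _ := by ring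
  have h5 : 0 ≤ T b y 0 * G 0 :=
    mul_nonneg (T_pos hb hy0 hy1 hirr 0).le (hG 0 (by omega)).1
  linarith

/-- digit sums of quadratic irrationals in `(0, 1)` -/
theorem main_unit (hb : 2 ≤ b) (hy0 : 0 < y) (hy1 : y < 1) (hirr : Irrational y) {A B C : ℤ}
    (hA : 0 < A) (hq : (A : ℝ) * y ^ 2 + B * y + C = 0) :
    ∃ n0 : ℕ, ∀ n : ℕ, n0 ≤ n →
      ((b : ℝ) - 1) * (((Int.gcd b (2 * A) : ℕ) : ℝ) / A) * n ≤
        9069 / 10000 * (K b y n : ℝ) ^ 2 := by
  have hbR : (2 : ℝ) ≤ b := by exact_mod_cast hb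
  have hAR : (1 : ℝ) ≤ A := by exact_mod_cast hA
  have halg : IsAlgebraic ℚ y := by
    refine ⟨Polynomial.C (A : ℚ) * Polynomial.X ^ 2 + Polynomial.C (B : ℚ) * Polynomial.X +
      Polynomial.C (C : ℚ), ?_, ?_⟩
    · intro h
      have h1 := congrArg (fun p => Polynomial.coeff p 2) h
      simp only [Polynomial.coeff_add, Polynomial.coeff_C_mul, Polynomial.coeff_X_pow,
        Polynomial.coeff_X, Polynomial.coeff_C, Polynomial.coeff_zero] at h1
      norm_num at h1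
      omega
    · simp only [map_add, map_mul, map_pow, Polynomial.aeval_X, Polynomial.aeval_C]
      simpa using hq
  set g : ℕ := Int.gcd b (2 * A) with hg
  have hg0 : 0 < g := Nat.pos_of_ne_zero (by
    rw [hg]
    intro h
    have := (Int.gcd_eq_zero_iff.mp h).1
    omega)
  set τ : ℝ := (g : ℝ) / A with hτ
  have hτ0 : 0 < τ := by
    have : (0 : ℝ) < g := by exact_mod_cast hg0
    positivity
  have hB0 : 0 ≤ |(B : ℝ)| := abs_nonneg _
  by_contra hcon
  push Not at hcon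
  -- growth of the digit sum
  set κ : ℝ := 7 * Real.sqrt (((b : ℝ) - 1) * g / (48 * A)) with hκ
  have hκ0 : 0 < κ := by
    have : 0 < ((b : ℝ) - 1) * g / (48 * A) := by
      have h1 : (0 : ℝ) < (b : ℝ) - 1 := by linarith
      have : (0 : ℝ) < g := by exact_mod_cast hg0
      positivity
    have := Real.sqrt_pos.mpr this
    positivity
  obtain ⟨n1, hn1⟩ := quad_main hb hy0 hy1 hirr hA hq (κ / 2) (by positivity)
  have hgrow : ∀ᶠ n : ℕ in atTop, κ ^ 2 / 4 * n ≤ (K b y n : ℝ) ^ 2 := by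
    filter_upwards [eventually_ge_atTop n1] with n hn
    have h1 := hn1 n hn
    have h2 : κ / 2 * Real.sqrt n ≤ K b y n := by
      have e : κ - κ / 2 = κ / 2 := by ring
      rw [← hg, ← hκ, e] at h1
      exact h1
    have h3 : (κ / 2 * Real.sqrt n) ^ 2 ≤ (K b y n : ℝ) ^ 2 :=
      pow_le_pow_left₀ (by positivity) h2 2
    rw [mul_pow, Real.sq_sqrt (Nat.cast_nonneg n)] at h3
    linarith
  have hKtop : Tendsto (fun n : ℕ => (K b y n : ℝ)) atTop atTop := by
    have h1 : Tendsto (fun n : ℕ => (K b y n : ℝ) ^ 2) atTop atTop :=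
      tendsto_atTop_mono' _ hgrow
        (Tendsto.const_mul_atTop (by positivity) tendsto_natCast_atTop_atTop)
    rw [tendsto_atTop] at h1 ⊢
    intro c
    filter_upwards [h1 (c ^ 2)] with n hn
    exact le_of_sq_le_sq hn (Nat.cast_nonneg _)
  -- the ultrafilter
  set bad : Set ℕ := {n | 9069 / 10000 * (K b y n : ℝ) ^ 2 < ((b : ℝ) - 1) * τ * n} with hbad
  have hfreq : ∃ᶠ n in atTop, n ∈ bad := by
    rw [frequently_atTop]
    intro a
    obtain ⟨n, h1, h2⟩ := hcon a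
    exact ⟨n, h1, h2⟩
  have hne : NeBot (atTop ⊓ 𝓟 bad) := frequently_mem_iff_neBot.mp hfreq
  set U : Ultrafilter ℕ := Ultrafilter.of (atTop ⊓ 𝓟 bad) with hUdef
  have hUle : (U : Filter ℕ) ≤ atTop ⊓ 𝓟 bad := Ultrafilter.of_le _
  have hU : (U : Filter ℕ) ≤ atTop := hUle.trans inf_le_left
  have hUbad : ∀ᶠ n in (U : Filter ℕ), n ∈ bad :=
    hUle.trans inf_le_right (mem_principal_self bad)
  have hKw : ∀ n, Kw (fun _ i => (x b y i : ℝ)) n = K b y n := by
    intro n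
    unfold Kw K
    push_cast
    rfl
  refine (obj_of_conv (p := 9069 / 10000) (by norm_num) U hU
    (x := fun _ i => (x b y i : ℝ)) (fun _ _ => Nat.cast_nonneg _) ?_ ?_).elim noObj
  · have := hU (hKtop.eventually_gt_atTop 0)
    filter_upwards [this] with n hn
    rw [hKw]
    exact hn
  intro M ε hM hε
  have hb1 : 0 < (b : ℝ) - 1 := by linarith
  -- parameters
  set e : ℝ := ε / (12 * b) with he
  have he0 : 0 < e := by positivity
  set δ : ℝ := min (1 / 4) (ε * κ ^ 2 / (16 * (((b : ℝ) - 1) * M * τ))) with hδ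
  have hδ0 : 0 < δ := by positivity
  have hδ1 : δ ≤ 1 / 4 := min_le_left _ _
  have hδ2 : δ * (16 * (((b : ℝ) - 1) * M * τ)) ≤ ε * κ ^ 2 := by
    rw [← le_div_iff₀ (by positivity)]; exact min_le_right _ _
  obtain ⟨C1, hC10, hC1⟩ := bad_count hb hy0 hy1 halg hirr |(B : ℝ)| δ hδ0 hδ1
  set C2 : ℝ := |(B : ℝ)| + 2 * τ + τ * C1 + τ with hC2
  have hC20 : 0 ≤ C2 := by positivity
  refine ⟨e, he0, ?_⟩
  set Q : ℝ := 8 * (((b : ℝ) - 1) * M * C2 + M) / ε with hQ
  filter_upwards [hUbad, hU hgrow, hU (hKtop.eventually_ge_atTop Q),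
    hU (hKtop.eventually_ge_atTop 1), hU (eventually_gt_atTop 0)] with n hnb hng hnQ hn1' hn0
  intro G hG hG'
  rw [hKw]
  have hn' : (0 : ℝ) < n := by exact_mod_cast hn0
  set Kn : ℝ := (K b y n : ℝ) with hKn
  have hD : ∑ m ∈ range n, dd b y τ |(B : ℝ)| m ≤ C2 * (Kn + 1) + τ * δ * n := by
    unfold dd
    rw [sum_add_distrib, sum_add_distrib, sum_add_distrib, ← mul_sum, ← mul_sum, ← mul_sum,
      sum_add_distrib]
    have h1 := ep_sum (b := b) hb hy0 hy1 n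
    have h2 : (∑ m ∈ range n, (x b y m : ℝ)) ≤ K b y n := by
      unfold K
      exact_mod_cast sum_le_sum_of_subset (range_mono (Nat.le_succ n))
    have h3 : (∑ m ∈ range n, (exc b y m : ℝ)) ≤ K b y n := by
      exact_mod_cast exc_sum b y n
    have h4 : (∑ m ∈ range n, (if T b y m ≤ |(B : ℝ)| * ep b y m then (1 : ℝ) else 0)) ≤
        C1 * (K b y n + 1) + δ * n := by
      have h5 := hC1 n
      rw [card_filter] at h5
      push_cast at h5
      exact h5
    have h5 := few_sum 0 n τ hτ0.le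
    rw [Nat.cast_zero, zero_add, mul_one] at h5
    have h6 := mul_le_mul_of_nonneg_left h1 hB0
    have h7 := mul_le_mul_of_nonneg_left (add_le_add h2 h3) hτ0.le
    have h8 := mul_le_mul_of_nonneg_left h4 hτ0.le
    have h9 : 0 ≤ τ * Kn := mul_nonneg hτ0.le (Nat.cast_nonneg _)
    have e : C2 * (Kn + 1) = |(B : ℝ)| * (Kn + 1) + 2 * (τ * Kn) + 2 * τ +
        τ * (C1 * (Kn + 1)) + τ * Kn + τ := by rw [hC2]; ring
    rw [e]
    linarith
  have hmain := conv_lower hb hy0 hy1 hirr (τ := τ) (n := n)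
    (fun m => dd_nonneg hy0 hτ0.le hB0 m) (fun m => T_lower' hb hy0 hy1 hirr hA hq m) hD he0.le
    hG hG'
  refine le_trans ?_ hmain
  rw [← hKn]
  have hSG : 0 ≤ ∑ m ∈ range n, G m := sum_nonneg fun m hm =>
    (hG m (by have := Finset.mem_range.mp hm; omega)).1
  have hK2 : (1 : ℝ) ≤ Kn ^ 2 := one_le_pow₀ hn1'
  have hKK : Kn ≤ Kn ^ 2 := le_self_pow₀ hn1' (by norm_num)
  -- first error
  have g1 : b * e * (Kn ^ 2 + Kn + 1) ≤ ε / 4 * Kn ^ 2 := by
    have e1 : b * e = ε / 12 := by rw [he]; field_simp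
    rw [e1]
    nlinarith
  -- second error
  have g2 : ((b : ℝ) - 1) * M * (τ * δ * n) ≤ ε / 4 * Kn ^ 2 := by
    have e1 : ((b : ℝ) - 1) * M * (τ * δ * n) = δ * (16 * (((b : ℝ) - 1) * M * τ)) * (n / 16) := by
      ring
    rw [e1]
    have e2 : δ * (16 * (((b : ℝ) - 1) * M * τ)) * (n / 16) ≤ ε * κ ^ 2 * (n / 16) :=
      mul_le_mul_of_nonneg_right hδ2 (by positivity)
    have e3 : ε * κ ^ 2 * (n / 16) = ε / 4 * (κ ^ 2 / 4 * n) := by ring
    rw [e3] at e2
    exact e2.trans (mul_le_mul_of_nonneg_left hng (by positivity))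
  -- third error
  have g3 : ((b : ℝ) - 1) * M * (C2 * (Kn + 1)) + M * (Kn + 1) ≤ ε / 4 * Kn ^ 2 := by
    have e1 : ((b : ℝ) - 1) * M * (C2 * (Kn + 1)) + M * (Kn + 1) =
        (((b : ℝ) - 1) * M * C2 + M) * (Kn + 1) := by ring
    rw [e1]
    have e2 : 8 * (((b : ℝ) - 1) * M * C2 + M) ≤ Kn * ε := by
      rw [hQ, div_le_iff₀ hε] at hnQ
      exact hnQ
    have e3 : Kn + 1 ≤ 2 * Kn := by linarith
    have e4 : 0 ≤ ((b : ℝ) - 1) * M * C2 + M := by positivity
    calc (((b : ℝ) - 1) * M * C2 + M) * (Kn + 1) ≤ (((b : ℝ) - 1) * M * C2 + M) * (2 * Kn) :=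
          mul_le_mul_of_nonneg_left e3 e4
      _ = 8 * (((b : ℝ) - 1) * M * C2 + M) * (Kn / 4) := by ring
      _ ≤ Kn * ε * (Kn / 4) := mul_le_mul_of_nonneg_right e2 (by positivity)
      _ = _ := by ring
  -- main term
  have g4 : 9069 / 10000 * ((∑ m ∈ range n, G m) / n) * Kn ^ 2 ≤
      ((b : ℝ) - 1) * τ * ∑ m ∈ range n, G m := by
    have e1 : 9069 / 10000 * ((∑ m ∈ range n, G m) / n) * Kn ^ 2 =
        (9069 / 10000 * Kn ^ 2) * ((∑ m ∈ range n, G m) / n) := by ring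
    have e2 : ((b : ℝ) - 1) * τ * ∑ m ∈ range n, G m =
        ((b : ℝ) - 1) * τ * n * ((∑ m ∈ range n, G m) / n) := by field_simp
    rw [e1, e2]
    exact mul_le_mul_of_nonneg_right (le_of_lt hnb) (div_nonneg hSG hn'.le)
  have g5 : ((b : ℝ) - 1) * M * (C2 * (Kn + 1) + τ * δ * n) =
    ((b : ℝ) - 1) * M * (C2 * (Kn + 1)) + ((b : ℝ) - 1) * M * (τ * δ * n) := by ring
  rw [g5, sub_mul]
  have g6 : 0 ≤ ε / 4 * Kn ^ 2 := by positivity
  have g7 : ε * Kn ^ 2 = 4 * (ε / 4 * Kn ^ 2) := by ring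
  rw [g7]
  linarith

end

end Pool.Agent.Run7.H247.Dig
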