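import Pool.Agent.Run7.h247.Dig.Obj

/-!
# Limit objects from finite weights
-/

set_option autoImplicit false

open Set Filter Topology Finset

namespace Pool.Agent.Run7.H247.Dig

lemma bdd_lim (U : Ultrafilter ℕ) {a : ℕ → ℝ} {B : ℝ} (h : ∀ n, |a n| ≤ B) :
    Tendsto a (U : Filter ℕ) (𝓝 (limUnder (U : Filter ℕ) a)) := by
  have h1 : Icc (-B) B ∈ (U.map a : Filter ℝ) := by
    rw [Ultrafilter.mem_coe, Ultrafilter.mem_map]
    exact Filter.univ_mem' (fun n => abs_le.mp (h n))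
  obtain ⟨l, _, hl⟩ := isCompact_Icc.ultrafilter_le_nhds (U.map a) (by
    rw [le_principal_iff]; exact h1)
  have h2 : Tendsto a (U : Filter ℕ) (𝓝 l) := hl
  rw [h2.limUnder_eq]
  exact h2

variable (x : ℕ → ℕ → ℝ)

/-- total weight -/
noncomputable def Kw (n : ℕ) : ℝ := ∑ i ∈ range (n + 1), x n i

/-- expectation -/
noncomputable def En (n : ℕ) (f : ℝ → ℝ) : ℝ :=
  (∑ i ∈ range (n + 1), x n i * f ((i : ℝ) / n - 1 / 4)) / Kw x n

/-- expectation for the self convolution -/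
noncomputable def Sn (n : ℕ) (f : ℝ → ℝ) : ℝ :=
  (∑ i ∈ range (n + 1), ∑ j ∈ range (n + 1), x n i * x n j * f (((i : ℝ) + j) / n - 1 / 2)) /
    Kw x n ^ 2

section
variable {x} (hx : ∀ n i, 0 ≤ x n i)

lemma frac_mem {n i : ℕ} (h : i ∈ range (n + 1)) : 0 ≤ (i : ℝ) / n ∧ (i : ℝ) / n ≤ 1 := by
  refine ⟨by positivity, div_le_one_of_le₀ ?_ (Nat.cast_nonneg _)⟩
  have := Finset.mem_range.mp h
  exact_mod_cast Nat.lt_succ_iff.mp this

include hx in
lemma Kw_nonneg (n : ℕ) : 0 ≤ Kw x n := sum_nonneg fun i _ => hx n i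

include hx in
lemma En_nonneg {n : ℕ} {f : ℝ → ℝ} (hf : ∀ y, -(1 / 4) ≤ y → y ≤ 3 / 4 → 0 ≤ f y) :
    0 ≤ En x n f := by
  apply div_nonneg _ (Kw_nonneg hx n)
  refine sum_nonneg fun i hi => mul_nonneg (hx n i) (hf _ ?_ ?_)
  · linarith [(frac_mem hi).1]
  · linarith [(frac_mem hi).2]

include hx in
lemma Sn_nonneg {n : ℕ} {f : ℝ → ℝ} (hf : ∀ y, -(1 / 2) ≤ y → y ≤ 3 / 2 → 0 ≤ f y) :
    0 ≤ Sn x n f := by
  apply div_nonneg _ (sq_nonneg _)
  refine sum_nonneg fun i hi => sum_nonneg fun j hj =>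
    mul_nonneg (mul_nonneg (hx n i) (hx n j)) (hf _ ?_ ?_)
  · rw [add_div]; linarith [(frac_mem hi).1, (frac_mem hj).1]
  · rw [add_div]; linarith [(frac_mem hi).2, (frac_mem hj).2]

lemma En_add (n : ℕ) (f g : ℝ → ℝ) : En x n (fun y => f y + g y) = En x n f + En x n g := by
  unfold En
  rw [← add_div, ← sum_add_distrib]
  simp only [mul_add]

lemma En_smul (n : ℕ) (c : ℝ) (f : ℝ → ℝ) : En x n (fun y => c * f y) = c * En x n f := by
  unfold En
  rw [mul_div_assoc', mul_sum]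
  congr 1
  exact sum_congr rfl fun i _ => by ring

lemma Sn_add (n : ℕ) (f g : ℝ → ℝ) : Sn x n (fun y => f y + g y) = Sn x n f + Sn x n g := by
  unfold Sn
  rw [← add_div, ← sum_add_distrib]
  simp only [mul_add, sum_add_distrib]

lemma Sn_smul (n : ℕ) (c : ℝ) (f : ℝ → ℝ) : Sn x n (fun y => c * f y) = c * Sn x n f := by
  unfold Sn
  rw [mul_div_assoc', mul_sum]
  congr 1
  refine sum_congr rfl fun i _ => ?_
  rw [mul_sum]
  exact sum_congr rfl fun j _ => by ring

lemma En_one_le (n : ℕ) : En x n (fun _ => 1) ≤ 1 := by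
  unfold En Kw
  simp only [mul_one]
  exact div_self_le_one _

lemma Sn_eq_one (n : ℕ) (h : Kw x n ≠ 0) : Sn x n (fun _ => 1) = 1 := by
  unfold Sn
  simp only [mul_one]
  have : ∑ i ∈ range (n + 1), ∑ j ∈ range (n + 1), x n i * x n j = Kw x n ^ 2 := by
    unfold Kw
    rw [pow_two, sum_mul_sum]
  rw [this, div_self (pow_ne_zero 2 h)]

lemma Sn_one_le (n : ℕ) : Sn x n (fun _ => 1) ≤ 1 := by
  by_cases h : Kw x n = 0
  · unfold Sn; rw [h]; simp
  · exact (Sn_eq_one n h).le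

lemma En_eq_one (n : ℕ) (h : Kw x n ≠ 0) : En x n (fun _ => 1) = 1 := by
  unfold En
  simp only [mul_one]
  exact div_self h

include hx in
lemma En_bdd (f : C(ℝ, ℝ)) : ∃ B : ℝ, ∀ n, |En x n f| ≤ B := by
  obtain ⟨B, hB⟩ := (isCompact_Icc (a := (-(1 / 4) : ℝ)) (b := 3 / 4)).exists_bound_of_continuousOn
    f.continuous.continuousOn
  have hB' : ∀ y, -(1 / 4) ≤ y → y ≤ 3 / 4 → |f y| ≤ B := fun y h1 h2 => hB y ⟨h1, h2⟩
  have hB0 : 0 ≤ B := (abs_nonneg _).trans (hB' 0 (by norm_num) (by norm_num))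
  refine ⟨B, fun n => ?_⟩
  have h1 : 0 ≤ En x n (fun y => B * 1 + -1 * f y) := En_nonneg hx (fun y h1 h2 => by
    have := (abs_le.mp (hB' y h1 h2)).2; linarith)
  have h2 : 0 ≤ En x n (fun y => B * 1 + 1 * f y) := En_nonneg hx (fun y h1 h2 => by
    have := (abs_le.mp (hB' y h1 h2)).1; linarith)
  rw [En_add, En_smul, En_smul n _ (fun y => f y)] at h1 h2
  have h3 := En_one_le (x := x) n
  have h4 : B * En x n (fun _ => 1) ≤ B := by nlinarith
  rw [abs_le]
  constructor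
  · have : En x n (fun y => f y) = En x n f := rfl
    linarith
  · have : En x n (fun y => f y) = En x n f := rfl
    linarith

include hx in
lemma Sn_bdd (f : C(ℝ, ℝ)) : ∃ B : ℝ, ∀ n, |Sn x n f| ≤ B := by
  obtain ⟨B, hB⟩ := (isCompact_Icc (a := (-(1 / 2) : ℝ)) (b := 3 / 2)).exists_bound_of_continuousOn
    f.continuous.continuousOn
  have hB' : ∀ y, -(1 / 2) ≤ y → y ≤ 3 / 2 → |f y| ≤ B := fun y h1 h2 => hB y ⟨h1, h2⟩
  have hB0 : 0 ≤ B := (abs_nonneg _).trans (hB' 0 (by norm_num) (by norm_num))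
  refine ⟨B, fun n => ?_⟩
  have h1 : 0 ≤ Sn x n (fun y => B * 1 + -1 * f y) := Sn_nonneg hx (fun y h1 h2 => by
    have := (abs_le.mp (hB' y h1 h2)).2; linarith)
  have h2 : 0 ≤ Sn x n (fun y => B * 1 + 1 * f y) := Sn_nonneg hx (fun y h1 h2 => by
    have := (abs_le.mp (hB' y h1 h2)).1; linarith)
  rw [Sn_add, Sn_smul, Sn_smul n _ (fun y => f y)] at h1 h2
  have h3 := Sn_one_le (x := x) n
  have h4 : B * Sn x n (fun _ => 1) ≤ B := by nlinarith
  rw [abs_le]
  constructor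
  · have : Sn x n (fun y => f y) = Sn x n f := rfl
    linarith
  · have : Sn x n (fun y => f y) = Sn x n f := rfl
    linarith

/-- trigonometric identities -/
lemma Sn_cos (n : ℕ) (w : ℝ) : Sn x n (cosm w) = En x n (cosm w) ^ 2 - En x n (sinm w) ^ 2 := by
  unfold Sn En
  rw [div_pow, div_pow, ← sub_div]
  congr 1
  rw [pow_two, pow_two, sum_mul_sum, sum_mul_sum, ← sum_sub_distrib]
  refine sum_congr rfl fun i _ => ?_
  rw [← sum_sub_distrib]
  refine sum_congr rfl fun j _ => ?_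
  simp only [cosm_apply, sinm_apply]
  have : w * (((i : ℝ) + j) / n - 1 / 2) = w * ((i : ℝ) / n - 1 / 4) + w * ((j : ℝ) / n - 1 / 4) := by
    ring
  rw [this, Real.cos_add]
  ring

lemma Sn_sin (n : ℕ) (w : ℝ) : Sn x n (sinm w) = 2 * En x n (cosm w) * En x n (sinm w) := by
  unfold Sn En
  have e : ∀ a c K : ℝ, 2 * (a / K) * (c / K) = (a * c + c * a) / K ^ 2 := by
    intro a c K
    by_cases hK : K = 0
    · rw [hK]; simp
    · field_simp; ring
  rw [e]
  congr 1
  rw [sum_mul_sum, sum_mul_sum, ← sum_add_distrib]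
  refine sum_congr rfl fun i _ => ?_
  rw [← sum_add_distrib]
  refine sum_congr rfl fun j _ => ?_
  simp only [cosm_apply, sinm_apply]
  have : w * (((i : ℝ) + j) / n - 1 / 2) = w * ((i : ℝ) / n - 1 / 4) + w * ((j : ℝ) / n - 1 / 4) := by
    ring
  rw [this, Real.sin_add]
  ring

end

lemma int_cos {w : ℝ} (hw : w ≠ 0) :
    ∫ t in (-(1 / 2) : ℝ)..(1 / 2), Real.cos (w * t) = 2 * Real.sin (w / 2) / w := by
  rw [intervalIntegral.integral_comp_mul_left (fun t => Real.cos t) hw, integral_cos, smul_eq_mul]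
  have e1 : w * (1 / 2) = w / 2 := by ring
  have e2 : w * -(1 / 2) = -(w / 2) := by ring
  rw [e1, e2, Real.sin_neg]
  field_simp
  ring

lemma int_sin {w : ℝ} (hw : w ≠ 0) :
    ∫ t in (-(1 / 2) : ℝ)..(1 / 2), Real.sin (w * t) = 0 := by
  rw [intervalIntegral.integral_comp_mul_left (fun t => Real.sin t) hw, integral_sin, smul_eq_mul]
  have e1 : w * (1 / 2) = w / 2 := by ring
  have e2 : w * -(1 / 2) = -(w / 2) := by ring
  rw [e1, e2, Real.cos_neg]
  simp

/-- the limit object -/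
theorem limit_obj {p : ℝ} (U : Ultrafilter ℕ) (hx : ∀ n i, 0 ≤ x n i)
    (hK : ∀ᶠ n in (U : Filter ℕ), Kw x n ≠ 0)
    (hS : ∀ f : C(ℝ, ℝ), (∀ t, -(1 / 2) ≤ t → t ≤ 3 / 2 → 0 ≤ f t) → ∀ ε : ℝ, 0 < ε →
      ∀ᶠ n in (U : Filter ℕ), p * (∫ t in (-(1 / 2) : ℝ)..(1 / 2), f t) - ε ≤ Sn x n f) :
    Nonempty (Obj p) := by
  have hE : ∀ f : C(ℝ, ℝ), Tendsto (fun n => En x n f) (U : Filter ℕ)
      (𝓝 (limUnder (U : Filter ℕ) (fun n => En x n f))) := by
    intro f
    obtain ⟨B, hB⟩ := En_bdd hx f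
    exact bdd_lim U hB
  have hSl : ∀ f : C(ℝ, ℝ), Tendsto (fun n => Sn x n f) (U : Filter ℕ)
      (𝓝 (limUnder (U : Filter ℕ) (fun n => Sn x n f))) := by
    intro f
    obtain ⟨B, hB⟩ := Sn_bdd hx f
    exact bdd_lim U hB
  have hii : ∀ f : C(ℝ, ℝ), IntervalIntegrable (fun t => f t) MeasureTheory.volume
      (-(1 / 2) : ℝ) (1 / 2) := fun f => f.continuous.intervalIntegrable _ _
  let E : C(ℝ, ℝ) →ₗ[ℝ] ℝ :=
    { toFun := fun f => limUnder (U : Filter ℕ) (fun n => En x n f)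
      map_add' := by
        intro f g
        have h := (hE f).add (hE g)
        refine Tendsto.limUnder_eq (h.congr (fun n => ?_))
        rw [← En_add]
        rfl
      map_smul' := by
        intro c f
        have h := (hE f).const_mul c
        refine Tendsto.limUnder_eq (h.congr (fun n => ?_))
        rw [← En_smul]
        rfl }
  let D : C(ℝ, ℝ) →ₗ[ℝ] ℝ :=
    { toFun := fun f => limUnder (U : Filter ℕ) (fun n => Sn x n f) -
        p * (∫ t in (-(1 / 2) : ℝ)..(1 / 2), f t)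
      map_add' := by
        intro f g
        have h := (hSl f).add (hSl g)
        have h2 : limUnder (U : Filter ℕ) (fun n => Sn x n ((f + g : C(ℝ, ℝ)) : ℝ → ℝ)) =
            limUnder (U : Filter ℕ) (fun n => Sn x n f) +
            limUnder (U : Filter ℕ) (fun n => Sn x n g) := by
          refine Tendsto.limUnder_eq (h.congr (fun n => ?_))
          rw [← Sn_add]
          rfl
        have h3 : ∫ t in (-(1 / 2) : ℝ)..(1 / 2), (f + g : C(ℝ, ℝ)) t =
            (∫ t in (-(1 / 2) : ℝ)..(1 / 2), f t) + ∫ t in (-(1 / 2) : ℝ)..(1 / 2), g t := by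
          rw [← intervalIntegral.integral_add (hii f) (hii g)]
          rfl
        rw [h2, h3]
        ring
      map_smul' := by
        intro c f
        have h := (hSl f).const_mul c
        have h2 : limUnder (U : Filter ℕ) (fun n => Sn x n ((c • f : C(ℝ, ℝ)) : ℝ → ℝ)) =
            c * limUnder (U : Filter ℕ) (fun n => Sn x n f) := by
          refine Tendsto.limUnder_eq (h.congr (fun n => ?_))
          rw [← Sn_smul]
          rfl
        have h3 : ∫ t in (-(1 / 2) : ℝ)..(1 / 2), (c • f : C(ℝ, ℝ)) t =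
            c * (∫ t in (-(1 / 2) : ℝ)..(1 / 2), f t) := by
          rw [← intervalIntegral.integral_const_mul]
          rfl
        rw [h2, h3]
        simp only [RingHom.id_apply, smul_eq_mul]
        ring }
  have hE1 : limUnder (U : Filter ℕ) (fun n => En x n ((1 : C(ℝ, ℝ)) : ℝ → ℝ)) = 1 := by
    refine Tendsto.limUnder_eq (tendsto_const_nhds.congr' ?_)
    filter_upwards [hK] with n hn
    exact (En_eq_one n hn).symm
  have hS1 : limUnder (U : Filter ℕ) (fun n => Sn x n ((1 : C(ℝ, ℝ)) : ℝ → ℝ)) = 1 := by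
    refine Tendsto.limUnder_eq (tendsto_const_nhds.congr' ?_)
    filter_upwards [hK] with n hn
    exact (Sn_eq_one n hn).symm
  refine ⟨⟨E, D, ?_, hE1, ?_, ?_, ?_, ?_⟩⟩
  · intro f hf
    exact ge_of_tendsto' (hE f) (fun n => En_nonneg hx hf)
  · intro f hf
    have h1 : p * (∫ t in (-(1 / 2) : ℝ)..(1 / 2), f t) ≤
        limUnder (U : Filter ℕ) (fun n => Sn x n f) := by
      apply le_of_forall_pos_sub_le
      intro ε hε
      exact ge_of_tendsto (hSl f) (hS f hf ε hε)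
    exact sub_nonneg.mpr h1
  · change limUnder (U : Filter ℕ) (fun n => Sn x n ((1 : C(ℝ, ℝ)) : ℝ → ℝ)) -
        p * (∫ t in (-(1 / 2) : ℝ)..(1 / 2), (1 : C(ℝ, ℝ)) t) = 1 - p
    rw [hS1]
    simp only [ContinuousMap.one_apply, intervalIntegral.integral_const, smul_eq_mul]
    ring
  · intro w hw
    change limUnder (U : Filter ℕ) (fun n => Sn x n (cosm w)) -
        p * (∫ t in (-(1 / 2) : ℝ)..(1 / 2), Real.cos (w * t)) =
        limUnder (U : Filter ℕ) (fun n => En x n (cosm w)) ^ 2 -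
        limUnder (U : Filter ℕ) (fun n => En x n (sinm w)) ^ 2 - p * (2 * Real.sin (w / 2) / w)
    rw [int_cos hw]
    congr 1
    have h := ((hE (cosm w)).pow 2).sub ((hE (sinm w)).pow 2)
    refine Tendsto.limUnder_eq (h.congr (fun n => ?_))
    rw [Sn_cos]
  · intro w hw
    change limUnder (U : Filter ℕ) (fun n => Sn x n (sinm w)) -
        p * (∫ t in (-(1 / 2) : ℝ)..(1 / 2), Real.sin (w * t)) =
        2 * limUnder (U : Filter ℕ) (fun n => En x n (cosm w)) *
        limUnder (U : Filter ℕ) (fun n => En x n (sinm w))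
    rw [int_sin hw, mul_zero, sub_zero]
    have h := ((hE (cosm w)).const_mul 2).mul (hE (sinm w))
    refine Tendsto.limUnder_eq (h.congr (fun n => ?_))
    rw [Sn_sin]

end Pool.Agent.Run7.H247.Dig
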