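import Mathlib

/-!
# Positive functionals attached to `f * f ≥ p` on an interval
-/

set_option autoImplicit false

open Set

namespace Pool.Agent.Run7.H247.Dig

/-- `y ↦ cos (w y)` -/
noncomputable def cosm (w : ℝ) : C(ℝ, ℝ) := ⟨fun y => Real.cos (w * y), by fun_prop⟩

/-- `y ↦ sin (w y)` -/
noncomputable def sinm (w : ℝ) : C(ℝ, ℝ) := ⟨fun y => Real.sin (w * y), by fun_prop⟩

@[simp] lemma cosm_apply (w y : ℝ) : cosm w y = Real.cos (w * y) := rfl
@[simp] lemma sinm_apply (w y : ℝ) : sinm w y = Real.sin (w * y) := rfl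

/-- a limit object: `E` is the expectation of a probability measure on `[-1/4, 3/4]`, `D` the
integral against the difference of its self convolution and `p` times the uniform measure of
`[-1/2, 1/2]` -/
structure Obj (p : ℝ) where
  E : C(ℝ, ℝ) →ₗ[ℝ] ℝ
  D : C(ℝ, ℝ) →ₗ[ℝ] ℝ
  E_pos : ∀ f : C(ℝ, ℝ), (∀ y, -(1 / 4) ≤ y → y ≤ 3 / 4 → 0 ≤ f y) → 0 ≤ E f
  E_one : E 1 = 1
  D_pos : ∀ f : C(ℝ, ℝ), (∀ t, -(1 / 2) ≤ t → t ≤ 3 / 2 → 0 ≤ f t) → 0 ≤ D f
  D_one : D 1 = 1 - p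
  D_cos : ∀ w : ℝ, w ≠ 0 →
    D (cosm w) = E (cosm w) ^ 2 - E (sinm w) ^ 2 - p * (2 * Real.sin (w / 2) / w)
  D_sin : ∀ w : ℝ, w ≠ 0 → D (sinm w) = 2 * E (cosm w) * E (sinm w)

variable {p : ℝ} (O : Obj p)

/-- real part -/
noncomputable def Obj.X (w : ℝ) : ℝ := O.E (cosm w)

/-- imaginary part -/
noncomputable def Obj.Y (w : ℝ) : ℝ := O.E (sinm w)

lemma E_mono {f g : C(ℝ, ℝ)} (h : ∀ y, -(1 / 4) ≤ y → y ≤ 3 / 4 → f y ≤ g y) :
    O.E f ≤ O.E g := by
  have := O.E_pos (g - f) (fun y h1 h2 => by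
    simp only [ContinuousMap.coe_sub, Pi.sub_apply]; linarith [h y h1 h2])
  rw [map_sub] at this
  linarith

lemma D_mono {f g : C(ℝ, ℝ)} (h : ∀ t, -(1 / 2) ≤ t → t ≤ 3 / 2 → f t ≤ g t) :
    O.D f ≤ O.D g := by
  have := O.D_pos (g - f) (fun y h1 h2 => by
    simp only [ContinuousMap.coe_sub, Pi.sub_apply]; linarith [h y h1 h2])
  rw [map_sub] at this
  linarith

lemma X_zero : O.X 0 = 1 := by
  unfold Obj.X
  have : cosm 0 = 1 := by ext y; simp
  rw [this, O.E_one]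

lemma E_lip {f g : C(ℝ, ℝ)} {c : ℝ} (h : ∀ y, -(1 / 4) ≤ y → y ≤ 3 / 4 → |f y - g y| ≤ c) :
    |O.E f - O.E g| ≤ c := by
  have h1 : O.E (c • (1 : C(ℝ, ℝ))) = c := by rw [map_smul, O.E_one, smul_eq_mul, mul_one]
  rw [abs_le]
  constructor
  · have := E_mono O (f := g) (g := f + c • (1 : C(ℝ, ℝ))) (fun y h2 h3 => by
      have := (abs_le.mp (h y h2 h3)).1
      simp only [ContinuousMap.coe_add, ContinuousMap.coe_smul, ContinuousMap.coe_one,
        Pi.add_apply, Pi.smul_apply, Pi.one_apply, smul_eq_mul, mul_one]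
      linarith)
    rw [map_add, h1] at this
    linarith
  · have := E_mono O (f := f) (g := g + c • (1 : C(ℝ, ℝ))) (fun y h2 h3 => by
      have := (abs_le.mp (h y h2 h3)).2
      simp only [ContinuousMap.coe_add, ContinuousMap.coe_smul, ContinuousMap.coe_one,
        Pi.add_apply, Pi.smul_apply, Pi.one_apply, smul_eq_mul, mul_one]
      linarith)
    rw [map_add, h1] at this
    linarith

lemma cos_lip (x y : ℝ) : |Real.cos x - Real.cos y| ≤ |x - y| := by
  have h := Real.lipschitzWith_cos.dist_le_mul x y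
  simpa [Real.dist_eq] using h

lemma sin_lip (x y : ℝ) : |Real.sin x - Real.sin y| ≤ |x - y| := by
  have h := Real.lipschitzWith_sin.dist_le_mul x y
  simpa [Real.dist_eq] using h

lemma X_lip : LipschitzWith 1 O.X := by
  apply LipschitzWith.of_dist_le_mul
  intro a b
  rw [Real.dist_eq, Real.dist_eq, NNReal.coe_one, one_mul]
  apply E_lip O
  intro y h1 h2
  rw [cosm_apply, cosm_apply]
  refine (cos_lip _ _).trans ?_
  rw [← sub_mul, abs_mul]
  have : |y| ≤ 1 := by rw [abs_le]; constructor <;> linarith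
  nlinarith [abs_nonneg (a - b)]

lemma Y_lip : LipschitzWith 1 O.Y := by
  apply LipschitzWith.of_dist_le_mul
  intro a b
  rw [Real.dist_eq, Real.dist_eq, NNReal.coe_one, one_mul]
  apply E_lip O
  intro y h1 h2
  rw [sinm_apply, sinm_apply]
  refine (sin_lip _ _).trans ?_
  rw [← sub_mul, abs_mul]
  have : |y| ≤ 1 := by rw [abs_le]; constructor <;> linarith
  nlinarith [abs_nonneg (a - b)]

/-- Cauchy-Schwarz -/
lemma D_sq (hp : p < 1) (f : C(ℝ, ℝ)) : O.D f ^ 2 ≤ (1 - p) * O.D (f * f) := by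
  have hη : 0 < 1 - p := by linarith
  set t : ℝ := O.D f / (1 - p) with ht
  have h := O.D_pos ((f - t • (1 : C(ℝ, ℝ))) * (f - t • (1 : C(ℝ, ℝ)))) (fun y _ _ => by
    simp only [ContinuousMap.coe_mul, Pi.mul_apply]
    exact mul_self_nonneg _)
  have e : (f - t • (1 : C(ℝ, ℝ))) * (f - t • (1 : C(ℝ, ℝ))) =
      f * f - (2 * t) • f + (t * t) • (1 : C(ℝ, ℝ)) := by
    ext y
    simp only [ContinuousMap.coe_mul, ContinuousMap.coe_sub, ContinuousMap.coe_add,
      ContinuousMap.coe_smul, ContinuousMap.coe_one, Pi.mul_apply, Pi.sub_apply, Pi.add_apply,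
      Pi.smul_apply, Pi.one_apply, smul_eq_mul, mul_one]
    ring
  rw [e, map_add, map_sub, map_smul, map_smul, O.D_one, smul_eq_mul, smul_eq_mul] at h
  have h2 : O.D f = t * (1 - p) := by rw [ht]; field_simp
  rw [h2] at h ⊢
  nlinarith

/-- the disc -/
lemma disc (hp : p < 1) {w : ℝ} (hw : w ≠ 0) :
    (O.X w ^ 2 - O.Y w ^ 2 - p * (2 * Real.sin (w / 2) / w)) ^ 2 + (2 * O.X w * O.Y w) ^ 2 ≤
      (1 - p) ^ 2 := by
  have h1 := D_sq O hp (cosm w)
  have h2 := D_sq O hp (sinm w)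
  have h3 : O.D (cosm w * cosm w) + O.D (sinm w * sinm w) = 1 - p := by
    rw [← map_add, ← O.D_one]
    congr 1
    ext y
    simp only [ContinuousMap.coe_mul, ContinuousMap.coe_add, Pi.mul_apply, Pi.add_apply,
      cosm_apply, sinm_apply, ContinuousMap.coe_one, Pi.one_apply]
    have := Real.sin_sq_add_cos_sq (w * y)
    nlinarith
  rw [O.D_cos w hw] at h1
  rw [O.D_sin w hw] at h2
  have e : ∀ a b : ℝ, a + b = 1 - p → (1 - p) * a + (1 - p) * b = (1 - p) ^ 2 := by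
    intro a b h; rw [← mul_add, h]; ring
  have h4 := e _ _ h3
  unfold Obj.X Obj.Y
  linarith

/-- sign along an interval -/
lemma pos_of_ne {f : ℝ → ℝ} (hf : Continuous f) {a x : ℝ} (hax : a ≤ x) (ha : 0 < f a)
    (hne : ∀ z, a ≤ z → z ≤ x → f z ≠ 0) : 0 < f x := by
  by_contra h
  push Not at h
  obtain ⟨z, hz, h0⟩ := intermediate_value_Icc' hax hf.continuousOn ⟨h, ha.le⟩
  exact hne z hz.1 hz.2 h0

end Pool.Agent.Run7.H247.Dig
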