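import Pool.Agent.Run7.h247.Dig.Limit

/-!
# From lower bounds for weighted self convolutions to limit objects
-/

set_option autoImplicit false

open Set Filter Topology Finset

namespace Pool.Agent.Run7.H247.Dig

/-- Riemann sums -/
lemma riemann {f : ℝ → ℝ} (hf : Continuous f) {e δ : ℝ}
    (hd : ∀ s t, -(1 / 2) ≤ s → s ≤ 3 / 2 → -(1 / 2) ≤ t → t ≤ 3 / 2 → |s - t| < δ →
      |f s - f t| ≤ e)
    {n : ℕ} (hn : 0 < n) (hnd : 1 / (n : ℝ) < δ) :
    |(∑ m ∈ range n, f ((m : ℝ) / n - 1 / 2)) / n - ∫ t in (-(1 / 2) : ℝ)..(1 / 2), f t| ≤ e := by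
  have hn' : (0 : ℝ) < n := by exact_mod_cast hn
  set a : ℕ → ℝ := fun k => (k : ℝ) / n - 1 / 2 with ha
  have hint : ∀ k < n, IntervalIntegrable f MeasureTheory.volume (a k) (a (k + 1)) :=
    fun k _ => hf.intervalIntegrable _ _
  have hsum := intervalIntegral.sum_integral_adjacent_intervals hint
  have ha0 : a 0 = -(1 / 2) := by simp [ha]
  have han : a n = 1 / 2 := by
    simp only [ha]; rw [div_self hn'.ne']; norm_num
  rw [ha0, han] at hsum
  rw [← hsum, sum_div, ← sum_sub_distrib]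
  refine (abs_sum_le_sum_abs _ _).trans ?_
  have hterm : ∀ k ∈ range n, |f (a k) / n - ∫ t in (a k)..(a (k + 1)), f t| ≤ e / n := by
    intro k hk
    have hkn : (k : ℝ) + 1 ≤ n := by exact_mod_cast Finset.mem_range.mp hk
    have hstep : a (k + 1) - a k = 1 / n := by
      simp only [ha]; push_cast; ring
    have hle : a k ≤ a (k + 1) := by
      have : 0 < 1 / (n : ℝ) := by positivity
      linarith
    have h1 : f (a k) / n = ∫ _ in (a k)..(a (k + 1)), f (a k) := by
      rw [intervalIntegral.integral_const, hstep, smul_eq_mul]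
      ring
    rw [h1, ← intervalIntegral.integral_sub (continuous_const.intervalIntegrable _ _)
      (hf.intervalIntegrable _ _)]
    have h2 := intervalIntegral.norm_integral_le_of_norm_le_const (C := e) (a := a k)
      (b := a (k + 1)) (f := fun t => f (a k) - f t) (by
        intro t ht
        rw [Set.uIoc_of_le hle] at ht
        have hk0 : -(1 / 2) ≤ a k := by
          simp only [ha]
          have : (0 : ℝ) ≤ (k : ℝ) / n := by positivity
          linarith
        have hk1 : a (k + 1) ≤ 1 / 2 := by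
          simp only [ha]
          have : ((k + 1 : ℕ) : ℝ) / n ≤ 1 := by
            rw [div_le_one hn']; push_cast; exact hkn
          linarith
        rw [Real.norm_eq_abs]
        apply hd _ _ hk0 (by linarith [ht.1, ht.2]) (by linarith [ht.1, ht.2])
          (by linarith [ht.1, ht.2])
        rw [abs_sub_comm, abs_of_nonneg (by linarith [ht.1])]
        linarith [ht.2])
    rw [hstep, abs_of_nonneg (by positivity : (0 : ℝ) ≤ 1 / n), Real.norm_eq_abs] at h2
    refine h2.trans (le_of_eq ?_)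
    ring
  refine (sum_le_sum hterm).trans ?_
  rw [sum_const, card_range, nsmul_eq_mul]
  apply le_of_eq
  field_simp

variable {x : ℕ → ℕ → ℝ}

/-- criterion -/
theorem obj_of_conv {p : ℝ} (hp : 0 ≤ p) (U : Ultrafilter ℕ) (hU : (U : Filter ℕ) ≤ atTop)
    (hx : ∀ n i, 0 ≤ x n i) (hK : ∀ᶠ n in (U : Filter ℕ), 0 < Kw x n)
    (hc : ∀ M ε : ℝ, 0 < M → 0 < ε → ∃ e : ℝ, 0 < e ∧ ∀ᶠ n in (U : Filter ℕ), ∀ G : ℕ → ℝ,
      (∀ m, m ≤ 2 * n → 0 ≤ G m ∧ G m ≤ M) → (∀ m, m < n → |G (m + 1) - G m| ≤ e) →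
      (p * ((∑ m ∈ range n, G m) / n) - ε) * Kw x n ^ 2 ≤
        ∑ i ∈ range (n + 1), ∑ j ∈ range (n + 1), x n i * x n j * G (i + j)) :
    Nonempty (Obj p) := by
  apply limit_obj x U hx (hK.mono fun n hn => hn.ne')
  intro f hf ε hε
  obtain ⟨B, hB⟩ := (isCompact_Icc (a := (-(1 / 2) : ℝ)) (b := 3 / 2)).exists_bound_of_continuousOn
    f.continuous.continuousOn
  set M : ℝ := |B| + 1 with hM
  have hM0 : 0 < M := by positivity
  have hB' : ∀ y, -(1 / 2) ≤ y → y ≤ 3 / 2 → f y ≤ M := fun y h1 h2 =>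
    (le_abs_self _).trans ((hB y ⟨h1, h2⟩).trans (by rw [hM]; linarith [le_abs_self B]))
  obtain ⟨e, he, hev⟩ := hc M (ε / 2) hM0 (by positivity)
  set e' : ℝ := min e (ε / (2 * (p + 1))) with he'
  have he'0 : 0 < e' := by positivity
  have huc := (isCompact_Icc (a := (-(1 / 2) : ℝ)) (b := 3 / 2)).uniformContinuousOn_of_continuous
    f.continuous.continuousOn
  rw [Metric.uniformContinuousOn_iff] at huc
  obtain ⟨δ, hδ, huc⟩ := huc e' he'0
  have hd : ∀ s t, -(1 / 2) ≤ s → s ≤ 3 / 2 → -(1 / 2) ≤ t → t ≤ 3 / 2 → |s - t| < δ →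
      |f s - f t| ≤ e' := by
    intro s t h1 h2 h3 h4 h5
    have := huc s ⟨h1, h2⟩ t ⟨h3, h4⟩ (by rw [Real.dist_eq]; exact h5)
    rw [Real.dist_eq] at this
    exact this.le
  have hn1 : ∀ᶠ n : ℕ in atTop, 1 / (n : ℝ) < δ := by
    have := tendsto_one_div_atTop_nhds_zero_nat (𝕜 := ℝ)
    exact this.eventually (gt_mem_nhds hδ)
  filter_upwards [hev, hU hn1, hU (eventually_gt_atTop 0), hK] with n hn hnd hn0 hKn
  have hn' : (0 : ℝ) < n := by exact_mod_cast hn0
  have hR := riemann f.continuous hd hn0 hnd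
  have hG := hn (fun m => f ((m : ℝ) / n - 1 / 2)) (by
    intro m hm
    have h1 : (0 : ℝ) ≤ (m : ℝ) / n := by positivity
    have h2 : (m : ℝ) / n ≤ 2 := by
      rw [div_le_iff₀ hn']
      exact_mod_cast hm
    exact ⟨hf _ (by linarith) (by linarith), hB' _ (by linarith) (by linarith)⟩) (by
    intro m hm
    refine le_trans ?_ (min_le_left e (ε / (2 * (p + 1))))
    have hm' : (m : ℝ) + 1 ≤ n := by exact_mod_cast hm
    have h1 : (0 : ℝ) ≤ (m : ℝ) / n := by positivity
    have h2 : ((m + 1 : ℕ) : ℝ) / n ≤ 1 := by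
      rw [div_le_one hn']; push_cast; exact hm'
    have h3 : (m : ℝ) / n ≤ ((m + 1 : ℕ) : ℝ) / n := by
      apply div_le_div_of_nonneg_right _ hn'.le
      push_cast; linarith
    have h4 : ((m + 1 : ℕ) : ℝ) / n - (m : ℝ) / n = 1 / n := by push_cast; ring
    apply hd _ _ (by linarith) (by linarith) (by linarith) (by linarith)
    rw [show ((m + 1 : ℕ) : ℝ) / n - 1 / 2 - ((m : ℝ) / n - 1 / 2) =
      ((m + 1 : ℕ) : ℝ) / n - (m : ℝ) / n by ring, h4, abs_of_nonneg (by positivity)]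
    exact hnd)
  have hSn : Sn x n f = (∑ i ∈ range (n + 1), ∑ j ∈ range (n + 1), x n i * x n j *
      f (((i + j : ℕ) : ℝ) / n - 1 / 2)) / Kw x n ^ 2 := by
    unfold Sn
    simp only [Nat.cast_add]
  rw [hSn, le_div_iff₀ (by positivity)]
  refine le_trans ?_ hG
  apply mul_le_mul_of_nonneg_right _ (by positivity)
  have h1 := (abs_le.mp hR).1
  have h2 : p * e' ≤ ε / 2 := by
    have h3 : e' ≤ ε / (2 * (p + 1)) := min_le_right _ _
    rw [le_div_iff₀ (by positivity)] at h3
    nlinarith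
  nlinarith

end Pool.Agent.Run7.H247.Dig
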