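import Pool.Agent.Run7.h247.Dig.Digits

/-!
# A better constant for the digits of `√2`

No hypothesis is assumed.  For all large `n` at least `1.485 √n` of the first `n` binary digits of
`√2` are zeros and at least `1.485 √n` are ones.  More generally, for every real quadratic
irrational `ξ` with `A ξ² + B ξ + C = 0`, `A > 0`, and every base `b`, the sum of the first `n`
digits `c_k` and the sum of the first `n` complementary digits `b - 1 - c_k` are both at least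
`1.485 √((b - 1) gcd(b, 2 A) / (2 A)) √n`, for all large `n`.

Method: a sequence of bad `n` gives in the limit a probability measure on `[0, 1]` whose self
convolution is at least `0.9069` times the uniform measure of `[0, 1]`; there is no such measure.
The last step follows the continuous square root of the Fourier transform of the self convolution
through three windows of frequencies, and uses in each of the resulting cases a tangent inequality
and a trigonometric polynomial whose sign is checked in integer arithmetic by the kernel.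
-/

set_option autoImplicit false

open Finset

namespace Pool.Agent.Run7.H247.Dig.SquareRootConstant

/-- the `k`-th digit of `ξ` after the point in base `b` -/
noncomputable def digit (b : ℕ) (ξ : ℝ) (k : ℕ) : ℤ := ⌊ξ * (b : ℝ) ^ k⌋ % (b : ℤ)

lemma digit_neg {b : ℕ} (hb : 2 ≤ b) {ξ : ℝ} (hirr : Irrational ξ) (k : ℕ) :
    digit b (-ξ) k = b - 1 - digit b ξ k := by
  unfold digit
  have h1 : ⌊-ξ * (b : ℝ) ^ k⌋ = -⌊ξ * (b : ℝ) ^ k⌋ - 1 := by
    have h2 : Irrational (ξ * ((b ^ k : ℕ) : ℝ)) := hirr.mul_natCast (by positivity)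
    have h3 : ξ * (b : ℝ) ^ k = ξ * ((b ^ k : ℕ) : ℝ) := by push_cast; rfl
    rw [neg_mul, h3]
    set z : ℝ := ξ * ((b ^ k : ℕ) : ℝ) with hz
    rw [Int.floor_eq_iff]
    push_cast
    have h4 := Int.floor_le z
    have h5 := Int.lt_floor_add_one z
    have h6 : (⌊z⌋ : ℝ) ≠ z := fun h => h2 ⟨(⌊z⌋ : ℚ), by push_cast; exact h⟩
    have h7 : (⌊z⌋ : ℝ) < z := lt_of_le_of_ne h4 h6
    constructor <;> linarith
  rw [h1]
  set m := ⌊ξ * (b : ℝ) ^ k⌋
  have hb' : (0 : ℤ) < b := by exact_mod_cast (by omega : 0 < b)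
  have h8 := Int.emod_add_mul_ediv m b
  have h9 := Int.emod_nonneg m hb'.ne'
  have h10 := Int.emod_lt_of_pos m hb'
  have h11 : -m - 1 = (b - 1 - m % b) + b * (-(m / b) - 1) := by linarith
  rw [h11, Int.add_mul_emod_self_left]
  exact Int.emod_eq_of_lt (by omega) (by omega)

/-- the digit sums of a quadratic irrational -/
theorem one {b : ℕ} (hb : 2 ≤ b) {A B C : ℤ} (hA : 0 < A) {ξ : ℝ} (hirr : Irrational ξ)
    (hq : (A : ℝ) * ξ ^ 2 + B * ξ + C = 0) :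
    ∃ n₀ : ℕ, ∀ n : ℕ, n₀ ≤ n →
      297 / 200 * Real.sqrt (((b : ℝ) - 1) * (Int.gcd b (2 * A) : ℕ) / (2 * A)) * Real.sqrt n ≤
        ((∑ k ∈ Icc 1 n, digit b ξ k : ℤ) : ℝ) := by
  set y : ℝ := Int.fract ξ with hy
  have hξ : ξ = ⌊ξ⌋ + y := (Int.floor_add_fract ξ).symm
  have hyirr : Irrational y := by
    have : y = ξ - (⌊ξ⌋ : ℤ) := rfl
    rw [this]
    exact hirr.sub_intCast _
  have hy0 : 0 < y := lt_of_le_of_ne (Int.fract_nonneg ξ) (Ne.symm hyirr.ne_zero)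
  have hy1 : y < 1 := Int.fract_lt_one ξ
  have hq' : (A : ℝ) * y ^ 2 + ((B + 2 * A * ⌊ξ⌋ : ℤ) : ℝ) * y +
      ((C + B * ⌊ξ⌋ + A * ⌊ξ⌋ ^ 2 : ℤ) : ℝ) = 0 := by
    have h1 : (A : ℝ) * (⌊ξ⌋ + y) ^ 2 + B * (⌊ξ⌋ + y) + C = 0 := by rw [← hξ]; exact hq
    push_cast
    linarith
  obtain ⟨n0, hn0⟩ := Pool.Agent.Run7.H247.Dig.main_unit hb hy0 hy1 hyirr hA hq'
  have hdig : ∀ k : ℕ, digit b ξ (k + 1) = (Pool.Agent.H394R2.Ones.x b y (k + 1) : ℤ) := by
    intro k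
    unfold digit
    have h1 : ξ * (b : ℝ) ^ (k + 1) = ((⌊ξ⌋ * (b : ℤ) ^ (k + 1) : ℤ) : ℝ) +
        y * (b : ℝ) ^ (k + 1) := by
      nth_rewrite 1 [hξ]
      push_cast
      ring
    rw [h1, Int.floor_intCast_add]
    unfold Pool.Agent.H394R2.Ones.x Pool.Agent.H394R2.Ones.B
    push_cast
    rw [Int.natCast_floor_eq_floor (by positivity)]
    rw [show ⌊ξ⌋ * (b : ℤ) ^ (k + 1) + ⌊y * (b : ℝ) ^ (k + 1)⌋ =
      ⌊y * (b : ℝ) ^ (k + 1)⌋ + (b : ℤ) * (⌊ξ⌋ * (b : ℤ) ^ k) by ring, Int.add_mul_emod_self_left]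
  refine ⟨n0, fun n hn => ?_⟩
  have hsum : ∑ k ∈ Icc 1 n, digit b ξ k = (Pool.Agent.H394R2.Ones.K b y n : ℤ) := by
    have h1 : ∀ n : ℕ, ∑ k ∈ Icc 1 n, digit b ξ k = ∑ k ∈ range n, digit b ξ (k + 1) := by
      intro n
      induction n with
      | zero => simp
      | succ n ih => rw [sum_range_succ, Finset.sum_Icc_succ_top (by omega), ih]
    rw [h1]
    simp only [hdig]
    unfold Pool.Agent.H394R2.Ones.K
    rw [sum_range_succ', Pool.Agent.H394R2.Ones.x_zero hy0 hy1, add_zero]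
    push_cast
    rfl
  rw [hsum]
  have h1 := hn0 n hn
  set g : ℝ := ((Int.gcd b (2 * A) : ℕ) : ℝ) with hg
  have hbR : (2 : ℝ) ≤ b := by exact_mod_cast hb
  have hAR : (1 : ℝ) ≤ A := by exact_mod_cast hA
  have hg0 : 0 ≤ g := Nat.cast_nonneg _
  have hn' : (0 : ℝ) ≤ n := Nat.cast_nonneg _
  have hK : (0 : ℝ) ≤ Pool.Agent.H394R2.Ones.K b y n := Nat.cast_nonneg _
  have hz : 0 ≤ ((b : ℝ) - 1) * g / (2 * A) := by
    apply div_nonneg (mul_nonneg (by linarith) hg0) (by linarith)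
  have hcast : (((Pool.Agent.H394R2.Ones.K b y n : ℕ) : ℤ) : ℝ) =
      (Pool.Agent.H394R2.Ones.K b y n : ℝ) := by push_cast; rfl
  rw [hcast]
  have h2 : (297 / 200 * Real.sqrt (((b : ℝ) - 1) * g / (2 * A)) * Real.sqrt n) ^ 2 ≤
      (Pool.Agent.H394R2.Ones.K b y n : ℝ) ^ 2 := by
    rw [mul_pow, mul_pow, Real.sq_sqrt hz, Real.sq_sqrt hn']
    have e1 : ((b : ℝ) - 1) * (g / A) * n = 2 * (((b : ℝ) - 1) * g / (2 * A) * n) := by
      field_simp
    rw [e1] at h1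
    have h3 : 0 ≤ ((b : ℝ) - 1) * g / (2 * A) * n := mul_nonneg hz hn'
    nlinarith
  exact (pow_le_pow_iff_left₀ (by positivity) hK two_ne_zero).mp h2

/-- both digit sums of a quadratic irrational -/
theorem both {b : ℕ} (hb : 2 ≤ b) {A B C : ℤ} (hA : 0 < A) {ξ : ℝ} (hirr : Irrational ξ)
    (hq : (A : ℝ) * ξ ^ 2 + B * ξ + C = 0) :
    ∃ n₀ : ℕ, ∀ n : ℕ, n₀ ≤ n →
      297 / 200 * Real.sqrt (((b : ℝ) - 1) * (Int.gcd b (2 * A) : ℕ) / (2 * A)) * Real.sqrt n ≤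
        ((∑ k ∈ Icc 1 n, digit b ξ k : ℤ) : ℝ) ∧
      297 / 200 * Real.sqrt (((b : ℝ) - 1) * (Int.gcd b (2 * A) : ℕ) / (2 * A)) * Real.sqrt n ≤
        ((∑ k ∈ Icc 1 n, (b - 1 - digit b ξ k) : ℤ) : ℝ) := by
  obtain ⟨n1, h1⟩ := one hb hA hirr hq
  obtain ⟨n2, h2⟩ := one hb (A := A) (B := -B) (C := C) hA hirr.neg (by push_cast; linarith)
  refine ⟨max n1 n2, fun n hn => ⟨h1 n ((le_max_left _ _).trans hn), ?_⟩⟩
  have := h2 n ((le_max_right _ _).trans hn)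
  simpa only [digit_neg hb hirr] using this

/-- The result. -/
theorem sqrt_two_1485 :
    (∃ n₀ : ℕ, ∀ n : ℕ, n₀ ≤ n →
      297 / 200 * Real.sqrt n ≤
        (((Icc 1 n).filter (fun k => digit 2 (Real.sqrt 2) k = 0)).card : ℝ) ∧
      297 / 200 * Real.sqrt n ≤
        (((Icc 1 n).filter (fun k => digit 2 (Real.sqrt 2) k = 1)).card : ℝ)) ∧
    (∀ b : ℕ, 2 ≤ b → ∀ A B C : ℤ, 0 < A → ∀ ξ : ℝ, Irrational ξ →
      (A : ℝ) * ξ ^ 2 + B * ξ + C = 0 → ∃ n₀ : ℕ, ∀ n : ℕ, n₀ ≤ n →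
        297 / 200 * Real.sqrt (((b : ℝ) - 1) * (Int.gcd b (2 * A) : ℕ) / (2 * A)) * Real.sqrt n ≤
          ((∑ k ∈ Icc 1 n, digit b ξ k : ℤ) : ℝ) ∧
        297 / 200 * Real.sqrt (((b : ℝ) - 1) * (Int.gcd b (2 * A) : ℕ) / (2 * A)) * Real.sqrt n ≤
          ((∑ k ∈ Icc 1 n, (b - 1 - digit b ξ k) : ℤ) : ℝ)) := by
  refine ⟨?_, fun b hb A B C hA ξ hξ hq => both hb hA hξ hq⟩
  obtain ⟨n0, h⟩ := both (b := 2) le_rfl (A := 1) (B := 0) (C := -2) one_pos
    (ξ := Real.sqrt 2) irrational_sqrt_two (by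
      push_cast
      rw [Real.sq_sqrt (by norm_num)]; norm_num)
  have hc : Real.sqrt ((((2 : ℕ) : ℝ) - 1) * (Int.gcd (2 : ℕ) (2 * 1) : ℕ) /
      (2 * ((1 : ℤ) : ℝ))) = 1 := by
    have e1 : Int.gcd (2 : ℕ) (2 * 1) = 2 := by decide
    rw [e1]
    have e2 : ((((2 : ℕ) : ℝ) - 1) * ((2 : ℕ) : ℝ) / (2 * ((1 : ℤ) : ℝ))) = 1 := by
      norm_num
    rw [e2, Real.sqrt_one]
  have hd : ∀ k, digit 2 (Real.sqrt 2) k = 0 ∨ digit 2 (Real.sqrt 2) k = 1 := by
    intro k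
    unfold digit
    push_cast
    omega
  refine ⟨n0, fun n hn => ⟨?_, ?_⟩⟩
  · have h2 := (h n hn).2
    rw [hc, mul_one] at h2
    refine h2.trans (le_of_eq ?_)
    rw [card_filter]
    push_cast
    refine sum_congr rfl fun k _ => ?_
    rcases hd k with h3 | h3 <;> rw [h3] <;> norm_num
  · have h1 := (h n hn).1
    rw [hc, mul_one] at h1
    refine h1.trans (le_of_eq ?_)
    rw [card_filter]
    push_cast
    refine sum_congr rfl fun k _ => ?_
    rcases hd k with h3 | h3 <;> rw [h3] <;> norm_num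

end Pool.Agent.Run7.H247.Dig.SquareRootConstant
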