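import Pool.Agent.Run7.h247.Dig.Obj

/-!
# The tangent inequality for one frequency
-/

set_option autoImplicit false

open Set

namespace Pool.Agent.Run7.H247.Dig

/-- the tangent inequality -/
lemma tangent {X Y x0 y0 A B α β : ℝ}
    (hT : A ^ 2 + B ^ 2 ≤
      (-(A * (α ^ 2 - β ^ 2) + B * (2 * α * β))) * ((X + x0) ^ 2 - (Y + y0) ^ 2) +
      (B * (α ^ 2 - β ^ 2) - A * (2 * α * β)) * (2 * (X + x0) * (Y + y0))) :
    2 * (x0 * A + y0 * B) * X + 2 * (x0 * B - y0 * A) * Y ≤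
      2 * (x0 * A + y0 * B) * x0 + 2 * (x0 * B - y0 * A) * y0 +
      A * (X ^ 2 - Y ^ 2 - (x0 ^ 2 - y0 ^ 2)) + B * (2 * X * Y - 2 * x0 * y0) +
      (α * (X ^ 2 - Y ^ 2 - (x0 ^ 2 - y0 ^ 2)) + β * (2 * X * Y - 2 * x0 * y0)) ^ 2 := by
  set w1 := X - x0 with hw1
  set w2 := Y - y0 with hw2
  set z1 := X + x0 with hz1
  set z2 := Y + y0 with hz2
  set μ := α * z1 + β * z2 with hμ
  set ν := β * z1 - α * z2 with hν
  have hX : X = (z1 + w1) / 2 := by rw [hz1, hw1]; ring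
  have hx0 : x0 = (z1 - w1) / 2 := by rw [hz1, hw1]; ring
  have hY : Y = (z2 + w2) / 2 := by rw [hz2, hw2]; ring
  have hy0 : y0 = (z2 - w2) / 2 := by rw [hz2, hw2]; ring
  have hdet : 0 ≤ (μ ^ 2 + A) * (ν ^ 2 - A) - (μ * ν + B) ^ 2 := by
    have : (-(A * (α ^ 2 - β ^ 2) + B * (2 * α * β))) * (z1 ^ 2 - z2 ^ 2) +
        (B * (α ^ 2 - β ^ 2) - A * (2 * α * β)) * (2 * z1 * z2) =
        -A * (μ ^ 2 - ν ^ 2) - 2 * B * μ * ν := by rw [hμ, hν]; ring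
    rw [this] at hT
    have e : (μ ^ 2 + A) * (ν ^ 2 - A) - (μ * ν + B) ^ 2 =
        -A * (μ ^ 2 - ν ^ 2) - 2 * B * μ * ν - (A ^ 2 + B ^ 2) := by ring
    rw [e]
    linarith
  set Q := (μ ^ 2 + A) * w1 ^ 2 + 2 * (μ * ν + B) * w1 * w2 + (ν ^ 2 - A) * w2 ^ 2 with hQ
  have hSQ : 0 ≤ (μ ^ 2 + ν ^ 2) * Q := by
    have e : (μ ^ 2 + ν ^ 2) * Q = ((μ ^ 2 + A) * w1 + (μ * ν + B) * w2) ^ 2 +
        ((μ * ν + B) * w1 + (ν ^ 2 - A) * w2) ^ 2 +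
        ((μ ^ 2 + A) * (ν ^ 2 - A) - (μ * ν + B) ^ 2) * (w1 ^ 2 + w2 ^ 2) := by
      rw [hQ]; ring
    rw [e]
    have := mul_nonneg hdet (by positivity : 0 ≤ w1 ^ 2 + w2 ^ 2)
    positivity
  have hQ0 : 0 ≤ Q := by
    rcases (by positivity : 0 ≤ μ ^ 2 + ν ^ 2).lt_or_eq with h | h
    · exact nonneg_of_mul_nonneg_right hSQ h
    · have h1 : μ = 0 := by
        have : μ ^ 2 = 0 := le_antisymm (by linarith [sq_nonneg ν]) (sq_nonneg μ)
        exact pow_eq_zero_iff (two_ne_zero) |>.mp this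
      have h2 : ν = 0 := by
        have : ν ^ 2 = 0 := le_antisymm (by linarith [sq_nonneg μ]) (sq_nonneg ν)
        exact pow_eq_zero_iff (two_ne_zero) |>.mp this
      rw [h1, h2] at hdet
      have hAB : A ^ 2 + B ^ 2 ≤ 0 := by
        have e : ((0 : ℝ) ^ 2 + A) * ((0 : ℝ) ^ 2 - A) - ((0 : ℝ) * 0 + B) ^ 2 =
          -(A ^ 2 + B ^ 2) := by ring
        rw [e] at hdet
        linarith
      have h3 : A = 0 := by
        have : A ^ 2 = 0 := le_antisymm (by linarith [sq_nonneg B]) (sq_nonneg A)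
        exact pow_eq_zero_iff (two_ne_zero) |>.mp this
      have h4 : B = 0 := by
        have : B ^ 2 = 0 := le_antisymm (by linarith [sq_nonneg A]) (sq_nonneg B)
        exact pow_eq_zero_iff (two_ne_zero) |>.mp this
      rw [hQ, h1, h2, h3, h4]
      simp
  have e : 2 * (x0 * A + y0 * B) * x0 + 2 * (x0 * B - y0 * A) * y0 +
      A * (X ^ 2 - Y ^ 2 - (x0 ^ 2 - y0 ^ 2)) + B * (2 * X * Y - 2 * x0 * y0) +
      (α * (X ^ 2 - Y ^ 2 - (x0 ^ 2 - y0 ^ 2)) + β * (2 * X * Y - 2 * x0 * y0)) ^ 2 -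
      (2 * (x0 * A + y0 * B) * X + 2 * (x0 * B - y0 * A) * Y) = Q := by
    rw [hQ, hμ, hν, hX, hx0, hY, hy0]
    ring
  linarith

/-- a linear form on a hyperbola branch -/
lemma hyper {X Y c1 c2 m l : ℝ} (hX : 0 < X) (hm : 0 ≤ m) (hXY : m ≤ X ^ 2 - Y ^ 2)
    (hc : |c2| < c1) (hl : l ^ 2 ≤ m * (c1 ^ 2 - c2 ^ 2)) : l ≤ c1 * X + c2 * Y := by
  have hc1 : 0 < c1 := (abs_nonneg c2).trans_lt hc
  have hYX : |Y| ≤ X := abs_le_of_sq_le_sq (by linarith) hX.le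
  have h1 : 0 ≤ c1 * X + c2 * Y := by
    have h2 : -(|c2| * |Y|) ≤ c2 * Y := by
      rw [← abs_mul]; exact neg_abs_le _
    have h3 : |c2| * |Y| ≤ c1 * X := mul_le_mul hc.le hYX (abs_nonneg _) hc1.le
    linarith
  have h2 : 0 ≤ c1 ^ 2 - c2 ^ 2 := by
    have := sq_lt_sq' (by linarith [abs_nonneg c2]) hc
    rw [sq_abs] at this
    linarith
  have h3 : l ^ 2 ≤ (c1 * X + c2 * Y) ^ 2 := by
    have h4 : (c1 ^ 2 - c2 ^ 2) * m ≤ (c1 ^ 2 - c2 ^ 2) * (X ^ 2 - Y ^ 2) :=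
      mul_le_mul_of_nonneg_left hXY h2
    have e : (c1 * X + c2 * Y) ^ 2 = (c1 ^ 2 - c2 ^ 2) * (X ^ 2 - Y ^ 2) +
        (c1 * Y + c2 * X) ^ 2 := by ring
    rw [e]
    linarith [sq_nonneg (c1 * Y + c2 * X)]
  exact le_of_sq_le_sq' h3 h1
where
  le_of_sq_le_sq' {a b : ℝ} (h : a ^ 2 ≤ b ^ 2) (hb : 0 ≤ b) : a ≤ b := by
    by_contra hcon
    push Not at hcon
    nlinarith

/-- Cauchy-Schwarz in the plane -/
lemma cs2 {P R u v N η : ℝ} (hN : 0 ≤ N) (hη : 0 ≤ η) (h1 : P ^ 2 + R ^ 2 ≤ N ^ 2)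
    (h2 : u ^ 2 + v ^ 2 ≤ η ^ 2) : -(N * η) ≤ P * u + R * v := by
  have h3 : (P * u + R * v) ^ 2 ≤ (N * η) ^ 2 := by
    have h4 : (P * u + R * v) ^ 2 ≤ (P ^ 2 + R ^ 2) * (u ^ 2 + v ^ 2) := by
      have e : (P ^ 2 + R ^ 2) * (u ^ 2 + v ^ 2) = (P * u + R * v) ^ 2 + (P * v - R * u) ^ 2 := by
        ring
      rw [e]
      linarith [sq_nonneg (P * v - R * u)]
    have h5 : (P ^ 2 + R ^ 2) * (u ^ 2 + v ^ 2) ≤ N ^ 2 * η ^ 2 :=
      mul_le_mul h1 h2 (by positivity) (by positivity)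
    rw [mul_pow]
    exact h4.trans h5
  have h6 : 0 ≤ N * η := mul_nonneg hN hη
  exact (abs_le.mp (abs_le_of_sq_le_sq h3 h6)).1

variable {p : ℝ} (O : Obj p)

/-- the test function of one frequency -/
noncomputable def Ff (p w A B α β r : ℝ) : C(ℝ, ℝ) :=
  A • cosm w + B • sinm w +
    (1 - p) • ((α • cosm w + β • sinm w - r • (1 : C(ℝ, ℝ))) *
      (α • cosm w + β • sinm w - r • (1 : C(ℝ, ℝ))))

lemma Ff_apply (p w A B α β r t : ℝ) : Ff p w A B α β r t =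
    A * Real.cos (w * t) + B * Real.sin (w * t) +
      (1 - p) * ((α * Real.cos (w * t) + β * Real.sin (w * t) - r) *
        (α * Real.cos (w * t) + β * Real.sin (w * t) - r)) := by
  unfold Ff
  simp only [ContinuousMap.coe_add, ContinuousMap.coe_smul, ContinuousMap.coe_mul,
    ContinuousMap.coe_sub, ContinuousMap.coe_one, Pi.add_apply, Pi.smul_apply, Pi.mul_apply,
    Pi.sub_apply, Pi.one_apply, smul_eq_mul, mul_one, cosm_apply, sinm_apply]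

lemma Ff_val (p w t A B α β r : ℝ) :
    A * Real.cos (w * t) + B * Real.sin (w * t) +
      (1 - p) * ((α * Real.cos (w * t) + β * Real.sin (w * t) - r) *
        (α * Real.cos (w * t) + β * Real.sin (w * t) - r)) =
    (A - 2 * (1 - p) * r * α) * Real.cos (w * t) + (B - 2 * (1 - p) * r * β) * Real.sin (w * t) +
      (1 - p) * (α ^ 2 - β ^ 2) / 2 * Real.cos (2 * w * t) +
      (1 - p) * α * β * Real.sin (2 * w * t) + (1 - p) * ((α ^ 2 + β ^ 2) / 2 + r ^ 2) := by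
  have h1 : Real.cos (2 * w * t) = 2 * Real.cos (w * t) ^ 2 - 1 := by
    rw [mul_assoc, Real.cos_two_mul]
  have h2 : Real.sin (2 * w * t) = 2 * Real.sin (w * t) * Real.cos (w * t) := by
    rw [mul_assoc, Real.sin_two_mul]
  have h3 : Real.sin (w * t) ^ 2 = 1 - Real.cos (w * t) ^ 2 := by
    have := Real.sin_sq_add_cos_sq (w * t)
    linarith
  rw [h1, h2]
  linear_combination (1 - p) * β ^ 2 * h3

/-- the estimate for one frequency -/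
theorem step (hp : p < 1) {w : ℝ} (hw : w ≠ 0) {σ A B x0 y0 α β r N l e : ℝ}
    (hσ : σ = p * (2 * Real.sin (w / 2) / w))
    (hN : 0 ≤ N)
    (hN2 : (A * (α ^ 2 - β ^ 2) + B * (2 * α * β)) ^ 2 +
      (B * (α ^ 2 - β ^ 2) - A * (2 * α * β)) ^ 2 ≤ N ^ 2)
    (hl : l ≤ ((-(A * (α ^ 2 - β ^ 2) + B * (2 * α * β))) * x0 +
        (B * (α ^ 2 - β ^ 2) - A * (2 * α * β)) * y0) * O.X w +
      ((B * (α ^ 2 - β ^ 2) - A * (2 * α * β)) * x0 -
        (-(A * (α ^ 2 - β ^ 2) + B * (2 * α * β))) * y0) * O.Y w)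
    (hT : A ^ 2 + B ^ 2 ≤ (-(A * (α ^ 2 - β ^ 2) + B * (2 * α * β))) * σ - N * (1 - p) + 2 * l +
      (-(A * (α ^ 2 - β ^ 2) + B * (2 * α * β))) * (x0 ^ 2 - y0 ^ 2) +
      (B * (α ^ 2 - β ^ 2) - A * (2 * α * β)) * (2 * x0 * y0))
    (hr : |r * (1 - p) + α * (σ - (x0 ^ 2 - y0 ^ 2)) - β * (2 * x0 * y0)| ≤ e) (he : e ≤ 1)
    (hb : (|α| + |β| + |r|) * (1 - p) ≤ 1) :
    2 * (x0 * A + y0 * B) * O.X w + 2 * (x0 * B - y0 * A) * O.Y w ≤
      2 * (x0 * A + y0 * B) * x0 + 2 * (x0 * B - y0 * A) * y0 +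
      A * (σ - (x0 ^ 2 - y0 ^ 2)) - B * (2 * x0 * y0) + 3 * e + O.D (Ff p w A B α β r) := by
  have hd := disc O hp hw
  rw [← hσ] at hd
  have hη : 0 < 1 - p := by linarith
  set X := O.X w with hX
  set Y := O.Y w with hY
  set P := -(A * (α ^ 2 - β ^ 2) + B * (2 * α * β)) with hP
  set R := B * (α ^ 2 - β ^ 2) - A * (2 * α * β) with hR
  have hN2' : P ^ 2 + R ^ 2 ≤ N ^ 2 := by rw [hP, neg_sq]; exact hN2
  have h1 := cs2 (P := P) (R := R) (u := X ^ 2 - Y ^ 2 - σ) (v := 2 * X * Y) hN hη.le hN2' hd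
  have hT' : A ^ 2 + B ^ 2 ≤ P * ((X + x0) ^ 2 - (Y + y0) ^ 2) +
      R * (2 * (X + x0) * (Y + y0)) := by
    have e : P * ((X + x0) ^ 2 - (Y + y0) ^ 2) + R * (2 * (X + x0) * (Y + y0)) =
        (P * (X ^ 2 - Y ^ 2 - σ) + R * (2 * X * Y)) + P * σ +
        2 * ((P * x0 + R * y0) * X + (R * x0 - P * y0) * Y) +
        P * (x0 ^ 2 - y0 ^ 2) + R * (2 * x0 * y0) := by ring
    rw [e]
    linarith
  have h2 := tangent hT'
  -- the functional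
  have hDc : O.D (cosm w) = X ^ 2 - Y ^ 2 - σ := by rw [hσ]; exact O.D_cos w hw
  have hDs : O.D (sinm w) = 2 * X * Y := O.D_sin w hw
  set f : C(ℝ, ℝ) := α • cosm w + β • sinm w - r • (1 : C(ℝ, ℝ)) with hf
  have hDf : O.D f = α * (X ^ 2 - Y ^ 2 - σ) + β * (2 * X * Y) - r * (1 - p) := by
    rw [hf, map_sub, map_add, map_smul, map_smul, map_smul, O.D_one, hDc, hDs]
    simp only [smul_eq_mul]
  have hDF : O.D (Ff p w A B α β r) = A * (X ^ 2 - Y ^ 2 - σ) + B * (2 * X * Y) +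
      (1 - p) * O.D (f * f) := by
    unfold Ff
    rw [← hf, map_add, map_add, map_smul, map_smul, map_smul, hDc, hDs]
    simp only [smul_eq_mul]
  have hsq := D_sq O hp f
  set ε := r * (1 - p) + α * (σ - (x0 ^ 2 - y0 ^ 2)) - β * (2 * x0 * y0) with hε
  have h3 : α * (X ^ 2 - Y ^ 2 - (x0 ^ 2 - y0 ^ 2)) + β * (2 * X * Y - 2 * x0 * y0) =
      O.D f + ε := by rw [hDf, hε]; ring
  have hu : |X ^ 2 - Y ^ 2 - σ| ≤ 1 - p :=
    abs_le_of_sq_le_sq (by linarith [sq_nonneg (2 * X * Y)]) hη.le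
  have hv : |2 * X * Y| ≤ 1 - p :=
    abs_le_of_sq_le_sq (by linarith [sq_nonneg (X ^ 2 - Y ^ 2 - σ)]) hη.le
  have hDfb : |O.D f| ≤ 1 := by
    rw [hDf]
    refine le_trans ?_ hb
    have a1 : |α * (X ^ 2 - Y ^ 2 - σ)| ≤ |α| * (1 - p) := by
      rw [abs_mul]; exact mul_le_mul_of_nonneg_left hu (abs_nonneg _)
    have a2 : |β * (2 * X * Y)| ≤ |β| * (1 - p) := by
      rw [abs_mul]; exact mul_le_mul_of_nonneg_left hv (abs_nonneg _)
    have a3 : |r * (1 - p)| = |r| * (1 - p) := by rw [abs_mul, abs_of_pos hη]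
    have a4 := abs_sub (α * (X ^ 2 - Y ^ 2 - σ) + β * (2 * X * Y)) (r * (1 - p))
    have a5 := abs_add_le (α * (X ^ 2 - Y ^ 2 - σ)) (β * (2 * X * Y))
    have e6 : (|α| + |β| + |r|) * (1 - p) = |α| * (1 - p) + |β| * (1 - p) + |r| * (1 - p) := by
      ring
    rw [e6]
    linarith
  have he0 : 0 ≤ e := (abs_nonneg _).trans hr
  have h4 : (O.D f + ε) ^ 2 ≤ (1 - p) * O.D (f * f) + 3 * e := by
    have b1 : O.D f * ε ≤ e := by
      refine (le_abs_self _).trans ?_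
      rw [abs_mul]
      calc |O.D f| * |ε| ≤ 1 * e := mul_le_mul hDfb hr (abs_nonneg _) (by norm_num)
        _ = e := one_mul e
    have b2 : ε ^ 2 ≤ e := by
      have c1 : ε ^ 2 ≤ e ^ 2 := by
        rw [← sq_abs ε]
        exact pow_le_pow_left₀ (abs_nonneg _) hr 2
      have c2 : e ^ 2 ≤ e := by
        rw [pow_two]
        exact mul_le_of_le_one_left he0 he
      exact c1.trans c2
    have e7 : (O.D f + ε) ^ 2 = O.D f ^ 2 + 2 * (O.D f * ε) + ε ^ 2 := by ring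
    rw [e7]
    linarith
  rw [h3] at h2
  rw [hDF]
  linarith

end Pool.Agent.Run7.H247.Dig
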