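import Mathlib

/-!
# Verified sign of trigonometric polynomials, part 1: rotations in integer arithmetic
-/

set_option autoImplicit false

open Complex

namespace Pool.Agent.Run7.H247.Dig

/-- the scale of the fixed point arithmetic -/
def R : ℤ := 1000000000000000000

/-- product of two complex numbers in fixed point arithmetic -/
def mulv (z w : ℤ × ℤ) : ℤ × ℤ :=
  ((z.1 * w.1 - z.2 * w.2) / R, (z.1 * w.2 + z.2 * w.1) / R)

/-- the complex number of a fixed point pair -/
noncomputable def cx (z : ℤ × ℤ) : ℂ := ((z.1 : ℂ) + (z.2 : ℂ) * I) / (R : ℂ)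

/-- `z` approximates `exp (i x)` up to `e` -/
def App (z : ℤ × ℤ) (x e : ℝ) : Prop := ‖cx z - exp (x * I)‖ ≤ e

lemma R_cast : ((R : ℤ) : ℂ) = 1000000000000000000 := by norm_num [R]

lemma div_err (a : ℤ) : |((a / R : ℤ) : ℝ) - (a : ℝ) / 1000000000000000000| ≤ 1 := by
  have h1 := Int.emod_nonneg a (b := R) (by decide)
  have h2 := Int.emod_lt_of_pos a (b := R) (by decide)
  have h3 := Int.emod_add_mul_ediv a R
  have e : (a : ℝ) = ((a % R : ℤ) : ℝ) + 1000000000000000000 * ((a / R : ℤ) : ℝ) := by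
    have : (a : ℝ) = ((a % R + R * (a / R) : ℤ) : ℝ) := by rw [h3]
    rw [this]
    push_cast
    norm_num [R]
  have h1' : (0 : ℝ) ≤ ((a % R : ℤ) : ℝ) := by exact_mod_cast h1
  have h2' : ((a % R : ℤ) : ℝ) < 1000000000000000000 := by
    have : ((a % R : ℤ) : ℝ) < ((R : ℤ) : ℝ) := by exact_mod_cast h2
    simpa [R] using this
  rw [abs_le]
  constructor
  · rw [e]
    have : ((a / R : ℤ) : ℝ) - (((a % R : ℤ) : ℝ) + 1000000000000000000 * ((a / R : ℤ) : ℝ)) /
        1000000000000000000 = -(((a % R : ℤ) : ℝ) / 1000000000000000000) := by field_simp; ring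
    rw [this, neg_le_neg_iff, div_le_one (by norm_num)]
    exact h2'.le
  · rw [e]
    have : ((a / R : ℤ) : ℝ) - (((a % R : ℤ) : ℝ) + 1000000000000000000 * ((a / R : ℤ) : ℝ)) /
        1000000000000000000 = -(((a % R : ℤ) : ℝ) / 1000000000000000000) := by field_simp; ring
    rw [this]
    have : 0 ≤ ((a % R : ℤ) : ℝ) / 1000000000000000000 := by positivity
    linarith

lemma mulv_err (z w : ℤ × ℤ) : ‖cx (mulv z w) - cx z * cx w‖ ≤ 2 / 1000000000000000000 := by
  set a : ℤ := z.1 * w.1 - z.2 * w.2 with ha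
  set c : ℤ := z.1 * w.2 + z.2 * w.1 with hc
  have h1 := div_err a
  have h2 := div_err c
  have e : cx (mulv z w) - cx z * cx w =
      ((((a / R : ℤ) : ℝ) - (a : ℝ) / 1000000000000000000 : ℝ) +
        (((c / R : ℤ) : ℝ) - (c : ℝ) / 1000000000000000000 : ℝ) * I) / 1000000000000000000 := by
    unfold cx mulv
    rw [R_cast]
    simp only [← ha, ← hc]
    have e1 : (a : ℂ) = z.1 * w.1 - z.2 * w.2 := by rw [ha]; push_cast; ring
    have e2 : (c : ℂ) = z.1 * w.2 + z.2 * w.1 := by rw [hc]; push_cast; ring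
    push_cast
    rw [e1, e2]
    field_simp
    linear_combination (-(z.2 : ℂ) * w.2) * I_sq
  rw [e, norm_div]
  have h3 : ‖(1000000000000000000 : ℂ)‖ = 1000000000000000000 := by simp
  rw [h3]
  apply div_le_div_of_nonneg_right _ (by norm_num)
  refine (norm_add_le _ _).trans ?_
  rw [norm_mul, norm_I, mul_one, norm_real, norm_real, Real.norm_eq_abs, Real.norm_eq_abs]
  linarith

lemma norm_exp_I (x : ℝ) : ‖exp (x * I)‖ = 1 := norm_exp_ofReal_mul_I x

lemma App.mul {z w : ℤ × ℤ} {x y e f : ℝ} (hz : App z x e) (hw : App w y f) :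
    App (mulv z w) (x + y) (e + f + e * f + 2 / 1000000000000000000) := by
  unfold App at *
  have h1 := mulv_err z w
  have h2 : cx (mulv z w) - exp ((x + y : ℝ) * I) = (cx (mulv z w) - cx z * cx w) +
      ((cx z - exp (x * I)) * exp (y * I) + exp (x * I) * (cx w - exp (y * I)) +
        (cx z - exp (x * I)) * (cx w - exp (y * I))) := by
    have : exp ((x + y : ℝ) * I) = exp (x * I) * exp (y * I) := by
      rw [← exp_add]; push_cast; ring_nf
    rw [this]
    ring
  have he : 0 ≤ e := (norm_nonneg _).trans hz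
  rw [h2]
  refine (norm_add_le _ _).trans ?_
  have h3 : ‖(cx z - exp (x * I)) * exp (y * I) + exp (x * I) * (cx w - exp (y * I)) +
        (cx z - exp (x * I)) * (cx w - exp (y * I))‖ ≤ e + f + e * f := by
    refine (norm_add_le _ _).trans ?_
    refine add_le_add ((norm_add_le _ _).trans ?_) ?_
    · rw [norm_mul, norm_mul, norm_exp_I, norm_exp_I, mul_one, one_mul]
      exact add_le_add hz hw
    · rw [norm_mul]
      exact mul_le_mul hz hw (norm_nonneg _) he
  linarith

lemma App.mono {z : ℤ × ℤ} {x e f : ℝ} (hz : App z x e) (h : e ≤ f) : App z x f :=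
  le_trans hz h

lemma App_one : App (R, 0) 0 0 := by
  unfold App cx
  rw [R_cast]
  norm_num

lemma App.conj {z : ℤ × ℤ} {x e : ℝ} (hz : App z x e) : App (z.1, -z.2) (-x) e := by
  unfold App at *
  have h : cx (z.1, -z.2) - exp (((-x : ℝ) : ℂ) * I) =
      (starRingEnd ℂ) (cx z - exp (x * I)) := by
    unfold cx
    rw [R_cast, map_sub, ← exp_conj]
    simp only [map_mul, map_div₀, map_add, conj_I, conj_ofReal, map_intCast, map_ofNat]
    push_cast
    ring_nf
  rw [h, norm_conj]
  exact hz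

/-- iterated multiplication -/
def itv (w : ℤ × ℤ) : ℕ → (ℤ × ℤ) → (ℤ × ℤ)
  | 0, z => z
  | (n + 1), z => itv w n (mulv z w)

lemma App.itv {w : ℤ × ℤ} {y f : ℝ} (hw : App w y f) (hf0 : 0 ≤ f) :
    ∀ (n : ℕ) (z : ℤ × ℤ) (x e : ℝ), App z x e → 0 ≤ e →
      e + n * (2 * f + 2 / 1000000000000000000) ≤ 1 →
      App (itv w n z) (x + n * y) (e + n * (2 * f + 2 / 1000000000000000000)) := by
  intro n
  induction n with
  | zero =>
    intro z x e hz _ _
    simpa [Dig.itv] using hz
  | succ n ih =>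
    intro z x e hz he0 hle
    have h0 : 0 ≤ (n : ℝ) * (2 * f + 2 / 1000000000000000000) := by positivity
    have he1 : e ≤ 1 := by
      push_cast at hle
      nlinarith
    have h1 : App (mulv z w) (x + y) (e + (2 * f + 2 / 1000000000000000000)) := by
      refine (hz.mul hw).mono ?_
      nlinarith
    have h2 := ih (mulv z w) (x + y) _ h1 (by positivity) (by push_cast at hle ⊢; linarith)
    have e1 : x + y + n * y = x + ((n + 1 : ℕ) : ℝ) * y := by push_cast; ring
    have e2 : e + (2 * f + 2 / 1000000000000000000) + n * (2 * f + 2 / 1000000000000000000) =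
        e + ((n + 1 : ℕ) : ℝ) * (2 * f + 2 / 1000000000000000000) := by push_cast; ring
    rw [e1, e2] at h2
    exact h2

end Pool.Agent.Run7.H247.Dig
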