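import Pool.Agent.Run7.h247.Dig.Trig

/-!
# Verified sign of trigonometric polynomials, part 2: the base rotation and interpolation
-/

set_option autoImplicit false

open Complex

namespace Pool.Agent.Run7.H247.Dig

lemma norm_exp_sub (x y : ℝ) : ‖exp (x * I) - exp (y * I)‖ ≤ |x - y| := by
  have h : exp (x * I) - exp (y * I) = exp (y * I) * (exp (I * ((x - y : ℝ) : ℂ)) - 1) := by
    rw [mul_sub, ← exp_add, mul_one]
    congr 2
    push_cast
    ring
  rw [h, norm_mul, norm_exp_I, one_mul]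
  exact Real.norm_exp_I_mul_ofReal_sub_one_le

/-- the rotation by `π / 2000` -/
def w1 : ℤ × ℤ := (999998766299703533, 1570795680830879)

lemma App_w1 : App w1 (Real.pi / 2000) (2 / 1000000000000000000) := by
  unfold App
  set x0 : ℝ := 314159265358979323846 / 200000000000000000000000 with hx0
  have hd : |x0 - Real.pi / 2000| ≤ 1 / 100000000000000000000 := by
    have h1 := Real.pi_gt_d20
    have h2 := Real.pi_lt_d20
    rw [abs_le, hx0]
    constructor <;> linarith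
  have h1 : ‖exp (x0 * I) - exp ((Real.pi / 2000 : ℝ) * I)‖ ≤ 1 / 100000000000000000000 :=
    (norm_exp_sub _ _).trans hd
  have hx : ‖(x0 : ℂ) * I‖ = x0 := by
    rw [norm_mul, norm_I, mul_one, norm_real, Real.norm_eq_abs, abs_of_nonneg]
    rw [hx0]; norm_num
  have h2 := exp_bound (x := (x0 : ℂ) * I) (by rw [hx, hx0]; norm_num) (n := 7) (by norm_num)
  rw [hx] at h2
  have h3 : ∑ m ∈ Finset.range 7, ((x0 : ℂ) * I) ^ m / (m.factorial : ℂ) =
      ((1 - x0 ^ 2 / 2 + x0 ^ 4 / 24 - x0 ^ 6 / 720 : ℝ) : ℂ) +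
        ((x0 - x0 ^ 3 / 6 + x0 ^ 5 / 120 : ℝ) : ℂ) * I := by
    simp only [Finset.sum_range_succ, Finset.sum_range_zero, Nat.factorial]
    push_cast
    have i2 : I ^ 2 = -1 := I_sq
    have i3 : I ^ 3 = -I := by rw [pow_succ, i2]; ring
    have i4 : I ^ 4 = 1 := by rw [pow_succ, i3]; linear_combination -i2
    have i5 : I ^ 5 = I := by rw [pow_succ, i4]; ring
    have i6 : I ^ 6 = -1 := by rw [pow_succ, i5]; linear_combination i2
    simp only [mul_pow, i2, i3, i4, i5, i6]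
    ring
  rw [h3] at h2
  have h4 : ‖cx w1 - (((1 - x0 ^ 2 / 2 + x0 ^ 4 / 24 - x0 ^ 6 / 720 : ℝ) : ℂ) +
        ((x0 - x0 ^ 3 / 6 + x0 ^ 5 / 120 : ℝ) : ℂ) * I)‖ ≤ 1 / 1000000000000000000 := by
    have e : cx w1 - (((1 - x0 ^ 2 / 2 + x0 ^ 4 / 24 - x0 ^ 6 / 720 : ℝ) : ℂ) +
        ((x0 - x0 ^ 3 / 6 + x0 ^ 5 / 120 : ℝ) : ℂ) * I) =
        ((999998766299703533 / 1000000000000000000 -
          (1 - x0 ^ 2 / 2 + x0 ^ 4 / 24 - x0 ^ 6 / 720) : ℝ) : ℂ) +
        ((1570795680830879 / 1000000000000000000 -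
          (x0 - x0 ^ 3 / 6 + x0 ^ 5 / 120) : ℝ) : ℂ) * I := by
      unfold cx w1
      rw [R_cast]
      push_cast
      ring
    rw [e]
    refine (norm_add_le _ _).trans ?_
    rw [norm_mul, norm_I, mul_one, norm_real, norm_real, Real.norm_eq_abs, Real.norm_eq_abs]
    have h5 : |999998766299703533 / 1000000000000000000 -
          (1 - x0 ^ 2 / 2 + x0 ^ 4 / 24 - x0 ^ 6 / 720)| ≤ 1 / 2000000000000000000 := by
      rw [hx0, abs_le]
      constructor <;> norm_num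
    have h6 : |1570795680830879 / 1000000000000000000 -
          (x0 - x0 ^ 3 / 6 + x0 ^ 5 / 120)| ≤ 1 / 2000000000000000000 := by
      rw [hx0, abs_le]
      constructor <;> norm_num
    linarith
  have h5 : x0 ^ 7 * (((Nat.succ 7 : ℕ) : ℝ) * (((Nat.factorial 7 : ℕ) : ℝ) * (7 : ℕ))⁻¹) ≤
      1 / 10000000000000000000 := by
    rw [hx0]
    norm_num [Nat.factorial]
  have h6 : cx w1 - exp ((Real.pi / 2000 : ℝ) * I) =
      (cx w1 - (((1 - x0 ^ 2 / 2 + x0 ^ 4 / 24 - x0 ^ 6 / 720 : ℝ) : ℂ) +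
        ((x0 - x0 ^ 3 / 6 + x0 ^ 5 / 120 : ℝ) : ℂ) * I)) -
      (exp (x0 * I) - (((1 - x0 ^ 2 / 2 + x0 ^ 4 / 24 - x0 ^ 6 / 720 : ℝ) : ℂ) +
        ((x0 - x0 ^ 3 / 6 + x0 ^ 5 / 120 : ℝ) : ℂ) * I)) +
      (exp (x0 * I) - exp ((Real.pi / 2000 : ℝ) * I)) := by ring
  rw [h6]
  refine (norm_add_le _ _).trans ?_
  have h7 := norm_sub_le (cx w1 - (((1 - x0 ^ 2 / 2 + x0 ^ 4 / 24 - x0 ^ 6 / 720 : ℝ) : ℂ) +
        ((x0 - x0 ^ 3 / 6 + x0 ^ 5 / 120 : ℝ) : ℂ) * I))
      (exp (x0 * I) - (((1 - x0 ^ 2 / 2 + x0 ^ 4 / 24 - x0 ^ 6 / 720 : ℝ) : ℂ) +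
        ((x0 - x0 ^ 3 / 6 + x0 ^ 5 / 120 : ℝ) : ℂ) * I))
  have h8 := h2.trans h5
  have h9 : (1 : ℝ) / 1000000000000000000 + 1 / 10000000000000000000 +
      1 / 100000000000000000000 ≤ 2 / 1000000000000000000 := by norm_num
  linarith

/-! ### interpolation -/

lemma cos_conv (φ : ℝ) : ConvexOn ℝ Set.univ (fun x : ℝ => x ^ 2 / 2 + Real.cos (x + φ)) := by
  have hd : ∀ x : ℝ, HasDerivAt (fun x : ℝ => x ^ 2 / 2 + Real.cos (x + φ))
      (x - Real.sin (x + φ)) x := by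
    intro x
    have h1 : HasDerivAt (fun x : ℝ => x ^ 2 / 2) x x := by
      have := (hasDerivAt_pow 2 x).div_const 2
      simpa using this
    have h2 : HasDerivAt (fun x : ℝ => Real.cos (x + φ)) (-Real.sin (x + φ)) x := by
      have := ((hasDerivAt_id x).add_const φ).cos
      simpa using this
    have := h1.fun_add h2
    simpa only [sub_eq_add_neg] using this
  apply Monotone.convexOn_univ_of_deriv
  · exact fun x => (hd x).differentiableAt
  · intro x z hxz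
    rw [(hd x).deriv, (hd z).deriv]
    have h1 : |Real.sin (z + φ) - Real.sin (x + φ)| ≤ |z - x| := by
      have h2 := norm_exp_sub (z + φ) (x + φ)
      have h3 : |(exp (((z + φ : ℝ) : ℂ) * I) - exp (((x + φ : ℝ) : ℂ) * I)).im| ≤
          ‖exp (((z + φ : ℝ) : ℂ) * I) - exp (((x + φ : ℝ) : ℂ) * I)‖ := abs_im_le_norm _
      rw [sub_im, exp_ofReal_mul_I_im, exp_ofReal_mul_I_im] at h3
      have h4 : z + φ - (x + φ) = z - x := by ring
      rw [h4] at h2
      exact h3.trans h2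
    rw [abs_of_nonneg (by linarith : 0 ≤ z - x)] at h1
    have := (abs_le.mp h1).2
    linarith

lemma interp (φ u v l : ℝ) (h0 : 0 ≤ l) (h1 : l ≤ 1) :
    Real.cos (l * u + (1 - l) * v + φ) ≤
      l * Real.cos (u + φ) + (1 - l) * Real.cos (v + φ) + l * (1 - l) * (u - v) ^ 2 / 2 := by
  have h := (cos_conv φ).2 (Set.mem_univ u) (Set.mem_univ v) h0 (by linarith : 0 ≤ 1 - l)
    (by ring)
  simp only [smul_eq_mul] at h
  nlinarith

lemma interp_abs (φ u v l : ℝ) (h0 : 0 ≤ l) (h1 : l ≤ 1) :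
    |Real.cos (l * u + (1 - l) * v + φ) -
      (l * Real.cos (u + φ) + (1 - l) * Real.cos (v + φ))| ≤ l * (1 - l) * (u - v) ^ 2 / 2 := by
  have a := interp φ u v l h0 h1
  have b := interp (φ + Real.pi) u v l h0 h1
  simp only [← add_assoc, Real.cos_add_pi] at b
  rw [abs_le]
  constructor <;> linarith

end Pool.Agent.Run7.H247.Dig
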