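import Pool.Agent.Run7.h247.Dig.Branch

/-!
# Numerical values of the Fourier transform of the uniform measure
-/

set_option autoImplicit false
set_option maxRecDepth 100000

open Set

namespace Pool.Agent.Run7.H247.Dig

lemma sg5 : (577350471 / 1000000000) ≤ sg (9069 / 10000) (Real.pi * (5 : ℕ) / 5) ∧
    sg (9069 / 10000) (Real.pi * (5 : ℕ) / 5) ≤ (5773504721 / 10000000000) :=
  sg_bd (m := 5) (z := 999999999999999229) (by norm_num) (by norm_num) (by decide +kernel)
    (by have := Real.pi_gt_d20; have := Real.pi_lt_d20; push_cast; linarith)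
    (by have := Real.pi_gt_d20; have := Real.pi_lt_d20; push_cast; linarith)

lemma sg6 : (1143943599 / 2500000000) ≤ sg (9069 / 10000) (Real.pi * (6 : ℕ) / 5) ∧
    sg (9069 / 10000) (Real.pi * (6 : ℕ) / 5) ≤ (4575774407 / 10000000000) :=
  sg_bd (m := 6) (z := 951056516295152869) (by norm_num) (by norm_num) (by decide +kernel)
    (by have := Real.pi_gt_d20; have := Real.pi_lt_d20; push_cast; linarith)
    (by have := Real.pi_gt_d20; have := Real.pi_lt_d20; push_cast; linarith)

lemma sg7 : (3336331017 / 10000000000) ≤ sg (9069 / 10000) (Real.pi * (7 : ℕ) / 5) ∧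
    sg (9069 / 10000) (Real.pi * (7 : ℕ) / 5) ≤ (834082757 / 2500000000) :=
  sg_bd (m := 7) (z := 809016994374946768) (by norm_num) (by norm_num) (by decide +kernel)
    (by have := Real.pi_gt_d20; have := Real.pi_lt_d20; push_cast; linarith)
    (by have := Real.pi_gt_d20; have := Real.pi_lt_d20; push_cast; linarith)

lemma sg8 : (2120988073 / 10000000000) ≤ sg (9069 / 10000) (Real.pi * (8 : ℕ) / 5) ∧
    sg (9069 / 10000) (Real.pi * (8 : ℕ) / 5) ≤ (530247021 / 2500000000) :=
  sg_bd (m := 8) (z := 587785252292472712) (by norm_num) (by norm_num) (by decide +kernel)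
    (by have := Real.pi_gt_d20; have := Real.pi_lt_d20; push_cast; linarith)
    (by have := Real.pi_gt_d20; have := Real.pi_lt_d20; push_cast; linarith)

lemma sg12 : (-706996029 / 5000000000) ≤ sg (9069 / 10000) (Real.pi * (12 : ℕ) / 5) ∧
    sg (9069 / 10000) (Real.pi * (12 : ℕ) / 5) ≤ (-1413992047 / 10000000000) :=
  sg_bd (m := 12) (z := -587785252292471592) (by norm_num) (by norm_num) (by decide +kernel)
    (by have := Real.pi_gt_d20; have := Real.pi_lt_d20; push_cast; linarith)
    (by have := Real.pi_gt_d20; have := Real.pi_lt_d20; push_cast; linarith)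

lemma sg13 : (-1796485941 / 10000000000) ≤ sg (9069 / 10000) (Real.pi * (13 : ℕ) / 5) ∧
    sg (9069 / 10000) (Real.pi * (13 : ℕ) / 5) ≤ (-179648593 / 1000000000) :=
  sg_bd (m := 13) (z := -809016994374945579) (by norm_num) (by norm_num) (by decide +kernel)
    (by have := Real.pi_gt_d20; have := Real.pi_lt_d20; push_cast; linarith)
    (by have := Real.pi_gt_d20; have := Real.pi_lt_d20; push_cast; linarith)

lemma sg17 : (-171722921 / 1250000000) ≤ sg (9069 / 10000) (Real.pi * (17 : ℕ) / 5) ∧
    sg (9069 / 10000) (Real.pi * (17 : ℕ) / 5) ≤ (-1373783357 / 10000000000) :=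
  sg_bd (m := 17) (z := -809016994374945896) (by norm_num) (by norm_num) (by decide +kernel)
    (by have := Real.pi_gt_d20; have := Real.pi_lt_d20; push_cast; linarith)
    (by have := Real.pi_gt_d20; have := Real.pi_lt_d20; push_cast; linarith)

lemma sg24 : (228788719 / 2000000000) ≤ sg (9069 / 10000) (Real.pi * (24 : ℕ) / 5) ∧
    sg (9069 / 10000) (Real.pi * (24 : ℕ) / 5) ≤ (571971803 / 5000000000) :=
  sg_bd (m := 24) (z := 951056516295149630) (by norm_num) (by norm_num) (by decide +kernel)
    (by have := Real.pi_gt_d20; have := Real.pi_lt_d20; push_cast; linarith)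
    (by have := Real.pi_gt_d20; have := Real.pi_lt_d20; push_cast; linarith)

lemma sg26 : (1055947933 / 10000000000) ≤ sg (9069 / 10000) (Real.pi * (26 : ℕ) / 5) ∧
    sg (9069 / 10000) (Real.pi * (26 : ℕ) / 5) ≤ (131993493 / 1250000000) :=
  sg_bd (m := 26) (z := 951056516295149992) (by norm_num) (by norm_num) (by decide +kernel)
    (by have := Real.pi_gt_d20; have := Real.pi_lt_d20; push_cast; linarith)
    (by have := Real.pi_gt_d20; have := Real.pi_lt_d20; push_cast; linarith)

end Pool.Agent.Run7.H247.Dig
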